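import Pool.Agent.TH715.SP.Far
import Pool.Agent.H254R2.SP.R

/-!
The case of many elements close to a given one: the theorem for few prime factors.
-/

set_option autoImplicit false
set_option linter.unusedSectionVars false
open Finset

namespace Pool.Agent.TH715.SP

variable {h m k : ℕ}

/-- the `j`-fold product set -/
def PP (j : ℕ) (A : Finset ℤ) : Finset ℤ :=
  (Fintype.piFinset fun _ : Fin j => A).image fun f => ∏ i, f i

open Classical in
lemma close_case {Q : Finset ℕ} (hQ : ∀ p ∈ Q, p.Prime) (x : Fin m ↪ Q) (hk : 1 ≤ k)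
    (F : Finset (Fin m → Fin (h + 1))) (u : Fin m → Fin (h + 1)) (M0 : ℕ) (hM0 : 1 ≤ M0)
    (h2 : 2 ≤ (F.filter fun v => dst u v < M0).card) :
    ((F.filter fun v => dst u v < M0).card : ℝ) ^ k *
      Real.exp (-(110 * Real.sqrt ((k : ℝ) ^ 3 * M0 *
        Real.log (F.filter fun v => dst u v < M0).card))) ≤
      max ((SS k (F.image fun f => V (asg x) f)).card : ℝ)
        ((PP k (F.image fun f => V (asg x) f)).card : ℝ) := by
  classical
  have hq : ∀ i, (asg x i).Prime := fun i => hQ _ (x i).2
  set B0 := F.filter fun v => dst u v < M0 with hB0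
  set A := F.image fun f => V (asg x) f with hA
  have hinj : Function.Injective (fun f : Fin m → Fin (h + 1) => V (asg x) f) :=
    fun f f' hff => V_inj hq (asg_inj x) hff
  have hcard : (B0.image fun f => V (asg x) f).card = B0.card :=
    card_image_of_injective _ hinj
  have hsub : (B0.image fun f => V (asg x) f) ⊆ A := image_subset_image (filter_subset _ _)
  have hD : VN (asg x) u ≠ 0 := by
    unfold VN
    exact Finset.prod_ne_zero_iff.mpr fun i _ => pow_ne_zero _ (hq i).ne_zero
  have key := H254R2.SP.final k hk A (B0.image fun f => V (asg x) f) hsub (by rw [hcard]; exact h2)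
    (VN (asg x) u) hD M0 hM0 (by
      intro b hb _
      obtain ⟨v, hv, rfl⟩ := mem_image.mp hb
      have hv' := (mem_filter.mp hv).2
      have hnat : (V (asg x) v).natAbs = VN (asg x) v := by
        rw [V_eq_VN, Int.natAbs_natCast]
      simp only [hnat]
      refine le_trans ?_ hv'.le
      calc (((VN (asg x) v).primeFactors ∪ (VN (asg x) u).primeFactors).filter fun p =>
            (VN (asg x) v).factorization p ≠ (VN (asg x) u).factorization p).card
          ≤ ((univ.filter fun i => u i ≠ v i).image (asg x)).card := by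
            apply card_le_card
            intro p hp
            have hp' := (mem_filter.mp hp).2
            rw [mem_image]
            by_cases hex : ∃ i, asg x i = p
            · obtain ⟨i, rfl⟩ := hex
              refine ⟨i, mem_filter.mpr ⟨mem_univ _, ?_⟩, rfl⟩
              intro hc
              apply hp'
              unfold VN
              rw [fact_prod_self hq (asg_inj x) (fun i => (v i : ℕ)) i,
                fact_prod_self hq (asg_inj x) (fun i => (u i : ℕ)) i, hc]
            · exfalso
              push Not at hex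
              apply hp'
              unfold VN
              rw [fact_prod hq (fun i => (v i : ℕ)) p, fact_prod hq (fun i => (u i : ℕ)) p]
              simp [hex]
        _ ≤ dst u v := card_image_le)
  rw [hcard] at key
  exact key

/-- the dichotomy for a good assignment -/
lemma dichotomy {Q : Finset ℕ} (hQ : ∀ p ∈ Q, p.Prime) {g0 : ℕ} (hg0 : 1 ≤ g0) (hk : 1 ≤ k)
    {E : Finset (Fin m → Fin (h + 1))} {x : Fin m ↪ Q} (hx : GoodX k g0 E x)
    (F : Finset (Fin m → Fin (h + 1))) (hF : F ⊆ E) :
    (F.card : ℝ) ^ k ≤ 2 * (k : ℝ) ^ k * (SS k (F.image fun f => V (asg x) f)).card ∨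
    (F.card : ℝ) < 2 * (k : ℝ) ^ 2 ∨
    ∃ b : ℕ, 2 ≤ b ∧ b ≤ F.card ∧ (F.card : ℝ) ≤ 2 * (k : ℝ) ^ 2 * b ∧
      (b : ℝ) ^ k * Real.exp (-(110 * Real.sqrt ((k : ℝ) ^ 3 * (TT k h * g0 : ℕ) *
        Real.log b))) ≤
      max ((SS k (F.image fun f => V (asg x) f)).card : ℝ)
        ((PP k (F.image fun f => V (asg x) f)).card : ℝ) := by
  classical
  have hT : 1 ≤ TT k h := Fintype.card_pos
  have hM0 : 1 ≤ TT k h * g0 := Nat.one_le_iff_ne_zero.mpr (by positivity)
  have hk2 : 0 < 2 * k ^ 2 := by positivity
  by_cases hb : ∀ u ∈ F, (F.filter fun v => dst u v < TT k h * g0).card ≤ F.card / (2 * k ^ 2)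
  · left
    have h1 := far_sum hQ hx F hF (F.card / (2 * k ^ 2)) hb (Nat.mul_div_le _ _)
    exact_mod_cast h1
  · push Not at hb
    obtain ⟨u, hu, hub⟩ := hb
    right
    by_cases hsmall : F.card < 2 * k ^ 2
    · left; exact_mod_cast hsmall
    right
    set B0 := F.filter fun v => dst u v < TT k h * g0 with hB0
    have h1 : 1 ≤ F.card / (2 * k ^ 2) := (Nat.one_le_div_iff hk2).mpr (by omega)
    have h2 : 2 ≤ B0.card := by omega
    refine ⟨B0.card, h2, card_le_card (filter_subset _ _), ?_, ?_⟩
    · have h3 : F.card < 2 * k ^ 2 * B0.card := by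
        have h4 := Nat.lt_mul_div_succ F.card hk2
        have h5 : F.card / (2 * k ^ 2) + 1 ≤ B0.card := hub
        calc F.card < 2 * k ^ 2 * (F.card / (2 * k ^ 2) + 1) := h4
          _ ≤ _ := Nat.mul_le_mul_left _ h5
      exact_mod_cast h3.le
    · exact close_case hQ x hk F u (TT k h * g0) hM0 h2

end Pool.Agent.TH715.SP
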