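import Pool.Agent.TH715.SP.Core

/-!
Sets of integers whose elements divide a power of a product of primes.
-/

set_option autoImplicit false
set_option linter.unusedSectionVars false
open Finset

namespace Pool.Agent.TH715.SP

/-- the primes of `Q` as a family -/
def qq (Q : Finset ℕ) : Q → ℕ := fun i => (i : ℕ)

/-- a subset of `Q` as a set of indices -/
def ind (Q P : Finset ℕ) : Finset Q := univ.filter fun i : Q => (i : ℕ) ∈ P

lemma qq_inj (Q : Finset ℕ) : Function.Injective (qq Q) := Subtype.val_injective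

lemma card_ind {Q P : Finset ℕ} (hP : P ⊆ Q) : (ind Q P).card = P.card := by
  have : (ind Q P).map (Function.Embedding.subtype _) = P := by
    ext x
    simp only [ind, mem_map, mem_filter, mem_univ, true_and, Function.Embedding.subtype_apply]
    constructor
    · rintro ⟨i, hi, rfl⟩; exact hi
    · intro hx; exact ⟨⟨x, hP hx⟩, hx, rfl⟩
  rw [← this, card_map]
  congr 1
  rw [this]

lemma ind_injOn (Q : Finset ℕ) {P1 P2 : Finset ℕ} (h1 : P1 ⊆ Q) (h2 : P2 ⊆ Q)
    (h : ind Q P1 = ind Q P2) : P1 = P2 := by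
  ext x
  constructor
  · intro hx
    have : (⟨x, h1 hx⟩ : Q) ∈ ind Q P1 := mem_filter.mpr ⟨mem_univ _, hx⟩
    rw [h] at this
    exact (mem_filter.mp this).2
  · intro hx
    have : (⟨x, h2 hx⟩ : Q) ∈ ind Q P2 := mem_filter.mpr ⟨mem_univ _, hx⟩
    rw [← h] at this
    exact (mem_filter.mp this).2

lemma repr_of_dvd {Q : Finset ℕ} (hQ : ∀ p ∈ Q, p.Prime) (h : ℕ) {P : Finset ℕ} (hP : P ⊆ Q)
    (a : ℤ) (ha : 0 < a) (hd : a.natAbs ∣ (∏ p ∈ P, p) ^ h) :
    ∃ f : Q → Fin (h + 1), (∀ i, i ∉ ind Q P → f i = 0) ∧ V (qq Q) f = a := by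
  classical
  set n := a.natAbs with hn
  have hn0 : n ≠ 0 := by omega
  have hM0 : (∏ p ∈ P, p) ≠ 0 := by
    apply Finset.prod_ne_zero_iff.mpr
    intro p hp
    exact (hQ p (hP hp)).ne_zero
  have hfac : ∀ p, (∏ p ∈ P, p).factorization p ≤ if p ∈ P then 1 else 0 := by
    intro p
    rw [Nat.factorization_prod_apply (fun p hp => (hQ p (hP hp)).ne_zero)]
    have : ∀ x ∈ P, x.factorization p = if x = p then 1 else 0 := by
      intro x hx
      rw [(hQ x (hP hx)).factorization, Finsupp.single_apply]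
    rw [Finset.sum_congr rfl this, Finset.sum_ite_eq']
  have hle : ∀ p, n.factorization p ≤ h * if p ∈ P then 1 else 0 := by
    intro p
    have h1 := (Nat.factorization_le_iff_dvd hn0 (pow_ne_zero h hM0)).mpr hd p
    rw [Nat.factorization_pow] at h1
    refine h1.trans ?_
    simp only [Finsupp.smul_apply, smul_eq_mul]
    exact Nat.mul_le_mul_left _ (hfac p)
  have hle' : ∀ p, n.factorization p < h + 1 := by
    intro p
    have := hle p
    split_ifs at this <;> omega
  refine ⟨fun i => ⟨n.factorization i, hle' i⟩, ?_, ?_⟩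
  · intro i hi
    have h1 : (i : ℕ) ∉ P := by
      intro hc
      exact hi (mem_filter.mpr ⟨mem_univ _, hc⟩)
    have h2 := hle i
    rw [if_neg h1] at h2
    apply Fin.ext
    simp only [Fin.val_zero]
    omega
  · unfold V qq
    have h1 : ∏ i : Q, ((i : ℕ) : ℤ) ^ (n.factorization i) = ((n : ℕ) : ℤ) := by
      have h2 : ∏ i : Q, ((i : ℕ)) ^ (n.factorization i) = n := by
        rw [Finset.prod_coe_sort Q (fun i => i ^ (n.factorization i))]
        have h3 := Nat.prod_factorization_pow_eq_self hn0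
        rw [Finsupp.prod_of_support_subset (s := Q)] at h3
        · exact h3
        · intro p hp
          have h4 := hle p
          have h5 : n.factorization p ≠ 0 := Finsupp.mem_support_iff.mp hp
          by_cases hpP : p ∈ P
          · exact hP hpP
          · rw [if_neg hpP] at h4; omega
        · intro i _; simp
      exact_mod_cast h2
    simp only
    rw [h1, hn]
    omega

open scoped Pointwise in
lemma core_pos {Q : Finset ℕ} (hQ : ∀ p ∈ Q, p.Prime) (h : ℕ) {P : Finset ℕ} (hP : P ⊆ Q)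
    (j m K : ℕ) (hK1 : 1 ≤ K)
    (hK : ∀ U : Finset (Fin (m * j) ⊕ Fin (m * j)),
      (relSet h (qq Q) (sg (m * j)) U (ind Q P)).card ≤ K)
    (A : Finset ℤ) (hA : ∀ a ∈ A, 0 < a ∧ a.natAbs ∣ (∏ p ∈ P, p) ^ h)
    (B : Finset ℤ) (hB : B.Nonempty) :
    A.card ^ (m * j) * B.card ^ m ≤
      (4 ^ (m * j) * K) ^ (2 * (m * j)) * ((SS j A + B).card ^ m * B.card) := by
  have h1 := sumset_card (j := m * j) (q := qq Q) (fun i => hQ i i.2) (ind Q P) K hK1 hK A
    (fun a ha => repr_of_dvd hQ h hP a (hA a ha).1 (hA a ha).2)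
  have h2 := plunnecke j m A B hB
  calc A.card ^ (m * j) * B.card ^ m
      ≤ ((4 ^ (m * j) * K) ^ (2 * (m * j)) * (SS (m * j) A).card) * B.card ^ m :=
        Nat.mul_le_mul_right _ h1
    _ = (4 ^ (m * j) * K) ^ (2 * (m * j)) * ((SS (m * j) A).card * B.card ^ m) := by ring
    _ ≤ _ := Nat.mul_le_mul_left _ h2

open scoped Pointwise in
lemma SS_mono {j : ℕ} {A A' : Finset ℤ} (hA : A ⊆ A') : SS j A ⊆ SS j A' := by
  unfold SS
  apply image_subset_image
  exact Fintype.piFinset_subset _ _ fun _ => hA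

open scoped Pointwise in
lemma SS_neg (j : ℕ) (A : Finset ℤ) : SS j (-A) = -(SS j A) := by
  ext x
  unfold SS
  simp only [mem_image, Fintype.mem_piFinset, mem_neg]
  constructor
  · rintro ⟨f, hf, rfl⟩
    refine ⟨-∑ i, f i, ⟨fun i => -f i, ?_, ?_⟩, by simp⟩
    · intro i
      obtain ⟨y, hy, hy'⟩ := hf i
      show -f i ∈ A
      rw [← hy']; simpa using hy
    · rw [Finset.sum_neg_distrib]
  · rintro ⟨y, ⟨f, hf, rfl⟩, rfl⟩
    refine ⟨fun i => -f i, fun i => ⟨f i, hf i, rfl⟩, ?_⟩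
    rw [Finset.sum_neg_distrib]

open scoped Pointwise in
lemma core {Q : Finset ℕ} (hQ : ∀ p ∈ Q, p.Prime) (h : ℕ) {P : Finset ℕ} (hP : P ⊆ Q)
    (j m K : ℕ) (hK1 : 1 ≤ K)
    (hK : ∀ U : Finset (Fin (m * j) ⊕ Fin (m * j)),
      (relSet h (qq Q) (sg (m * j)) U (ind Q P)).card ≤ K)
    (A : Finset ℤ) (hA : ∀ a ∈ A, a.natAbs ∣ (∏ p ∈ P, p) ^ h)
    (B : Finset ℤ) (hB : B.Nonempty) :
    ∃ a' : ℕ, A.card ≤ 2 * a' ∧ a' ^ (m * j) * B.card ^ m ≤
      (4 ^ (m * j) * K) ^ (2 * (m * j)) * ((SS j A + B).card ^ m * B.card) := by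
  classical
  have hM0 : (∏ p ∈ P, p) ≠ 0 := by
    apply Finset.prod_ne_zero_iff.mpr
    intro p hp
    exact (hQ p (hP hp)).ne_zero
  have hne : ∀ a ∈ A, a ≠ 0 := by
    intro a ha h0
    have := hA a ha
    rw [h0] at this
    simp only [Int.natAbs_zero, zero_dvd_iff] at this
    exact pow_ne_zero h hM0 this
  have hsplit : (A.filter fun a => 0 < a).card + (A.filter fun a => ¬ 0 < a).card = A.card :=
    Finset.card_filter_add_card_filter_not _
  have hmono : ∀ A' ⊆ A, (SS j A' + B).card ≤ (SS j A + B).card := fun A' hA' =>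
    card_le_card (add_subset_add_right (SS_mono hA'))
  rcases le_total (A.filter fun a => ¬ 0 < a).card (A.filter fun a => 0 < a).card with hc | hc
  · refine ⟨(A.filter fun a => 0 < a).card, by omega, ?_⟩
    have h1 := core_pos hQ h hP j m K hK1 hK (A.filter fun a => 0 < a)
      (fun a ha => ⟨(mem_filter.mp ha).2, hA a (mem_filter.mp ha).1⟩) B hB
    refine h1.trans (Nat.mul_le_mul_left _ (Nat.mul_le_mul_right _ ?_))
    exact Nat.pow_le_pow_left (hmono _ (filter_subset _ _)) m
  · refine ⟨(A.filter fun a => ¬ 0 < a).card, by omega, ?_⟩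
    set A' := A.filter fun a => ¬ 0 < a with hA'
    have h1 := core_pos hQ h hP j m K hK1 hK (-A') (by
      intro a ha
      rw [mem_neg] at ha
      obtain ⟨y, hy, rfl⟩ := ha
      have hy' := mem_filter.mp hy
      have h2 := hne y hy'.1
      have h3 := hA y hy'.1
      refine ⟨by omega, by rw [Int.natAbs_neg]; exact h3⟩) (-B) hB.neg
    rw [SS_neg, ← neg_add, card_neg, card_neg, card_neg] at h1
    refine h1.trans (Nat.mul_le_mul_left _ (Nat.mul_le_mul_right _ ?_))
    exact Nat.pow_le_pow_left (hmono _ (filter_subset _ _)) m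

end Pool.Agent.TH715.SP
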