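import Pool.Agent.TH715.SP.Repr

/-!
From representations to sumsets with an arbitrary second summand (Plünnecke).
-/

set_option autoImplicit false
set_option linter.unusedSectionVars false
open Finset

namespace Pool.Agent.TH715.SP

open scoped Pointwise in
lemma SS_eq_nsmul (j : ℕ) (A : Finset ℤ) : SS j A = Finset.nsmul.smul j A := by
  ext x
  have h := Finset.mem_nsmul (s := A) (a := x) (n := j)
  unfold SS
  rw [mem_image]
  constructor
  · rintro ⟨f, hf, rfl⟩
    rw [Fintype.mem_piFinset] at hf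
    apply h.mpr
    refine ⟨fun i => ⟨f i, hf i⟩, ?_⟩
    rw [List.sum_ofFn]
  · intro hx
    obtain ⟨f, hf⟩ := h.mp hx
    rw [List.sum_ofFn] at hf
    exact ⟨fun i => f i, Fintype.mem_piFinset.mpr fun i => (f i).2, hf⟩

open scoped Pointwise in
lemma plunnecke (j m : ℕ) (A B : Finset ℤ) (hB : B.Nonempty) :
    (SS (m * j) A).card * B.card ^ m ≤ (SS j A + B).card ^ m * B.card := by
  have h1 := Finset.pluennecke_ruzsa_inequality_nsmul_add hB (SS j A) m
  have h2 : SS (m * j) A = m • SS j A := by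
    rw [SS_eq_nsmul, SS_eq_nsmul]
    exact mul_nsmul' A m j
  rw [← h2] at h1
  have hB0 : (0 : ℚ≥0) < (B.card : ℚ≥0) := by exact_mod_cast hB.card_pos
  rw [div_pow, div_mul_eq_mul_div, le_div_iff₀ (pow_pos hB0 m)] at h1
  rw [add_comm B (SS j A)] at h1
  exact_mod_cast h1

end Pool.Agent.TH715.SP
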