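import Pool.Agent.TH715.SP.Img

/-!
Sums of pairwise distant elements under a good assignment of primes.
-/

set_option autoImplicit false
set_option linter.unusedSectionVars false
open Finset

namespace Pool.Agent.TH715.SP

variable {h m k : ℕ}

/-- number of coordinates in which two exponent vectors differ -/
def dst (u v : Fin m → Fin (h + 1)) : ℕ := (univ.filter fun i => u i ≠ v i).card

/-- number of patterns -/
def TT (k h : ℕ) : ℕ := Fintype.card ((Fin k ⊕ Fin k) → Fin (h + 1))

/-- no nondegenerate relation between elements of `E` contains a distant pair -/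
def GoodX {Q : Finset ℕ} (k g0 : ℕ) (E : Finset (Fin m → Fin (h + 1))) (x : Fin m ↪ Q) : Prop :=
  ∀ U : Finset (Fin k ⊕ Fin k), ∀ c : (Fin k ⊕ Fin k) → Fin m → Fin (h + 1),
    (∀ s, c s ∈ E) → NRel (asg x) (sg k) U c →
    ∀ s1 ∈ U, ∀ s2 ∈ U, dst (c s1) (c s2) < TT k h * g0

open Classical in
lemma bad_count {Q : Finset ℕ} (hQ : ∀ p ∈ Q, p.Prime) (hmN : m ≤ Q.card) (g0 : ℕ) (hg0 : 1 ≤ g0)
    (E : Finset (Fin m → Fin (h + 1))) :
    ((univ.filter fun x : Fin m ↪ Q => ¬ GoodX k g0 E x).card : ℝ) ≤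
      (4 : ℝ) ^ k * (E.card : ℝ) ^ (2 * k) * (h * ((m : ℝ) / Q.card) ^ g0) *
        Fintype.card (Fin m ↪ Q) := by
  classical
  let 𝒞 := ((univ : Finset (Finset (Fin k ⊕ Fin k))) ×ˢ
    (Fintype.piFinset fun _ : Fin k ⊕ Fin k => E)).filter fun z =>
      ∃ s1 ∈ z.1, ∃ s2 ∈ z.1, TT k h * g0 ≤ dst (z.2 s1) (z.2 s2)
  have hcov : (univ.filter fun x : Fin m ↪ Q => ¬ GoodX k g0 E x) ⊆
      𝒞.biUnion fun z => univ.filter fun x : Fin m ↪ Q => NRel (asg x) (sg k) z.1 z.2 := by
    intro x hx
    have hx' := (mem_filter.mp hx).2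
    unfold GoodX at hx'
    push Not at hx'
    obtain ⟨U, c, hc, hrel, s1, hs1, s2, hs2, hd⟩ := hx'
    rw [mem_biUnion]
    refine ⟨(U, c), mem_filter.mpr ⟨mem_product.mpr ⟨mem_univ _, Fintype.mem_piFinset.mpr hc⟩,
      s1, hs1, s2, hs2, hd⟩, mem_filter.mpr ⟨mem_univ _, hrel⟩⟩
  have hcard : (𝒞.card : ℝ) ≤ (4 : ℝ) ^ k * (E.card : ℝ) ^ (2 * k) := by
    have h1 : 𝒞.card ≤ 4 ^ k * E.card ^ (2 * k) := by
      refine (card_filter_le _ _).trans ?_
      rw [card_product, Fintype.card_piFinset, prod_const, card_univ, card_univ,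
        Fintype.card_finset, Fintype.card_sum, Fintype.card_fin]
      apply le_of_eq
      rw [← two_mul, pow_mul]
      norm_num
    exact_mod_cast h1
  calc ((univ.filter fun x : Fin m ↪ Q => ¬ GoodX k g0 E x).card : ℝ)
      ≤ ((𝒞.biUnion fun z => univ.filter fun x : Fin m ↪ Q =>
          NRel (asg x) (sg k) z.1 z.2).card : ℝ) := by exact_mod_cast card_le_card hcov
    _ ≤ ∑ z ∈ 𝒞, ((univ.filter fun x : Fin m ↪ Q =>
          NRel (asg x) (sg k) z.1 z.2).card : ℝ) := by exact_mod_cast card_biUnion_le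
    _ ≤ ∑ z ∈ 𝒞, (h * ((m : ℝ) / Q.card) ^ g0 * Fintype.card (Fin m ↪ Q)) := by
        refine Finset.sum_le_sum fun z hz => ?_
        obtain ⟨s1, hs1, s2, hs2, hd⟩ := (mem_filter.mp hz).2
        apply rel_prob hQ hmN (sg k) z.1 z.2 g0 _ hg0
        refine hd.trans ?_
        apply card_le_card
        intro i hi
        exact mem_filter.mpr ⟨mem_univ _, s1, hs1, s2, hs2, (mem_filter.mp hi).2⟩
    _ = 𝒞.card * (h * ((m : ℝ) / Q.card) ^ g0 * Fintype.card (Fin m ↪ Q)) := by
        rw [sum_const, nsmul_eq_mul]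
    _ ≤ ((4 : ℝ) ^ k * (E.card : ℝ) ^ (2 * k)) *
          (h * ((m : ℝ) / Q.card) ^ g0 * Fintype.card (Fin m ↪ Q)) :=
        mul_le_mul_of_nonneg_right hcard (by positivity)
    _ = _ := by ring

lemma fact_prod {ι : Type} [Fintype ι] {q : ι → ℕ} (hq : ∀ i, (q i).Prime)
    (f : ι → ℕ) (p : ℕ) :
    (∏ i, q i ^ f i).factorization p = ∑ i, if q i = p then f i else 0 := by
  classical
  rw [Nat.factorization_prod_apply (fun i _ => pow_ne_zero _ (hq i).ne_zero)]
  refine Finset.sum_congr rfl fun i _ => ?_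
  rw [Nat.factorization_pow, (hq i).factorization]
  simp only [Finsupp.smul_apply, Finsupp.single_apply, smul_eq_mul]
  by_cases hi : q i = p
  · simp [hi]
  · simp [hi]

lemma fact_prod_self {ι : Type} [Fintype ι] {q : ι → ℕ} (hq : ∀ i, (q i).Prime)
    (hinj : Function.Injective q) (f : ι → ℕ) (i : ι) :
    (∏ i, q i ^ f i).factorization (q i) = f i := by
  classical
  rw [fact_prod hq]
  have : ∀ j, (if q j = q i then f j else 0) = if j = i then f i else 0 := by
    intro j
    by_cases hj : j = i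
    · simp [hj]
    · have : q j ≠ q i := fun h' => hj (hinj h')
      simp [hj, this]
  simp_rw [this]
  simp

/-- natural number version of `V` -/
def VN {ι : Type} [Fintype ι] (q : ι → ℕ) (f : ι → Fin (h + 1)) : ℕ := ∏ i, q i ^ (f i : ℕ)

lemma V_eq_VN {ι : Type} [Fintype ι] (q : ι → ℕ) (f : ι → Fin (h + 1)) :
    V q f = (VN q f : ℤ) := by
  unfold V VN; push_cast; rfl

lemma V_inj {ι : Type} [Fintype ι] {q : ι → ℕ} (hq : ∀ i, (q i).Prime)
    (hinj : Function.Injective q) {f f' : ι → Fin (h + 1)} (hV : V q f = V q f') : f = f' := by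
  rw [V_eq_VN, V_eq_VN] at hV
  have h1 : VN q f = VN q f' := by exact_mod_cast hV
  funext i
  have h2 := fact_prod_self hq hinj (fun i => (f i : ℕ)) i
  have h3 := fact_prod_self hq hinj (fun i => (f' i : ℕ)) i
  unfold VN at h1
  rw [h1] at h2
  apply Fin.ext
  omega

lemma V_pos {ι : Type} [Fintype ι] {q : ι → ℕ} (hq : ∀ i, (q i).Prime)
    (f : ι → Fin (h + 1)) : 0 < V q f := by
  unfold V
  apply Finset.prod_pos
  intro i _
  have : (0 : ℤ) < (q i : ℤ) := by exact_mod_cast (hq i).pos
  exact pow_pos this _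

lemma far_fiber {Q : Finset ℕ} (hQ : ∀ p ∈ Q, p.Prime) {g0 : ℕ}
    {E : Finset (Fin m → Fin (h + 1))} {x : Fin m ↪ Q} (hx : GoodX k g0 E x)
    (f f' : Fin k → Fin m → Fin (h + 1)) (hf : ∀ i, f i ∈ E) (hf' : ∀ i, f' i ∈ E)
    (hfar : ∀ i j, i ≠ j → TT k h * g0 ≤ dst (f i) (f j))
    (hfar' : ∀ i j, i ≠ j → TT k h * g0 ≤ dst (f' i) (f' j))
    (hsum : ∑ i, V (asg x) (f i) = ∑ i, V (asg x) (f' i)) (j : Fin k) :
    ∃ i, f' j = f i := by
  classical
  have hq : ∀ i, (asg x i).Prime := fun i => hQ _ (x i).2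
  let c : (Fin k ⊕ Fin k) → Fin m → Fin (h + 1) := Sum.elim f f'
  let 𝒱 := (univ : Finset (Finset (Fin k ⊕ Fin k))).filter fun U =>
    Sum.inr j ∈ U ∧ ∑ s ∈ U, sg k s * V (asg x) (c s) = 0
  have htot : ∑ s : Fin k ⊕ Fin k, sg k s * V (asg x) (c s) = 0 := by
    rw [Fintype.sum_sum_type]
    have h2 : ∑ t : Fin k, sg k (Sum.inl t) * V (asg x) (c (Sum.inl t)) =
        ∑ i, V (asg x) (f i) := by
      refine Finset.sum_congr rfl fun t _ => ?_
      simp [sg, c]
    have h3 : ∑ t : Fin k, sg k (Sum.inr t) * V (asg x) (c (Sum.inr t)) =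
        -∑ i, V (asg x) (f' i) := by
      rw [← Finset.sum_neg_distrib]
      refine Finset.sum_congr rfl fun t _ => ?_
      simp [sg, c]
    rw [h2, h3, hsum]; ring
  have hne : 𝒱.Nonempty := ⟨univ, mem_filter.mpr ⟨mem_univ _, mem_univ _, htot⟩⟩
  obtain ⟨U, hU, hmin⟩ := Finset.exists_min_image 𝒱 Finset.card hne
  have hU' := (mem_filter.mp hU).2
  have hrel : NRel (asg x) (sg k) U c := by
    refine ⟨hU'.2, ?_⟩
    intro W hW hWn hWU hc
    by_cases hsW : Sum.inr j ∈ W
    · have : U.card ≤ W.card := hmin W (mem_filter.mpr ⟨mem_univ _, hsW, hc⟩)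
      exact hWU (Finset.eq_of_subset_of_card_le hW this)
    · have h1 : ∑ s ∈ U \ W, sg k s * V (asg x) (c s) = 0 := by
        have := Finset.sum_sdiff (f := fun s => sg k s * V (asg x) (c s)) hW
        rw [hc, hU'.2, add_zero] at this
        exact this
      have h2 : U.card ≤ (U \ W).card :=
        hmin (U \ W) (mem_filter.mpr ⟨mem_univ _, mem_sdiff.mpr ⟨hU'.1, hsW⟩, h1⟩)
      rw [card_sdiff_of_subset hW] at h2
      have h3 := hWn.card_pos
      have h4 := card_le_card hW
      omega
  have hclose := hx U c (by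
    intro s
    rcases s with i | i
    · exact hf i
    · exact hf' i) hrel
  have hr : ∀ j', Sum.inr j' ∈ U → j' = j := by
    intro j' hj'
    by_contra hne'
    have h1 := hclose _ hj' _ hU'.1
    have h2 := hfar' j' j hne'
    exact absurd h1 (not_lt.mpr h2)
  have hl : ∀ i i', Sum.inl i ∈ U → Sum.inl i' ∈ U → i = i' := by
    intro i i' hi hi'
    by_contra hne'
    have h1 := hclose _ hi _ hi'
    have h2 := hfar i i' hne'
    exact absurd h1 (not_lt.mpr h2)
  have hexl : ∃ i, Sum.inl i ∈ U := by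
    by_contra hc
    push Not at hc
    have : U = {Sum.inr j} := by
      ext s
      rcases s with i | i
      · simp [hc i]
      · simp only [mem_singleton, Sum.inr.injEq]
        constructor
        · exact hr i
        · rintro rfl; exact hU'.1
    have h1 := hU'.2
    rw [this, sum_singleton] at h1
    have h2 := V_pos hq (c (Sum.inr j))
    simp only [sg, Sum.elim_inr] at h1
    omega
  obtain ⟨i, hi⟩ := hexl
  have hUeq : U = {Sum.inl i, Sum.inr j} := by
    ext s
    rcases s with i' | i'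
    · simp only [mem_insert, mem_singleton, Sum.inl.injEq, reduceCtorEq, or_false]
      constructor
      · intro h'; exact hl i' i h' hi
      · rintro rfl; exact hi
    · simp only [mem_insert, mem_singleton, Sum.inr.injEq, reduceCtorEq, false_or]
      constructor
      · exact hr i'
      · rintro rfl; exact hU'.1
  have h1 := hU'.2
  rw [hUeq, sum_pair (by simp)] at h1
  have h2 : V (asg x) (f' j) = V (asg x) (f i) := by
    simp only [sg, Sum.elim_inl, Sum.elim_inr, c] at h1
    linarith
  exact ⟨i, V_inj hq (asg_inj x) h2⟩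

open Classical in
lemma far_sum {Q : Finset ℕ} (hQ : ∀ p ∈ Q, p.Prime) {g0 : ℕ}
    {E : Finset (Fin m → Fin (h + 1))} {x : Fin m ↪ Q} (hx : GoodX k g0 E x)
    (F : Finset (Fin m → Fin (h + 1))) (hF : F ⊆ E) (b : ℕ)
    (hb : ∀ u ∈ F, (F.filter fun v => dst u v < TT k h * g0).card ≤ b)
    (hbM : 2 * k ^ 2 * b ≤ F.card) :
    F.card ^ k ≤ 2 * k ^ k * (SS k (F.image fun f => V (asg x) f)).card := by
  classical
  set A := F.image fun f => V (asg x) f with hA
  let allT := Fintype.piFinset fun _ : Fin k => F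
  let farT := allT.filter fun f => ∀ i j, i ≠ j → TT k h * g0 ≤ dst (f i) (f j)
  have hall : allT.card = F.card ^ k := Fintype.card_piFinset_const _ _
  -- close tuples
  have hpair : ∀ i j : Fin k, i ≠ j →
      (allT.filter fun f => dst (f i) (f j) < TT k h * g0).card ≤ b * F.card ^ (k - 1) := by
    intro i j hij
    let π : (Fin k → Fin m → Fin (h + 1)) → ({l : Fin k // l ≠ j} → Fin m → Fin (h + 1)) :=
      fun f l => f l
    have himg : ((allT.filter fun f => dst (f i) (f j) < TT k h * g0).image π).card ≤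
        F.card ^ (k - 1) := by
      have h1 : (Fintype.piFinset fun _ : {l : Fin k // l ≠ j} => F).card = F.card ^ (k - 1) := by
        rw [Fintype.card_piFinset, prod_const, card_univ]
        congr 1
        rw [Fintype.card_subtype_compl, Fintype.card_fin]
        simp
      rw [← h1]
      apply card_le_card
      intro g hg
      obtain ⟨f, hf, rfl⟩ := mem_image.mp hg
      rw [Fintype.mem_piFinset]
      intro l
      exact Fintype.mem_piFinset.mp (mem_filter.mp hf).1 l
    refine le_trans (Finset.card_le_mul_card_image _ b (f := π) ?_)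
      (Nat.mul_le_mul_left _ himg)
    intro g hg
    obtain ⟨f0, hf0, hf0g⟩ := mem_image.mp hg
    have hf0i : f0 i ∈ F := Fintype.mem_piFinset.mp (mem_filter.mp hf0).1 i
    refine le_trans ?_ (hb (f0 i) hf0i)
    refine Finset.card_le_card_of_injOn (fun f => f j) ?_ ?_
    · intro f hf
      have hf' := mem_filter.mp (mem_coe.mp hf)
      have hf'' := mem_filter.mp hf'.1
      rw [mem_coe, mem_filter]
      refine ⟨Fintype.mem_piFinset.mp hf''.1 j, ?_⟩
      have h1 : f i = f0 i := by
        have := hf'.2.trans hf0g.symm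
        exact congrFun this ⟨i, hij⟩
      rw [← h1]; exact hf''.2
    · intro f hf f' hf' heq
      have h1 := (mem_filter.mp (mem_coe.mp hf)).2
      have h2 := (mem_filter.mp (mem_coe.mp hf')).2
      funext l
      by_cases hl : l = j
      · rw [hl]; exact heq
      · exact congrFun (h1.trans h2.symm) ⟨l, hl⟩
  have hfar : F.card ^ k ≤ 2 * farT.card := by
    have h1 : allT ⊆ farT ∪ (((univ : Finset (Fin k × Fin k)).filter fun z => z.1 ≠ z.2).biUnion
        fun z => allT.filter fun f => dst (f z.1) (f z.2) < TT k h * g0) := by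
      intro f hf
      rw [mem_union]
      by_cases hc : ∀ i j, i ≠ j → TT k h * g0 ≤ dst (f i) (f j)
      · left; exact mem_filter.mpr ⟨hf, hc⟩
      · right
        push Not at hc
        obtain ⟨i, j, hij, hd⟩ := hc
        rw [mem_biUnion]
        exact ⟨(i, j), mem_filter.mpr ⟨mem_univ _, hij⟩, mem_filter.mpr ⟨hf, hd⟩⟩
    have h2 : (((univ : Finset (Fin k × Fin k)).filter fun z => z.1 ≠ z.2).biUnion
        fun z => allT.filter fun f => dst (f z.1) (f z.2) < TT k h * g0).card ≤
        k ^ 2 * (b * F.card ^ (k - 1)) := by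
      refine card_biUnion_le.trans ?_
      refine (Finset.sum_le_sum fun z hz => hpair z.1 z.2 (mem_filter.mp hz).2).trans ?_
      rw [sum_const, smul_eq_mul]
      refine Nat.mul_le_mul_right _ ?_
      refine (card_filter_le _ _).trans ?_
      rw [card_univ, Fintype.card_prod, Fintype.card_fin, sq]
    have h3 := (card_le_card h1).trans (card_union_le _ _)
    rw [hall] at h3
    rcases Nat.eq_zero_or_pos k with hk0 | hk0
    · subst hk0
      simp only [pow_zero] at h3 h2 ⊢
      omega
    · have h4 : 2 * (k ^ 2 * (b * F.card ^ (k - 1))) ≤ F.card ^ k := by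
        calc 2 * (k ^ 2 * (b * F.card ^ (k - 1))) = (2 * k ^ 2 * b) * F.card ^ (k - 1) := by ring
          _ ≤ F.card * F.card ^ (k - 1) := Nat.mul_le_mul_right _ hbM
          _ = F.card ^ k := by rw [← pow_succ', Nat.sub_add_cancel hk0]
      omega
  -- fibres of the sum
  have hfib : ∀ n ∈ SS k A, (farT.filter fun f => ∑ i, V (asg x) (f i) = n).card ≤ k ^ k := by
    intro n _
    set R := farT.filter fun f => ∑ i, V (asg x) (f i) = n with hR
    by_cases hne : R.Nonempty
    swap
    · rw [Finset.not_nonempty_iff_eq_empty.mp hne]; simp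
    obtain ⟨f0, hf0⟩ := hne
    have hf0' := mem_filter.mp hf0
    have hf0'' := mem_filter.mp hf0'.1
    have hmem0 := Fintype.mem_piFinset.mp hf0''.1
    let I : Finset (Fin m → Fin (h + 1)) := univ.image f0
    have hI : I.card ≤ k := by
      calc I.card ≤ (univ : Finset (Fin k)).card := card_image_le
        _ = k := by simp
    calc R.card ≤ (Fintype.piFinset fun _ : Fin k => I).card := by
          apply card_le_card
          intro f hf
          have hf' := mem_filter.mp hf
          have hf'' := mem_filter.mp hf'.1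
          have hmem := Fintype.mem_piFinset.mp hf''.1
          rw [Fintype.mem_piFinset]
          intro j
          obtain ⟨i, hi⟩ := far_fiber hQ hx f0 f (fun i => hF (hmem0 i)) (fun i => hF (hmem i))
            hf0''.2 hf''.2 (hf0'.2.trans hf'.2.symm) j
          rw [hi]
          exact mem_image_of_mem _ (mem_univ _)
      _ = I.card ^ k := Fintype.card_piFinset_const _ _
      _ ≤ k ^ k := Nat.pow_le_pow_left hI k
  have hmaps : ∀ f ∈ farT, ∑ i, V (asg x) (f i) ∈ SS k A := by
    intro f hf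
    have hmem := Fintype.mem_piFinset.mp (mem_filter.mp hf).1
    unfold SS
    rw [mem_image]
    refine ⟨fun i => V (asg x) (f i), Fintype.mem_piFinset.mpr fun i => ?_, rfl⟩
    rw [hA]
    exact mem_image_of_mem _ (hmem i)
  have h5 := Finset.card_le_mul_card_image_of_maps_to (s := farT) (t := SS k A)
    (f := fun f => ∑ i, V (asg x) (f i)) hmaps (k ^ k) hfib
  calc F.card ^ k ≤ 2 * farT.card := hfar
    _ ≤ 2 * (k ^ k * (SS k A).card) := Nat.mul_le_mul_left _ h5
    _ = _ := by ring

end Pool.Agent.TH715.SP
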