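import Pool.Agent.TH715.SP.Conn

/-!
The `j`-fold theorem for almost all sets of primes.
-/

set_option autoImplicit false
set_option linter.unusedSectionVars false
open Finset

namespace Pool.Agent.TH715.SP

open scoped Pointwise

/-- transfer of the count of bad `k`-subsets to the index type -/
lemma card_transfer (Q : Finset ℕ) (k : ℕ) (bad : Finset ℕ → Prop) (bad' : Finset Q → Prop)
    [DecidablePred bad] [DecidablePred bad']
    (h : ∀ P ⊆ Q, P.card = k → bad P → bad' (ind Q P)) :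
    ((Q.powersetCard k).filter bad).card ≤
      ((powersetCard k (univ : Finset Q)).filter bad').card := by
  refine Finset.card_le_card_of_injOn (fun P => ind Q P) ?_ ?_
  · intro P hP
    have hP' := mem_filter.mp (mem_coe.mp hP)
    rw [mem_powersetCard] at hP'
    rw [mem_coe, mem_filter, mem_powersetCard]
    exact ⟨⟨subset_univ _, by rw [card_ind hP'.1.1]; exact hP'.1.2⟩, h P hP'.1.1 hP'.1.2 hP'.2⟩
  · intro P1 h1 P2 h2 heq
    have h1' := mem_powersetCard.mp (mem_filter.mp (mem_coe.mp h1)).1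
    have h2' := mem_powersetCard.mp (mem_filter.mp (mem_coe.mp h2)).1
    exact ind_injOn Q h1'.1 h2'.1 heq

/-- the real inequality -/
lemma real_ineq (j m K : ℕ) (ε δ η k : ℝ) (hm : 1 ≤ m) (hmε : 1 / (m : ℝ) ≤ ε) (hε : 0 < ε)
    (hK1 : 1 ≤ K) (hKη : (K : ℝ) ≤ Real.exp (η * k)) (hη : 2 * j * η ≤ ε * δ / 2) (hk : 0 ≤ k)
    (hk0 : (j : ℝ) * Real.log 2 + 2 * j * (m * j) * Real.log 4 ≤ ε * δ * k / 2)
    (a a' b x : ℕ) (ha : Real.exp (δ * k) ≤ a) (haa : a ≤ 2 * a') (hb : 1 ≤ b)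
    (hcore : a' ^ (m * j) * b ^ m ≤ (4 ^ (m * j) * K) ^ (2 * (m * j)) * (x ^ m * b)) :
    (a : ℝ) ^ ((j : ℝ) - ε) * (b : ℝ) ^ (1 - ε) ≤ x := by
  have ha0 : (0 : ℝ) < a := lt_of_lt_of_le (Real.exp_pos _) ha
  have ha1 : 1 ≤ a := by
    have : 0 < a := by exact_mod_cast ha0
    omega
  have ha'1 : 1 ≤ a' := by omega
  have hx1 : 1 ≤ x := by
    by_contra hc
    have hx0 : x = 0 := by omega
    rw [hx0, zero_pow (by omega), zero_mul, mul_zero] at hcore
    have h1 : 0 < a' ^ (m * j) * b ^ m := by positivity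
    omega
  have hmpos : (0 : ℝ) < m := by exact_mod_cast hm
  have hb0 : (0 : ℝ) < b := by exact_mod_cast hb
  have ha'0 : (0 : ℝ) < a' := by exact_mod_cast ha'1
  have hx0 : (0 : ℝ) < x := by exact_mod_cast hx1
  have hK0 : (0 : ℝ) < K := by exact_mod_cast hK1
  have hcore' : (a' : ℝ) ^ (m * j) * (b : ℝ) ^ m ≤
      ((4 : ℝ) ^ (m * j) * K) ^ (2 * (m * j)) * ((x : ℝ) ^ m * b) := by exact_mod_cast hcore
  have hlog := Real.log_le_log (by positivity) hcore'
  rw [Real.log_mul (by positivity) (by positivity), Real.log_pow, Real.log_pow,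
    Real.log_mul (by positivity) (by positivity), Real.log_pow,
    Real.log_mul (by positivity) (by positivity), Real.log_pow,
    Real.log_mul (by positivity) (by positivity), Real.log_pow] at hlog
  push_cast at hlog
  have hlogK : Real.log K ≤ η * k := by
    rw [← Real.log_exp (η * k)]
    exact Real.log_le_log hK0 hKη
  have hloga : δ * k ≤ Real.log a := by
    rw [← Real.log_exp (δ * k)]
    exact Real.log_le_log (Real.exp_pos _) ha
  have hlogaa : Real.log a ≤ Real.log 2 + Real.log a' := by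
    rw [← Real.log_mul (by norm_num) (by positivity)]
    apply Real.log_le_log ha0
    exact_mod_cast haa
  have hlogb : 0 ≤ Real.log b := Real.log_nonneg (by exact_mod_cast hb)
  have hj0 : (0 : ℝ) ≤ j := Nat.cast_nonneg j
  -- divide by m
  have h1 : (j : ℝ) * Real.log a' + Real.log b ≤
      2 * j * (m * j * Real.log 4 + Real.log K) + Real.log x + 1 / m * Real.log b := by
    have h2 : (m : ℝ) * ((j : ℝ) * Real.log a' + Real.log b) ≤
        m * (2 * j * (m * j * Real.log 4 + Real.log K) + Real.log x + 1 / m * Real.log b) := by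
      have h3 : (m : ℝ) * (2 * j * (m * j * Real.log 4 + Real.log K) + Real.log x +
          1 / m * Real.log b) = 2 * (m * j) * (m * j * Real.log 4 + Real.log K) +
          (m * Real.log x + Real.log b) := by
        field_simp
        ring
      rw [h3]
      calc (m : ℝ) * ((j : ℝ) * Real.log a' + Real.log b) =
            m * j * Real.log a' + m * Real.log b := by ring
        _ ≤ _ := hlog
    exact le_of_mul_le_mul_left h2 hmpos
  have h2 : 1 / (m : ℝ) * Real.log b ≤ ε * Real.log b := mul_le_mul_of_nonneg_right hmε hlogb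
  have h3 : (j : ℝ) * Real.log K ≤ j * (η * k) := mul_le_mul_of_nonneg_left hlogK hj0
  have h4 : (j : ℝ) * Real.log a ≤ j * (Real.log 2 + Real.log a') :=
    mul_le_mul_of_nonneg_left hlogaa hj0
  have h5 : ε * (δ * k) ≤ ε * Real.log a := mul_le_mul_of_nonneg_left hloga hε.le
  have h6 : 2 * j * η * k ≤ ε * δ / 2 * k := mul_le_mul_of_nonneg_right hη hk
  have h7 : ((j : ℝ) - ε) * Real.log a + (1 - ε) * Real.log b ≤ Real.log x := by
    nlinarith
  rw [Real.rpow_def_of_pos ha0, Real.rpow_def_of_pos hb0, ← Real.exp_add]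
  calc Real.exp (Real.log a * ((j : ℝ) - ε) + Real.log b * (1 - ε))
      ≤ Real.exp (Real.log x) := by
        apply Real.exp_le_exp.mpr
        linarith [mul_comm (Real.log a) ((j : ℝ) - ε), mul_comm (Real.log b) (1 - ε)]
    _ = x := Real.exp_log hx0

open Classical in
theorem final1 (j h : ℕ) (ε δ : ℝ) (hε : 0 < ε) (hδ : 0 < δ) :
    ∃ C c : ℝ, 0 < C ∧ 0 < c ∧ ∀ (k : ℕ) (Q : Finset ℕ), (∀ p ∈ Q, p.Prime) →
      C * k ≤ Q.card →
      (((Q.powersetCard k).filter fun P => ¬ ∀ A : Finset ℤ,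
        (∀ a ∈ A, a.natAbs ∣ (∏ p ∈ P, p) ^ h) → Real.exp (δ * k) ≤ A.card →
        ∀ B : Finset ℤ, B.Nonempty →
          (A.card : ℝ) ^ ((j : ℝ) - ε) * (B.card : ℝ) ^ (1 - ε) ≤
            ((SS j A + B).card : ℝ)).card : ℝ) ≤
        C * Real.exp (-(c * k)) * (Q.card.choose k : ℝ) := by
  obtain ⟨m, hm⟩ : ∃ m : ℕ, m = ⌈1 / ε⌉₊ + 1 := ⟨_, rfl⟩
  have hm1 : 1 ≤ m := by omega
  have hmpos : (0 : ℝ) < m := by exact_mod_cast hm1
  have hmε : 1 / (m : ℝ) ≤ ε := by
    have h1 : 1 / ε ≤ m := by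
      have h2 := Nat.le_ceil (1 / ε)
      rw [hm]; push_cast; linarith
    rw [div_le_iff₀ hmpos]
    rw [div_le_iff₀ hε] at h1
    linarith
  obtain ⟨J, hJ⟩ : ∃ J : ℕ, J = m * j := ⟨_, rfl⟩
  obtain ⟨η, hη⟩ : ∃ η : ℝ, η = ε * δ / (4 * (j + 1)) := ⟨_, rfl⟩
  have hη0 : 0 < η := by rw [hη]; positivity
  have hη1 : 2 * j * η ≤ ε * δ / 2 := by
    rw [hη]
    have hj0 : (0 : ℝ) ≤ j := Nat.cast_nonneg j
    rw [mul_div_assoc', div_le_div_iff₀ (by positivity) (by norm_num)]
    have : 0 < ε * δ := by positivity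
    nlinarith
  obtain ⟨T, hT⟩ : ∃ T : ℕ, T = Fintype.card ((Fin J ⊕ Fin J) → Fin (h + 1)) := ⟨_, rfl⟩
  have hT1 : 1 ≤ T := by rw [hT]; exact Fintype.card_pos
  have hTpos : (0 : ℝ) < T := by exact_mod_cast hT1
  obtain ⟨lam, hlam⟩ : ∃ lam : ℝ, lam = min 1 (η / (2 * T)) := ⟨_, rfl⟩
  have hl0 : 0 < lam := by rw [hlam]; exact lt_min one_pos (by positivity)
  have hl1 : lam ≤ 1 := by rw [hlam]; exact min_le_left _ _
  have hTl : T * lam ≤ η / 2 := by
    have : lam ≤ η / (2 * T) := by rw [hlam]; exact min_le_right _ _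
    calc T * lam ≤ T * (η / (2 * T)) := mul_le_mul_of_nonneg_left this hTpos.le
      _ = η / 2 := by field_simp
  obtain ⟨k0, hk0⟩ : ∃ k0 : ℝ, k0 = ((j : ℝ) * Real.log 2 + 2 * j * (m * j) * Real.log 4) * 2 /
    (ε * δ) := ⟨_, rfl⟩
  obtain ⟨C2, hC2⟩ : ∃ C2 : ℝ, C2 = 2 ^ (J + J) * (1 + T * h) := ⟨_, rfl⟩
  have hC20 : 0 ≤ C2 := by rw [hC2]; positivity
  refine ⟨1 + 1 / lam ^ T + C2 + Real.exp (η / 2 * k0), η / 2, by positivity, by positivity, ?_⟩
  intro k Q hQ hC
  have hp1 : 0 < 1 / lam ^ T := by positivity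
  have hp2 : 0 < Real.exp (η / 2 * k0) := Real.exp_pos _
  have hk : (0 : ℝ) ≤ k := Nat.cast_nonneg k
  by_cases hkk : (k : ℝ) < k0
  · -- small k: trivial
    calc (((Q.powersetCard k).filter fun P => ¬ ∀ A : Finset ℤ,
        (∀ a ∈ A, a.natAbs ∣ (∏ p ∈ P, p) ^ h) → Real.exp (δ * k) ≤ A.card →
        ∀ B : Finset ℤ, B.Nonempty →
          (A.card : ℝ) ^ ((j : ℝ) - ε) * (B.card : ℝ) ^ (1 - ε) ≤
            ((SS j A + B).card : ℝ)).card : ℝ) ≤ ((Q.powersetCard k).card : ℝ) := by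
          exact_mod_cast card_le_card (filter_subset _ _)
      _ = 1 * (Q.card.choose k : ℝ) := by rw [card_powersetCard, one_mul]
      _ ≤ _ := by
          refine mul_le_mul_of_nonneg_right ?_ (Nat.cast_nonneg _)
          calc (1 : ℝ) = Real.exp 0 := by rw [Real.exp_zero]
            _ ≤ Real.exp (η / 2 * k0 + -(η / 2 * k)) := by
                apply Real.exp_le_exp.mpr
                nlinarith
            _ = Real.exp (η / 2 * k0) * Real.exp (-(η / 2 * k)) := by rw [Real.exp_add]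
            _ ≤ _ := by
                refine mul_le_mul_of_nonneg_right ?_ (Real.exp_pos _).le
                linarith
  push Not at hkk
  have hN : Fintype.card Q = Q.card := Fintype.card_coe Q
  have hkN : k ≤ Q.card := by
    have : (k : ℝ) ≤ Q.card := by
      have h1 : (1 : ℝ) * k ≤ (1 + 1 / lam ^ T + C2 + Real.exp (η / 2 * k0)) * k :=
        mul_le_mul_of_nonneg_right (by linarith) hk
      linarith
    exact_mod_cast this
  have hkl : (k : ℝ) / Fintype.card Q ≤ lam ^ Fintype.card ((Fin J ⊕ Fin J) → Fin (h + 1)) := by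
    rw [hN, ← hT]
    by_cases hN0 : Q.card = 0
    · rw [hN0]; simp only [Nat.cast_zero, div_zero]; positivity
    · have hNpos : (0 : ℝ) < Q.card := by exact_mod_cast Nat.pos_of_ne_zero hN0
      rw [div_le_iff₀ hNpos]
      have h1 : 1 / lam ^ T * k ≤ Q.card := by
        refine le_trans ?_ hC
        exact mul_le_mul_of_nonneg_right (by linarith) hk
      calc (k : ℝ) = lam ^ T * (1 / lam ^ T * k) := by field_simp
        _ ≤ lam ^ T * Q.card := mul_le_mul_of_nonneg_left h1 (by positivity)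
  let Λ : Finset ((Fin J ⊕ Fin J → ℤ) × Finset (Fin J ⊕ Fin J)) :=
    {sg J} ×ˢ (univ : Finset (Finset (Fin J ⊕ Fin J)))
  have hΛ : (Λ.card : ℝ) = 2 ^ (J + J) := by
    simp only [Λ, card_product, card_singleton, one_mul, card_univ, Fintype.card_finset,
      Fintype.card_sum, Fintype.card_fin]
    push_cast; ring
  have hmarkov := markov (h := h) (q := qq Q) (fun i => hQ i i.2) (qq_inj Q) Λ k
    (by rw [hN]; exact hkN) lam hl0.le hl1 hkl (Real.exp (η * k)) (Real.exp_pos _)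
  have htr := card_transfer Q k (fun P => ¬ ∀ A : Finset ℤ,
        (∀ a ∈ A, a.natAbs ∣ (∏ p ∈ P, p) ^ h) → Real.exp (δ * k) ≤ A.card →
        ∀ B : Finset ℤ, B.Nonempty →
          (A.card : ℝ) ^ ((j : ℝ) - ε) * (B.card : ℝ) ^ (1 - ε) ≤
            ((SS j A + B).card : ℝ))
      (fun P => Real.exp (η * k) < ∑ x ∈ Λ, ((relSet h (qq Q) x.1 x.2 P).card : ℝ)) (by
    intro P hP hPk hbad
    by_contra hc
    push Not at hc
    apply hbad
    intro A hA hAc B hB
    set K : ℕ := ⌊Real.exp (η * k)⌋₊ with hKdef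
    have hK1 : 1 ≤ K := by
      apply Nat.le_floor
      rw [Nat.cast_one]
      apply Real.one_le_exp
      positivity
    have hKle : (K : ℝ) ≤ Real.exp (η * k) := Nat.floor_le (Real.exp_pos _).le
    have hKU : ∀ U : Finset (Fin (m * j) ⊕ Fin (m * j)),
        (relSet h (qq Q) (sg (m * j)) U (ind Q P)).card ≤ K := by
      rw [← hJ]
      intro U
      apply Nat.le_floor
      refine le_trans ?_ hc
      exact Finset.single_le_sum (f := fun x : (Fin J ⊕ Fin J → ℤ) × Finset (Fin J ⊕ Fin J) =>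
        ((relSet h (qq Q) x.1 x.2 (ind Q P)).card : ℝ)) (fun _ _ => Nat.cast_nonneg _)
        (show (sg J, U) ∈ Λ from mem_product.mpr ⟨mem_singleton_self _, mem_univ _⟩)
    obtain ⟨a', ha', hcore⟩ := core hQ h hP j m K hK1 hKU A hA B hB
    refine real_ineq j m K ε δ η k hm1 hmε hε hK1 hKle hη1 hk ?_ A.card a' B.card _ hAc ha'
      hB.card_pos hcore
    rw [hk0, div_le_iff₀ (by positivity)] at hkk
    linarith)
  have h1 : (((Q.powersetCard k).filter fun P => ¬ ∀ A : Finset ℤ,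
        (∀ a ∈ A, a.natAbs ∣ (∏ p ∈ P, p) ^ h) → Real.exp (δ * k) ≤ A.card →
        ∀ B : Finset ℤ, B.Nonempty →
          (A.card : ℝ) ^ ((j : ℝ) - ε) * (B.card : ℝ) ^ (1 - ε) ≤
            ((SS j A + B).card : ℝ)).card : ℝ) ≤
      (Real.exp (η * k))⁻¹ * (Λ.card * (1 + Fintype.card ((Fin J ⊕ Fin J) → Fin (h + 1)) *
        (h * Real.exp (Fintype.card ((Fin J ⊕ Fin J) → Fin (h + 1)) * (lam * k))))) *
        (Fintype.card Q).choose k := by
    refine le_trans ?_ hmarkov
    exact_mod_cast htr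
  refine h1.trans ?_
  rw [hN, ← hT, hΛ]
  refine mul_le_mul_of_nonneg_right ?_ (Nat.cast_nonneg _)
  have h2 : Real.exp (T * (lam * k)) ≤ Real.exp (η / 2 * k) := by
    apply Real.exp_le_exp.mpr
    nlinarith
  have h3 : (1 : ℝ) ≤ Real.exp (η / 2 * k) := Real.one_le_exp (by positivity)
  have h4 : (2 : ℝ) ^ (J + J) * (1 + T * (h * Real.exp (T * (lam * k)))) ≤
      C2 * Real.exp (η / 2 * k) := by
    rw [hC2, mul_assoc]
    refine mul_le_mul_of_nonneg_left ?_ (by positivity)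
    have h5 : (T : ℝ) * (h * Real.exp (T * (lam * k))) ≤ T * (h * Real.exp (η / 2 * k)) := by
      gcongr
    nlinarith
  calc (Real.exp (η * k))⁻¹ * (2 ^ (J + J) * (1 + T * (h * Real.exp (T * (lam * k)))))
      ≤ (Real.exp (η * k))⁻¹ * (C2 * Real.exp (η / 2 * k)) :=
        mul_le_mul_of_nonneg_left h4 (by positivity)
    _ = C2 * Real.exp (-(η / 2 * k)) := by
        rw [← Real.exp_neg, mul_left_comm, ← Real.exp_add]
        congr 2; ring
    _ ≤ _ := by
        refine mul_le_mul_of_nonneg_right ?_ (Real.exp_pos _).le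
        linarith

end Pool.Agent.TH715.SP
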