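import Pool.Agent.TH715.SP.Quad

/-!
Almost Sidon sets of divisors for almost all sets of primes.
-/

set_option autoImplicit false
set_option linter.unusedSectionVars false
open Finset

namespace Pool.Agent.TH715.SP

open scoped Pointwise

lemma real_ineq2 (a x W w : ℝ) (ha : 1 ≤ a) (hx : 0 ≤ x) (hw0 : 0 ≤ w) (hW : W ≤ w * a ^ 2)
    (haw : a ≤ w * a ^ 2) (h : (a ^ 2 - a) ^ 2 ≤ x * (2 * a ^ 2 + W)) :
    (1 / 2 - 2 * w) * a ^ 2 ≤ x := by
  by_cases hneg : 1 / 2 - 2 * w ≤ 0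
  · have : (1 / 2 - 2 * w) * a ^ 2 ≤ 0 := mul_nonpos_of_nonpos_of_nonneg hneg (by positivity)
    linarith
  push Not at hneg
  have ha2 : 0 < a ^ 2 := by positivity
  have h1 : a ^ 2 * (a - 1) ^ 2 ≤ a ^ 2 * (x * (2 + w)) := by
    calc a ^ 2 * (a - 1) ^ 2 = (a ^ 2 - a) ^ 2 := by ring
      _ ≤ x * (2 * a ^ 2 + W) := h
      _ ≤ x * (2 * a ^ 2 + w * a ^ 2) := mul_le_mul_of_nonneg_left (by linarith) hx
      _ = a ^ 2 * (x * (2 + w)) := by ring
  have h2 : (a - 1) ^ 2 ≤ x * (2 + w) := le_of_mul_le_mul_left h1 ha2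
  have h3 : (1 / 2 - 2 * w) * a ^ 2 * (2 + w) ≤ x * (2 + w) := by
    have h4 : (1 / 2 - 2 * w) * a ^ 2 * (2 + w) ≤ a ^ 2 - 2 * (w * a ^ 2) := by
      have : 0 ≤ w * a ^ 2 * (3 / 2 + 2 * w) := by positivity
      nlinarith
    nlinarith
  exact le_of_mul_le_mul_right h3 (by linarith)

open Classical in
theorem final2 (h : ℕ) (δ : ℝ) (hδ : 0 < δ) :
    ∃ C c : ℝ, 0 < C ∧ 0 < c ∧ ∀ (k : ℕ) (Q : Finset ℕ), (∀ p ∈ Q, p.Prime) →
      C * k ≤ Q.card →
      (((Q.powersetCard k).filter fun P => ¬ ∀ A : Finset ℤ,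
        (∀ a ∈ A, a.natAbs ∣ (∏ p ∈ P, p) ^ h) →
        Real.exp (δ * k) * ((h + 1) ^ k : ℕ) ≤ (A.card : ℝ) ^ 2 →
          (1 / 2 - 2 * Real.exp (-(δ * k / 2))) * (A.card : ℝ) ^ 2 ≤
            ((A + A).card : ℝ)).card : ℝ) ≤
        C * Real.exp (-(c * k)) * (Q.card.choose k : ℝ) := by
  obtain ⟨T, hT⟩ : ∃ T : ℕ, T = Fintype.card (Fin 4 → Fin (h + 1)) := ⟨_, rfl⟩
  have hT1 : 1 ≤ T := by rw [hT]; exact Fintype.card_pos
  have hTpos : (0 : ℝ) < T := by exact_mod_cast hT1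
  obtain ⟨η, hη⟩ : ∃ η : ℝ, η = δ / 2 := ⟨_, rfl⟩
  have hη0 : 0 < η := by rw [hη]; positivity
  obtain ⟨lam, hlam⟩ : ∃ lam : ℝ, lam = min 1 (η / (2 * T)) := ⟨_, rfl⟩
  have hl0 : 0 < lam := by rw [hlam]; exact lt_min one_pos (by positivity)
  have hl1 : lam ≤ 1 := by rw [hlam]; exact min_le_left _ _
  have hTl : T * lam ≤ η / 2 := by
    have : lam ≤ η / (2 * T) := by rw [hlam]; exact min_le_right _ _
    calc T * lam ≤ T * (η / (2 * T)) := mul_le_mul_of_nonneg_left this hTpos.le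
      _ = η / 2 := by field_simp
  obtain ⟨C2, hC2⟩ : ∃ C2 : ℝ, C2 = 16 * (1 + T * h) := ⟨_, rfl⟩
  have hC20 : 0 ≤ C2 := by rw [hC2]; positivity
  refine ⟨1 + 1 / lam ^ T + C2, η / 2, by positivity, by positivity, ?_⟩
  intro k Q hQ hC
  have hp1 : 0 < 1 / lam ^ T := by positivity
  have hk : (0 : ℝ) ≤ k := Nat.cast_nonneg k
  have hN : Fintype.card Q = Q.card := Fintype.card_coe Q
  have hkN : k ≤ Q.card := by
    have : (k : ℝ) ≤ Q.card := by
      have h1 : (1 : ℝ) * k ≤ (1 + 1 / lam ^ T + C2) * k :=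
        mul_le_mul_of_nonneg_right (by linarith) hk
      linarith
    exact_mod_cast this
  have hkl : (k : ℝ) / Fintype.card Q ≤ lam ^ Fintype.card (Fin 4 → Fin (h + 1)) := by
    rw [hN, ← hT]
    by_cases hN0 : Q.card = 0
    · rw [hN0]; simp only [Nat.cast_zero, div_zero]; positivity
    · have hNpos : (0 : ℝ) < Q.card := by exact_mod_cast Nat.pos_of_ne_zero hN0
      rw [div_le_iff₀ hNpos]
      have h1 : 1 / lam ^ T * k ≤ Q.card := by
        refine le_trans ?_ hC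
        exact mul_le_mul_of_nonneg_right (by linarith) hk
      calc (k : ℝ) = lam ^ T * (1 / lam ^ T * k) := by field_simp
        _ ≤ lam ^ T * Q.card := mul_le_mul_of_nonneg_left h1 (by positivity)
  obtain ⟨Λ, hΛdef⟩ : ∃ Λ : Finset ((Fin 4 → ℤ) × Finset (Fin 4)), Λ = signs4 ×ˢ {univ} :=
    ⟨_, rfl⟩
  have hΛ : (Λ.card : ℝ) = 16 := by
    rw [hΛdef, card_product, card_singleton, card_signs4]; norm_num
  have hmarkov := markov (h := h) (q := qq Q) (fun i => hQ i i.2) (qq_inj Q) Λ k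
    (by rw [hN]; exact hkN) lam hl0.le hl1 hkl (Real.exp (η * k)) (Real.exp_pos _)
  have htr := card_transfer Q k (fun P => ¬ ∀ A : Finset ℤ,
        (∀ a ∈ A, a.natAbs ∣ (∏ p ∈ P, p) ^ h) →
        Real.exp (δ * k) * ((h + 1) ^ k : ℕ) ≤ (A.card : ℝ) ^ 2 →
          (1 / 2 - 2 * Real.exp (-(δ * k / 2))) * (A.card : ℝ) ^ 2 ≤
            ((A + A).card : ℝ))
      (fun P => Real.exp (η * k) < ∑ x ∈ Λ, ((relSet h (qq Q) x.1 x.2 P).card : ℝ)) (by
    intro P hP hPk hbad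
    by_contra hc
    push Not at hc
    apply hbad
    intro A hA hAc
    have hM0 : (∏ p ∈ P, p) ≠ 0 := by
      apply Finset.prod_ne_zero_iff.mpr
      intro p hp
      exact (hQ p (hP hp)).ne_zero
    have hA' : ∀ a ∈ A, a ≠ 0 ∧ ∃ f : Q → Fin (h + 1), (∀ i, i ∉ ind Q P → f i = 0) ∧
        V (qq Q) f = |a| := by
      intro a ha
      have hne : a ≠ 0 := by
        intro h0
        have := hA a ha
        rw [h0] at this
        simp only [Int.natAbs_zero, zero_dvd_iff] at this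
        exact pow_ne_zero h hM0 this
      refine ⟨hne, ?_⟩
      apply repr_of_dvd hQ h hP |a| (abs_pos.mpr hne)
      rw [Int.natAbs_abs]
      exact hA a ha
    have hquad := quads_card (q := qq Q) (fun i => hQ i i.2) (ind Q P) A hA'
    rw [card_ind hP, hPk] at hquad
    have hsum : ((∑ σ ∈ signs4, (relSet h (qq Q) σ univ (ind Q P)).card : ℕ) : ℝ) ≤
        Real.exp (η * k) := by
      refine le_trans (le_of_eq ?_) hc
      rw [hΛdef, Finset.sum_product]
      push_cast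
      refine Finset.sum_congr rfl fun σ _ => ?_
      rw [sum_singleton]
    set w : ℝ := Real.exp (-(δ * k / 2)) with hw
    have hw0 : 0 < w := Real.exp_pos _
    have ha2 : (0 : ℝ) < (A.card : ℝ) ^ 2 := lt_of_lt_of_le (by positivity) hAc
    have ha1 : (1 : ℝ) ≤ A.card := by
      have : A.card ≠ 0 := by
        intro h0; rw [h0] at ha2; simp at ha2
      exact_mod_cast Nat.one_le_iff_ne_zero.mpr this
    have hexp : Real.exp (δ * k) ≤ (A.card : ℝ) ^ 2 := by
      refine le_trans ?_ hAc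
      have h1 : (1 : ℝ) ≤ ((h + 1) ^ k : ℕ) := by
        exact_mod_cast Nat.one_le_pow _ _ (Nat.succ_pos h)
      calc Real.exp (δ * k) = Real.exp (δ * k) * 1 := (mul_one _).symm
        _ ≤ _ := mul_le_mul_of_nonneg_left h1 (Real.exp_pos _).le
    have hW : ((quads A).card : ℝ) ≤ w * (A.card : ℝ) ^ 2 := by
      have h1 : ((quads A).card : ℝ) ≤
          ((∑ σ ∈ signs4, (relSet h (qq Q) σ univ (ind Q P)).card : ℕ) : ℝ) *
            ((h + 1) ^ k : ℕ) := by exact_mod_cast hquad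
      calc ((quads A).card : ℝ) ≤ Real.exp (η * k) * ((h + 1) ^ k : ℕ) :=
            h1.trans (mul_le_mul_of_nonneg_right hsum (Nat.cast_nonneg _))
        _ = w * (Real.exp (δ * k) * ((h + 1) ^ k : ℕ)) := by
            rw [hw, ← mul_assoc, ← Real.exp_add, hη]
            congr 2; ring
        _ ≤ w * (A.card : ℝ) ^ 2 := mul_le_mul_of_nonneg_left hAc hw0.le
    have haw : (A.card : ℝ) ≤ w * (A.card : ℝ) ^ 2 := by
      have h1 : Real.exp (δ * k / 2) ≤ A.card := by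
        apply le_of_sq_le_sq _ (by linarith)
        rw [← Real.exp_nat_mul]
        refine le_trans (le_of_eq ?_) hexp
        congr 1; push_cast; ring
      have h2 : 1 ≤ w * A.card := by
        calc (1 : ℝ) = w * Real.exp (δ * k / 2) := by
              rw [hw, ← Real.exp_add]; simp
          _ ≤ w * A.card := mul_le_mul_of_nonneg_left h1 hw0.le
      calc (A.card : ℝ) = 1 * A.card := (one_mul _).symm
        _ ≤ (w * A.card) * A.card := mul_le_mul_of_nonneg_right h2 (by linarith)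
        _ = w * (A.card : ℝ) ^ 2 := by ring
    exact real_ineq2 A.card _ _ w ha1 (Nat.cast_nonneg _) hw0.le hW haw (sumset_quads A))
  have h1 : (((Q.powersetCard k).filter fun P => ¬ ∀ A : Finset ℤ,
        (∀ a ∈ A, a.natAbs ∣ (∏ p ∈ P, p) ^ h) →
        Real.exp (δ * k) * ((h + 1) ^ k : ℕ) ≤ (A.card : ℝ) ^ 2 →
          (1 / 2 - 2 * Real.exp (-(δ * k / 2))) * (A.card : ℝ) ^ 2 ≤
            ((A + A).card : ℝ)).card : ℝ) ≤
      (Real.exp (η * k))⁻¹ * (Λ.card * (1 + Fintype.card (Fin 4 → Fin (h + 1)) *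
        (h * Real.exp (Fintype.card (Fin 4 → Fin (h + 1)) * (lam * k))))) *
        (Fintype.card Q).choose k := by
    refine le_trans ?_ hmarkov
    exact_mod_cast htr
  refine h1.trans ?_
  rw [hN, ← hT, hΛ]
  refine mul_le_mul_of_nonneg_right ?_ (Nat.cast_nonneg _)
  have h2 : Real.exp (T * (lam * k)) ≤ Real.exp (η / 2 * k) := by
    apply Real.exp_le_exp.mpr
    nlinarith
  have h3 : (1 : ℝ) ≤ Real.exp (η / 2 * k) := Real.one_le_exp (by positivity)
  have h4 : (16 : ℝ) * (1 + T * (h * Real.exp (T * (lam * k)))) ≤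
      C2 * Real.exp (η / 2 * k) := by
    rw [hC2, mul_assoc]
    refine mul_le_mul_of_nonneg_left ?_ (by positivity)
    have h5 : (T : ℝ) * (h * Real.exp (T * (lam * k))) ≤ T * (h * Real.exp (η / 2 * k)) := by
      gcongr
    nlinarith
  calc (Real.exp (η * k))⁻¹ * (16 * (1 + T * (h * Real.exp (T * (lam * k)))))
      ≤ (Real.exp (η * k))⁻¹ * (C2 * Real.exp (η / 2 * k)) :=
        mul_le_mul_of_nonneg_left h4 (by positivity)
    _ = C2 * Real.exp (-(η / 2 * k)) := by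
        rw [← Real.exp_neg, mul_left_comm, ← Real.exp_add]
        congr 2; ring
    _ ≤ _ := by
        refine mul_le_mul_of_nonneg_right ?_ (Real.exp_pos _).le
        linarith

end Pool.Agent.TH715.SP
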