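import Pool.Agent.TH715.SP.Close

/-!
Almost all multiplicative images of every finite set of `(h+1)`-free integers.
-/

set_option autoImplicit false
set_option linter.unusedSectionVars false
open Finset

namespace Pool.Agent.TH715.SP

lemma sqrt_add_le' (a b : ℝ) (ha : 0 ≤ a) (hb : 0 ≤ b) :
    Real.sqrt (a + b) ≤ Real.sqrt a + Real.sqrt b := by
  rw [Real.sqrt_le_left (by positivity)]
  have h1 := Real.sq_sqrt ha
  have h2 := Real.sq_sqrt hb
  have h3 : 0 ≤ Real.sqrt a * Real.sqrt b := by positivity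
  nlinarith

/-- the real inequality for the `k`-fold theorem -/
lemma real_ineq3 (k T g0 b M : ℕ) (X L κ ε δ : ℝ) (hT : 1 ≤ T) (hε : 0 < ε)
    (hδ : 0 < δ) (hκ : 0 < κ) (hκ1 : 110 * Real.sqrt ((k : ℝ) ^ 3 * (κ / δ)) ≤ ε / 2)
    (hg : (T : ℝ) * g0 ≤ T + κ * L) (hL : δ * L ≤ Real.log M) (hb2 : 2 ≤ b) (hbM : b ≤ M)
    (hMb : (M : ℝ) ≤ 2 * (k : ℝ) ^ 2 * b) (hk : 1 ≤ k)
    (hX : (b : ℝ) ^ k * Real.exp (-(110 * Real.sqrt ((k : ℝ) ^ 3 * (T * g0 : ℕ) *
        Real.log b))) ≤ X) :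
    ((2 * (k : ℝ) ^ 2) ^ k)⁻¹ * Real.exp (-(110 ^ 2 * k ^ 3 * T / (2 * ε))) *
      (M : ℝ) ^ ((k : ℝ) - ε) ≤ X := by
  have hM0 : (0 : ℝ) < M := by
    have : 0 < M := by omega
    exact_mod_cast this
  have hb0 : (0 : ℝ) < b := by
    have : 0 < b := by omega
    exact_mod_cast this
  have hk0 : (0 : ℝ) < k := by exact_mod_cast hk
  have hT0 : (0 : ℝ) < T := by exact_mod_cast hT
  have hlM : 0 ≤ Real.log M := Real.log_natCast_nonneg M
  have hlb : 0 ≤ Real.log b := Real.log_natCast_nonneg b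
  have hlbM : Real.log b ≤ Real.log M := Real.log_le_log hb0 (by exact_mod_cast hbM)
  have hLle : L ≤ Real.log M / δ := by rw [le_div_iff₀ hδ]; linarith
  -- the exponent
  have h1 : Real.sqrt ((k : ℝ) ^ 3 * (T * g0 : ℕ) * Real.log b) ≤
      Real.sqrt ((k : ℝ) ^ 3 * T * Real.log M) +
        Real.sqrt ((k : ℝ) ^ 3 * (κ / δ)) * Real.log M := by
    have h2 : (k : ℝ) ^ 3 * (T * g0 : ℕ) * Real.log b ≤
        (k : ℝ) ^ 3 * T * Real.log M + (k : ℝ) ^ 3 * (κ / δ) * (Real.log M) ^ 2 := by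
      have h3 : ((T * g0 : ℕ) : ℝ) ≤ T + κ / δ * Real.log M := by
        push_cast
        refine hg.trans ?_
        have : κ * L ≤ κ * (Real.log M / δ) := mul_le_mul_of_nonneg_left hLle hκ.le
        have h4 : κ * (Real.log M / δ) = κ / δ * Real.log M := by ring
        linarith
      have h5 : (0 : ℝ) ≤ T + κ / δ * Real.log M := by positivity
      calc (k : ℝ) ^ 3 * (T * g0 : ℕ) * Real.log b
          ≤ (k : ℝ) ^ 3 * (T + κ / δ * Real.log M) * Real.log M := by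
            refine mul_le_mul ?_ hlbM hlb (by positivity)
            exact mul_le_mul_of_nonneg_left h3 (by positivity)
        _ = _ := by ring
    calc Real.sqrt ((k : ℝ) ^ 3 * (T * g0 : ℕ) * Real.log b)
        ≤ Real.sqrt ((k : ℝ) ^ 3 * T * Real.log M + (k : ℝ) ^ 3 * (κ / δ) * (Real.log M) ^ 2) :=
          Real.sqrt_le_sqrt h2
      _ ≤ Real.sqrt ((k : ℝ) ^ 3 * T * Real.log M) +
          Real.sqrt ((k : ℝ) ^ 3 * (κ / δ) * (Real.log M) ^ 2) :=
          sqrt_add_le' _ _ (by positivity) (by positivity)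
      _ = _ := by
          congr 1
          rw [Real.sqrt_mul (by positivity), Real.sqrt_sq hlM]
  have h2 : 110 * Real.sqrt ((k : ℝ) ^ 3 * T * Real.log M) ≤
      110 ^ 2 * k ^ 3 * T / (2 * ε) + ε / 2 * Real.log M := by
    have h3 : Real.sqrt ((k : ℝ) ^ 3 * T * Real.log M) =
        Real.sqrt ((k : ℝ) ^ 3 * T) * Real.sqrt (Real.log M) := Real.sqrt_mul (by positivity) _
    rw [h3]
    set a := Real.sqrt ((k : ℝ) ^ 3 * T) with ha
    set y := Real.sqrt (Real.log M) with hy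
    have ha2 : a ^ 2 = (k : ℝ) ^ 3 * T := Real.sq_sqrt (by positivity)
    have hy2 : y ^ 2 = Real.log M := Real.sq_sqrt hlM
    rw [← hy2]
    have h4 : (110 : ℝ) ^ 2 * k ^ 3 * T / (2 * ε) = 110 ^ 2 * a ^ 2 / (2 * ε) := by
      rw [ha2]; ring
    rw [h4]
    have h5 : 110 ^ 2 * a ^ 2 / (2 * ε) + ε / 2 * y ^ 2 - 110 * (a * y) =
        (110 * a - ε * y) ^ 2 / (2 * ε) := by
      field_simp; ring
    have h6 : 0 ≤ (110 * a - ε * y) ^ 2 / (2 * ε) := by positivity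
    linarith
  have h3 : 110 * (Real.sqrt ((k : ℝ) ^ 3 * (κ / δ)) * Real.log M) ≤ ε / 2 * Real.log M := by
    rw [← mul_assoc]
    exact mul_le_mul_of_nonneg_right hκ1 hlM
  have h4 : -(110 ^ 2 * k ^ 3 * T / (2 * ε)) - ε * Real.log M ≤
      -(110 * Real.sqrt ((k : ℝ) ^ 3 * (T * g0 : ℕ) * Real.log b)) := by
    have := mul_le_mul_of_nonneg_left h1 (by norm_num : (0:ℝ) ≤ 110)
    linarith
  have h5 : ((2 * (k : ℝ) ^ 2) ^ k)⁻¹ * (M : ℝ) ^ k ≤ (b : ℝ) ^ k := by
    rw [inv_mul_le_iff₀ (by positivity), ← mul_pow]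
    exact pow_le_pow_left₀ hM0.le hMb k
  have h6 : (M : ℝ) ^ ((k : ℝ) - ε) = (M : ℝ) ^ k * Real.exp (-(ε * Real.log M)) := by
    rw [Real.rpow_sub hM0, Real.rpow_natCast, Real.rpow_def_of_pos hM0, div_eq_mul_inv,
      ← Real.exp_neg]
    congr 2; ring
  rw [h6]
  calc ((2 * (k : ℝ) ^ 2) ^ k)⁻¹ * Real.exp (-(110 ^ 2 * k ^ 3 * T / (2 * ε))) *
        ((M : ℝ) ^ k * Real.exp (-(ε * Real.log M)))
      = (((2 * (k : ℝ) ^ 2) ^ k)⁻¹ * (M : ℝ) ^ k) *
        Real.exp (-(110 ^ 2 * k ^ 3 * T / (2 * ε)) - ε * Real.log M) := by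
        rw [sub_eq_add_neg, Real.exp_add]; ring
    _ ≤ (b : ℝ) ^ k * Real.exp (-(110 * Real.sqrt ((k : ℝ) ^ 3 * (T * g0 : ℕ) *
        Real.log b))) := by
        refine mul_le_mul h5 (Real.exp_le_exp.mpr h4) (Real.exp_pos _).le (by positivity)
    _ ≤ X := hX

open Classical in
theorem final3 (k h : ℕ) (hk : 1 ≤ k) (ε δ : ℝ) (hε : 0 < ε) (hδ : 0 < δ) :
    ∃ C c : ℝ, 0 < C ∧ 0 < c ∧ ∀ (m : ℕ) (E : Finset (Fin m → Fin (h + 1))), E.Nonempty →
      ∀ Q : Finset ℕ, (∀ p ∈ Q, p.Prime) → C * m ≤ Q.card →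
      ((univ.filter fun x : Fin m ↪ Q => ¬ ∀ F ⊆ E, F.Nonempty →
        (E.card : ℝ) ^ δ ≤ F.card →
          c * (F.card : ℝ) ^ ((k : ℝ) - ε) ≤
            max ((SS k (F.image fun f => V (asg x) f)).card : ℝ)
              ((PP k (F.image fun f => V (asg x) f)).card : ℝ)).card : ℝ) ≤
        (Fintype.card (Fin m ↪ Q) : ℝ) / E.card := by
  have hk0 : (0 : ℝ) < k := by exact_mod_cast hk
  have hT : 1 ≤ TT k h := Fintype.card_pos
  have hT0 : (0 : ℝ) < TT k h := by exact_mod_cast hT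
  obtain ⟨κ, hκdef⟩ : ∃ κ : ℝ, κ = δ * (ε / 220) ^ 2 / k ^ 3 := ⟨_, rfl⟩
  have hκ : 0 < κ := by rw [hκdef]; positivity
  have hκ1 : 110 * Real.sqrt ((k : ℝ) ^ 3 * (κ / δ)) ≤ ε / 2 := by
    have : (k : ℝ) ^ 3 * (κ / δ) = (ε / 220) ^ 2 := by rw [hκdef]; field_simp
    rw [this, Real.sqrt_sq (by positivity)]
    linarith
  have hlog2 : 0 < Real.log 2 := Real.log_pos (by norm_num)
  obtain ⟨K, hKdef⟩ : ∃ K : ℝ, K = 2 * k + 1 + Real.log (4 ^ k * (h + 1)) / Real.log 2 := ⟨_, rfl⟩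
  have hl4 : 0 ≤ Real.log ((4 : ℝ) ^ k * (h + 1)) := by
    apply Real.log_nonneg
    have h1 : (1 : ℝ) ≤ 4 ^ k := one_le_pow₀ (by norm_num)
    have h2 : (1 : ℝ) ≤ h + 1 := by
      have : (0 : ℝ) ≤ h := Nat.cast_nonneg h
      linarith
    nlinarith
  have hK0 : 0 < K := by rw [hKdef]; positivity
  obtain ⟨C, hCdef⟩ : ∃ C : ℝ, C = Real.exp (TT k h / κ * K) := ⟨_, rfl⟩
  have hC0 : 0 < C := by rw [hCdef]; exact Real.exp_pos _
  have hC1 : 1 ≤ C := by rw [hCdef]; exact Real.one_le_exp (by positivity)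
  obtain ⟨c2, hc2⟩ : ∃ c2 : ℝ, c2 = ((2 * (k : ℝ) ^ 2) ^ k)⁻¹ *
    Real.exp (-(110 ^ 2 * k ^ 3 * TT k h / (2 * ε))) := ⟨_, rfl⟩
  have hc20 : 0 < c2 := by rw [hc2]; positivity
  have hc2le : c2 ≤ ((2 * (k : ℝ) ^ 2) ^ k)⁻¹ := by
    rw [hc2]
    calc ((2 * (k : ℝ) ^ 2) ^ k)⁻¹ * Real.exp (-(110 ^ 2 * k ^ 3 * TT k h / (2 * ε)))
        ≤ ((2 * (k : ℝ) ^ 2) ^ k)⁻¹ * 1 := by
          refine mul_le_mul_of_nonneg_left ?_ (by positivity)
          apply Real.exp_le_one_iff.mpr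
          have : 0 ≤ (110 : ℝ) ^ 2 * k ^ 3 * TT k h / (2 * ε) := by positivity
          linarith
      _ = _ := mul_one _
  refine ⟨C, min c2 (2 * (k : ℝ) ^ k)⁻¹, hC0, lt_min hc20 (by positivity), ?_⟩
  intro m E hE Q hQ hCm
  have hE0 : (0 : ℝ) < E.card := by exact_mod_cast hE.card_pos
  by_cases hE1 : E.card = 1
  · rw [hE1]
    simp only [Nat.cast_one, div_one]
    rw [← card_univ]
    exact_mod_cast card_filter_le _ _
  have hE2 : 2 ≤ E.card := by
    have := hE.card_pos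
    omega
  have hmN : m ≤ Q.card := by
    have h1 : (1 : ℝ) * m ≤ C * m := mul_le_mul_of_nonneg_right hC1 (Nat.cast_nonneg m)
    have : (m : ℝ) ≤ Q.card := by linarith
    exact_mod_cast this
  set L := Real.log E.card with hL
  have hL2 : Real.log 2 ≤ L := Real.log_le_log (by norm_num) (by exact_mod_cast hE2)
  have hL0 : 0 < L := lt_of_lt_of_le hlog2 hL2
  set g0 : ℕ := ⌊κ * L / TT k h⌋₊ + 1 with hg0
  have hg1 : 1 ≤ g0 := by omega
  have hg2 : κ * L / TT k h ≤ g0 := by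
    rw [hg0]; push_cast
    exact (Nat.lt_floor_add_one _).le
  have hg3 : (TT k h : ℝ) * g0 ≤ TT k h + κ * L := by
    have h1 : (⌊κ * L / TT k h⌋₊ : ℝ) ≤ κ * L / TT k h := Nat.floor_le (by positivity)
    rw [hg0]; push_cast
    have h2 : (TT k h : ℝ) * ⌊κ * L / TT k h⌋₊ ≤ TT k h * (κ * L / TT k h) :=
      mul_le_mul_of_nonneg_left h1 hT0.le
    have h3 : (TT k h : ℝ) * (κ * L / TT k h) = κ * L := by field_simp
    nlinarith
  -- probability
  have hprob := bad_count (k := k) hQ hmN g0 hg1 E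
  have hratio : ((m : ℝ) / Q.card) ^ g0 ≤ Real.exp (-(K * L)) := by
    have h1 : (m : ℝ) / Q.card ≤ C⁻¹ := by
      by_cases hQ0 : Q.card = 0
      · rw [hQ0]; simp only [Nat.cast_zero, div_zero]; positivity
      · have hQpos : (0 : ℝ) < Q.card := by exact_mod_cast Nat.pos_of_ne_zero hQ0
        rw [div_le_iff₀ hQpos, ← div_eq_inv_mul, le_div_iff₀ hC0]
        linarith
    calc ((m : ℝ) / Q.card) ^ g0 ≤ (C⁻¹) ^ g0 := pow_le_pow_left₀ (by positivity) h1 g0
      _ = Real.exp (-(TT k h / κ * K * g0)) := by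
          rw [hCdef, ← Real.exp_neg, ← Real.exp_nat_mul]
          congr 1; ring
      _ ≤ Real.exp (-(K * L)) := by
          apply Real.exp_le_exp.mpr
          have h2 : TT k h / κ * K * (κ * L / TT k h) ≤ TT k h / κ * K * g0 :=
            mul_le_mul_of_nonneg_left hg2 (by positivity)
          have h3 : TT k h / κ * K * (κ * L / TT k h) = K * L := by field_simp
          linarith
  have hfin : (4 : ℝ) ^ k * (E.card : ℝ) ^ (2 * k) * (h * ((m : ℝ) / Q.card) ^ g0) ≤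
      1 / E.card := by
    have h1 : (4 : ℝ) ^ k * (h + 1) ≤ Real.exp (Real.log (4 ^ k * (h + 1)) / Real.log 2 * L) := by
      have h2 : Real.log (4 ^ k * (h + 1)) ≤ Real.log (4 ^ k * (h + 1)) / Real.log 2 * L := by
        rw [div_mul_eq_mul_div, le_div_iff₀ hlog2]
        exact mul_le_mul_of_nonneg_left hL2 hl4
      calc (4 : ℝ) ^ k * (h + 1) = Real.exp (Real.log (4 ^ k * (h + 1))) := by
            rw [Real.exp_log (by positivity)]
        _ ≤ _ := Real.exp_le_exp.mpr h2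
    have h3 : (E.card : ℝ) ^ (2 * k) = Real.exp (2 * k * L) := by
      rw [hL]
      rw [show (2 * (k : ℝ) * Real.log E.card) = ((2 * k : ℕ) : ℝ) * Real.log E.card by
        push_cast; ring, Real.exp_nat_mul, Real.exp_log hE0]
    have h4 : (1 : ℝ) / E.card = Real.exp (-L) := by
      rw [Real.exp_neg, hL, Real.exp_log hE0, one_div]
    rw [h4, h3]
    calc (4 : ℝ) ^ k * Real.exp (2 * k * L) * (h * ((m : ℝ) / Q.card) ^ g0)
        ≤ (4 : ℝ) ^ k * Real.exp (2 * k * L) * ((h + 1) * Real.exp (-(K * L))) := by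
          refine mul_le_mul_of_nonneg_left ?_ (by positivity)
          refine mul_le_mul ?_ hratio (by positivity) (by positivity)
          linarith
      _ = (4 ^ k * (h + 1)) * (Real.exp (2 * k * L) * Real.exp (-(K * L))) := by ring
      _ ≤ Real.exp (Real.log (4 ^ k * (h + 1)) / Real.log 2 * L) *
          (Real.exp (2 * k * L) * Real.exp (-(K * L))) :=
          mul_le_mul_of_nonneg_right h1 (by positivity)
      _ = Real.exp (-L) := by
          rw [← Real.exp_add, ← Real.exp_add, hKdef]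
          congr 1; ring
  have hgood : ∀ x : Fin m ↪ Q, GoodX k g0 E x → ∀ F ⊆ E, F.Nonempty →
      (E.card : ℝ) ^ δ ≤ F.card →
          min c2 (2 * (k : ℝ) ^ k)⁻¹ * (F.card : ℝ) ^ ((k : ℝ) - ε) ≤
            max ((SS k (F.image fun f => V (asg x) f)).card : ℝ)
              ((PP k (F.image fun f => V (asg x) f)).card : ℝ) := by
    intro x hx F hF hFne hFE
    have hM0 : (0 : ℝ) < F.card := by exact_mod_cast hFne.card_pos
    have hM1 : (1 : ℝ) ≤ F.card := by exact_mod_cast hFne.card_pos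
    have hpow : (F.card : ℝ) ^ ((k : ℝ) - ε) ≤ (F.card : ℝ) ^ k := by
      rw [← Real.rpow_natCast]
      exact Real.rpow_le_rpow_of_exponent_le hM1 (by linarith)
    have hpow0 : 0 < (F.card : ℝ) ^ ((k : ℝ) - ε) := Real.rpow_pos_of_pos hM0 _
    rcases dichotomy hQ hg1 hk hx F hF with h1 | h1 | ⟨b, hb2, hbM, hMb, hX⟩
    · refine le_trans ?_ (le_max_left _ _)
      calc min c2 (2 * (k : ℝ) ^ k)⁻¹ * (F.card : ℝ) ^ ((k : ℝ) - ε)
          ≤ (2 * (k : ℝ) ^ k)⁻¹ * (F.card : ℝ) ^ k :=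
            mul_le_mul (min_le_right _ _) hpow hpow0.le (by positivity)
        _ ≤ _ := by
            rw [inv_mul_le_iff₀ (by positivity)]
            exact h1
    · refine le_trans ?_ (le_max_left _ _)
      have hS : (1 : ℝ) ≤ ((SS k (F.image fun f => V (asg x) f)).card : ℝ) := by
        have : 0 < (SS k (F.image fun f => V (asg x) f)).card := by
          apply card_pos.mpr
          unfold SS
          apply Finset.Nonempty.image
          rw [Fintype.piFinset_nonempty]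
          intro _
          exact hFne.image _
        exact_mod_cast this
      refine le_trans ?_ hS
      calc min c2 (2 * (k : ℝ) ^ k)⁻¹ * (F.card : ℝ) ^ ((k : ℝ) - ε)
          ≤ ((2 * (k : ℝ) ^ 2) ^ k)⁻¹ * (F.card : ℝ) ^ k :=
            mul_le_mul ((min_le_left _ _).trans hc2le) hpow hpow0.le (by positivity)
        _ ≤ 1 := by
            rw [inv_mul_le_iff₀ (by positivity), mul_one]
            exact pow_le_pow_left₀ hM0.le h1.le k
    · have hLF : δ * L ≤ Real.log F.card := by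
        have := Real.log_le_log (Real.rpow_pos_of_pos hE0 δ) hFE
        rw [Real.log_rpow hE0] at this
        exact this
      have h2 := real_ineq3 k (TT k h) g0 b F.card _ L κ ε δ hT hε hδ hκ hκ1 hg3 hLF hb2 hbM hMb
        hk hX
      rw [← hc2] at h2
      exact le_trans (mul_le_mul_of_nonneg_right (min_le_left _ _) hpow0.le) h2
  calc ((univ.filter fun x : Fin m ↪ Q => ¬ ∀ F ⊆ E, F.Nonempty →
        (E.card : ℝ) ^ δ ≤ F.card →
          min c2 (2 * (k : ℝ) ^ k)⁻¹ * (F.card : ℝ) ^ ((k : ℝ) - ε) ≤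
            max ((SS k (F.image fun f => V (asg x) f)).card : ℝ)
              ((PP k (F.image fun f => V (asg x) f)).card : ℝ)).card : ℝ)
      ≤ ((univ.filter fun x : Fin m ↪ Q => ¬ GoodX k g0 E x).card : ℝ) := by
        have : (univ.filter fun x : Fin m ↪ Q => ¬ ∀ F ⊆ E, F.Nonempty →
            (E.card : ℝ) ^ δ ≤ F.card →
              min c2 (2 * (k : ℝ) ^ k)⁻¹ * (F.card : ℝ) ^ ((k : ℝ) - ε) ≤
                max ((SS k (F.image fun f => V (asg x) f)).card : ℝ)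
                  ((PP k (F.image fun f => V (asg x) f)).card : ℝ)) ⊆
            univ.filter fun x : Fin m ↪ Q => ¬ GoodX k g0 E x := by
          intro x hx
          rw [mem_filter] at hx ⊢
          exact ⟨mem_univ _, fun hg => hx.2 (hgood x hg)⟩
        exact_mod_cast card_le_card this
    _ ≤ (4 : ℝ) ^ k * (E.card : ℝ) ^ (2 * k) * (h * ((m : ℝ) / Q.card) ^ g0) *
        Fintype.card (Fin m ↪ Q) := hprob
    _ ≤ 1 / E.card * Fintype.card (Fin m ↪ Q) :=
        mul_le_mul_of_nonneg_right hfin (Nat.cast_nonneg _)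
    _ = _ := by ring

end Pool.Agent.TH715.SP
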