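import Pool.Agent.TH715.SP.Close

/-!
The explicit two-fold theorem.
-/

set_option autoImplicit false
set_option linter.unusedSectionVars false
open Finset

namespace Pool.Agent.TH715.SP

open scoped Pointwise

lemma SS_two (A : Finset ℤ) : SS 2 A = A + A := by
  unfold SS
  ext x
  simp only [Finset.mem_image, Fintype.mem_piFinset, Finset.mem_add, Fin.sum_univ_two]
  constructor
  · rintro ⟨f, hf, rfl⟩
    exact ⟨f 0, hf 0, f 1, hf 1, rfl⟩
  · rintro ⟨a, ha, b, hb, rfl⟩
    exact ⟨![a, b], by intro i; fin_cases i <;> simp [ha, hb], by simp⟩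

lemma PP_two (A : Finset ℤ) : PP 2 A = A * A := by
  unfold PP
  ext x
  simp only [Finset.mem_image, Fintype.mem_piFinset, Finset.mem_mul, Fin.prod_univ_two]
  constructor
  · rintro ⟨f, hf, rfl⟩
    exact ⟨f 0, hf 0, f 1, hf 1, rfl⟩
  · rintro ⟨a, ha, b, hb, rfl⟩
    exact ⟨![a, b], by intro i; fin_cases i <;> simp [ha, hb], by simp⟩

lemma TT_two (h : ℕ) : TT 2 h = (h + 1) ^ 4 := by
  unfold TT
  simp

open Classical in
theorem final4 (m h g : ℕ) (hg : 1 ≤ g) (E : Finset (Fin m → Fin (h + 1))) (hE : E.Nonempty)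
    (Q : Finset ℕ) (hQ : ∀ p ∈ Q, p.Prime) (hC : 16 * h * E.card ^ 5 * m ^ g ≤ Q.card ^ g) :
    ((univ.filter fun x : Fin m ↪ Q => ¬ ∀ F ⊆ E, F.Nonempty →
      (1 / 64 : ℝ) * (F.card : ℝ) ^ 2 *
        Real.exp (-(312 * ((h : ℝ) + 1) ^ 2 * Real.sqrt (g * Real.log F.card))) ≤
        max (((F.image fun f => V (asg x) f) + (F.image fun f => V (asg x) f)).card : ℝ)
          (((F.image fun f => V (asg x) f) * (F.image fun f => V (asg x) f)).card : ℝ)).card : ℝ) ≤
      (Fintype.card (Fin m ↪ Q) : ℝ) / E.card := by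
  have hE0 : (0 : ℝ) < E.card := by exact_mod_cast hE.card_pos
  by_cases hmN : m ≤ Q.card
  swap
  · have h0 : Fintype.card (Fin m ↪ Q) = 0 := by
      rw [Fintype.card_embedding_eq, Fintype.card_coe, Fintype.card_fin]
      exact Nat.descFactorial_eq_zero_iff_lt.mpr (by omega)
    have h1 : (univ.filter fun x : Fin m ↪ Q => ¬ ∀ F ⊆ E, F.Nonempty →
      (1 / 64 : ℝ) * (F.card : ℝ) ^ 2 *
        Real.exp (-(312 * ((h : ℝ) + 1) ^ 2 * Real.sqrt (g * Real.log F.card))) ≤
        max (((F.image fun f => V (asg x) f) + (F.image fun f => V (asg x) f)).card : ℝ)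
          (((F.image fun f => V (asg x) f) * (F.image fun f => V (asg x) f)).card : ℝ)).card ≤ 0 := by
      rw [← h0, ← card_univ]
      exact card_filter_le _ _
    rw [Nat.le_zero.mp h1, h0]
    simp
  have hprob := bad_count (k := 2) hQ hmN g hg E
  have hfin : (4 : ℝ) ^ 2 * (E.card : ℝ) ^ (2 * 2) * (h * ((m : ℝ) / Q.card) ^ g) ≤
      1 / E.card := by
    rw [le_div_iff₀ hE0]
    by_cases hQ0 : Q.card = 0
    · rw [hQ0]
      simp only [Nat.cast_zero, div_zero]
      rw [zero_pow (by omega)]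
      simp
    · have hQpos : (0 : ℝ) < (Q.card : ℝ) ^ g := by
        have : (0 : ℝ) < Q.card := by exact_mod_cast Nat.pos_of_ne_zero hQ0
        positivity
      rw [div_pow]
      have h1 : (4 : ℝ) ^ 2 * (E.card : ℝ) ^ (2 * 2) * (h * ((m : ℝ) ^ g / (Q.card : ℝ) ^ g)) *
          E.card = (16 * h * (E.card : ℝ) ^ 5 * m ^ g) / (Q.card : ℝ) ^ g := by
        ring
      rw [h1, div_le_one hQpos]
      exact_mod_cast hC
  have hgood : ∀ x : Fin m ↪ Q, GoodX 2 g E x → ∀ F ⊆ E, F.Nonempty →
      (1 / 64 : ℝ) * (F.card : ℝ) ^ 2 *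
        Real.exp (-(312 * ((h : ℝ) + 1) ^ 2 * Real.sqrt (g * Real.log F.card))) ≤
        max (((F.image fun f => V (asg x) f) + (F.image fun f => V (asg x) f)).card : ℝ)
          (((F.image fun f => V (asg x) f) * (F.image fun f => V (asg x) f)).card : ℝ) := by
    intro x hx F hF hFne
    have hM0 : (0 : ℝ) < F.card := by exact_mod_cast hFne.card_pos
    have hlM : 0 ≤ Real.log F.card := Real.log_natCast_nonneg _
    have hexp1 : Real.exp (-(312 * ((h : ℝ) + 1) ^ 2 * Real.sqrt (g * Real.log F.card))) ≤ 1 := by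
      apply Real.exp_le_one_iff.mpr
      have : 0 ≤ 312 * ((h : ℝ) + 1) ^ 2 * Real.sqrt (g * Real.log F.card) := by positivity
      linarith
    rw [← SS_two, ← PP_two]
    rcases dichotomy hQ hg (by norm_num : 1 ≤ 2) hx F hF with h1 | h1 | ⟨b, hb2, hbM, hMb, hX⟩
    · refine le_trans ?_ (le_max_left _ _)
      push_cast at h1
      calc (1 / 64 : ℝ) * (F.card : ℝ) ^ 2 *
            Real.exp (-(312 * ((h : ℝ) + 1) ^ 2 * Real.sqrt (g * Real.log F.card)))
          ≤ (1 / 64 : ℝ) * (F.card : ℝ) ^ 2 * 1 :=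
            mul_le_mul_of_nonneg_left hexp1 (by positivity)
        _ ≤ _ := by
            have : (0 : ℝ) ≤ ((SS 2 (F.image fun f => V (asg x) f)).card : ℝ) := Nat.cast_nonneg _
            linarith
    · refine le_trans ?_ (le_max_left _ _)
      have hS : (1 : ℝ) ≤ ((SS 2 (F.image fun f => V (asg x) f)).card : ℝ) := by
        have : 0 < (SS 2 (F.image fun f => V (asg x) f)).card := by
          apply card_pos.mpr
          unfold SS
          apply Finset.Nonempty.image
          rw [Fintype.piFinset_nonempty]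
          intro _
          exact hFne.image _
        exact_mod_cast this
      refine le_trans ?_ hS
      push_cast at h1
      have h2 : (F.card : ℝ) ^ 2 ≤ 64 := by nlinarith
      calc (1 / 64 : ℝ) * (F.card : ℝ) ^ 2 *
            Real.exp (-(312 * ((h : ℝ) + 1) ^ 2 * Real.sqrt (g * Real.log F.card)))
          ≤ (1 / 64 : ℝ) * (F.card : ℝ) ^ 2 * 1 :=
            mul_le_mul_of_nonneg_left hexp1 (by positivity)
        _ ≤ 1 := by linarith
    · refine le_trans ?_ hX
      have hb0 : (0 : ℝ) < b := by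
        have : 0 < b := by omega
        exact_mod_cast this
      have hlb : 0 ≤ Real.log b := Real.log_natCast_nonneg _
      have hlbM : Real.log b ≤ Real.log F.card := Real.log_le_log hb0 (by exact_mod_cast hbM)
      refine mul_le_mul ?_ ?_ (Real.exp_pos _).le (by positivity)
      · push_cast at hMb
        have : (F.card : ℝ) ≤ 8 * b := by linarith
        have h3 : (F.card : ℝ) ^ 2 ≤ (8 * b) ^ 2 := pow_le_pow_left₀ hM0.le this 2
        linarith [show (8 * (b : ℝ)) ^ 2 = 64 * (b : ℝ) ^ 2 by ring]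
      · apply Real.exp_le_exp.mpr
        rw [neg_le_neg_iff, TT_two]
        have h3 : Real.sqrt (((2 : ℕ) : ℝ) ^ 3 * (((h + 1) ^ 4 * g : ℕ) : ℝ) * Real.log b) ≤
            2.83 * (((h : ℝ) + 1) ^ 2 * Real.sqrt (g * Real.log F.card)) := by
          rw [Real.sqrt_le_left (by positivity), mul_pow, mul_pow, Real.sq_sqrt (by positivity)]
          push_cast
          have h4 : (g : ℝ) * Real.log b ≤ g * Real.log F.card :=
            mul_le_mul_of_nonneg_left hlbM (Nat.cast_nonneg _)
          have h5 : (0 : ℝ) ≤ g * Real.log b := by positivity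
          calc (2 : ℝ) ^ 3 * (((h : ℝ) + 1) ^ 4 * g) * Real.log b
              = 8 * ((((h : ℝ) + 1) ^ 2) ^ 2 * (g * Real.log b)) := by ring
            _ ≤ 2.83 ^ 2 * ((((h : ℝ) + 1) ^ 2) ^ 2 * (g * Real.log F.card)) := by
                refine mul_le_mul (by norm_num) ?_ (by positivity) (by norm_num)
                exact mul_le_mul_of_nonneg_left h4 (by positivity)
        have h4 : 0 ≤ ((h : ℝ) + 1) ^ 2 * Real.sqrt (g * Real.log F.card) := by positivity
        calc 110 * Real.sqrt (((2 : ℕ) : ℝ) ^ 3 * (((h + 1) ^ 4 * g : ℕ) : ℝ) * Real.log b)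
            ≤ 110 * (2.83 * (((h : ℝ) + 1) ^ 2 * Real.sqrt (g * Real.log F.card))) :=
              mul_le_mul_of_nonneg_left h3 (by norm_num)
          _ ≤ 312 * ((h : ℝ) + 1) ^ 2 * Real.sqrt (g * Real.log F.card) := by nlinarith
  calc ((univ.filter fun x : Fin m ↪ Q => ¬ ∀ F ⊆ E, F.Nonempty →
      (1 / 64 : ℝ) * (F.card : ℝ) ^ 2 *
        Real.exp (-(312 * ((h : ℝ) + 1) ^ 2 * Real.sqrt (g * Real.log F.card))) ≤
        max (((F.image fun f => V (asg x) f) + (F.image fun f => V (asg x) f)).card : ℝ)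
          (((F.image fun f => V (asg x) f) * (F.image fun f => V (asg x) f)).card : ℝ)).card : ℝ)
      ≤ ((univ.filter fun x : Fin m ↪ Q => ¬ GoodX 2 g E x).card : ℝ) := by
        have : (univ.filter fun x : Fin m ↪ Q => ¬ ∀ F ⊆ E, F.Nonempty →
            (1 / 64 : ℝ) * (F.card : ℝ) ^ 2 *
              Real.exp (-(312 * ((h : ℝ) + 1) ^ 2 * Real.sqrt (g * Real.log F.card))) ≤
              max (((F.image fun f => V (asg x) f) + (F.image fun f => V (asg x) f)).card : ℝ)
                (((F.image fun f => V (asg x) f) * (F.image fun f => V (asg x) f)).card : ℝ)) ⊆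
            univ.filter fun x : Fin m ↪ Q => ¬ GoodX 2 g E x := by
          intro x hx
          rw [mem_filter] at hx ⊢
          exact ⟨mem_univ _, fun hg' => hx.2 (hgood x hg')⟩
        exact_mod_cast card_le_card this
    _ ≤ (4 : ℝ) ^ 2 * (E.card : ℝ) ^ (2 * 2) * (h * ((m : ℝ) / Q.card) ^ g) *
        Fintype.card (Fin m ↪ Q) := hprob
    _ ≤ 1 / E.card * Fintype.card (Fin m ↪ Q) :=
        mul_le_mul_of_nonneg_right hfin (Nat.cast_nonneg _)
    _ = _ := by ring

end Pool.Agent.TH715.SP
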