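import Pool.Agent.TH715.SP.Quad

/-!
Random assignments of primes: probability of a nondegenerate relation.
-/

set_option autoImplicit false
set_option linter.unusedSectionVars false
open Finset

namespace Pool.Agent.TH715.SP

variable {S : Type} [Fintype S] [DecidableEq S] {h m : ℕ}

/-- nondegenerate relation between the terms `V x (c s)`, `s ∈ U` -/
def NRel {ι : Type} [Fintype ι] (x : ι → ℕ) (σ : S → ℤ) (U : Finset S)
    (c : S → ι → Fin (h + 1)) : Prop :=
  ∑ s ∈ U, σ s * V x (c s) = 0 ∧
    ∀ W ⊆ U, W.Nonempty → W ≠ U → ∑ s ∈ W, σ s * V x (c s) ≠ 0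

/-- an assignment as a function -/
def asg {Q : Finset ℕ} (x : Fin m ↪ Q) : Fin m → ℕ := fun i => (x i : ℕ)

lemma asg_inj {Q : Finset ℕ} (x : Fin m ↪ Q) : Function.Injective (asg x) :=
  fun _ _ hij => x.injective (Subtype.ext hij)

open Classical in
lemma class_count {Q : Finset ℕ} (hQ : ∀ p ∈ Q, p.Prime) (σ : S → ℤ) (U : Finset S)
    (c : S → Fin m → Fin (h + 1)) (G : Finset (Fin m)) (τ : S → Fin (h + 1))
    (hG : ∀ i ∈ G, ∀ s ∈ U, c s i = τ s) (s1 s2 : S) (hs1 : s1 ∈ U) (hs2 : s2 ∈ U)
    (hτ : τ s1 ≠ τ s2) :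
    (univ.filter fun x : Fin m ↪ Q => NRel (asg x) σ U c).card ≤
      (h * G.card.factorial) * (Q.card.descFactorial (m - G.card)) := by
  classical
  set X := univ.filter fun x : Fin m ↪ Q => NRel (asg x) σ U c with hX
  let restr : (Fin m ↪ Q) → ({i // i ∉ G} ↪ Q) := fun x => (Function.Embedding.subtype _).trans x
  have himg : (X.image restr).card ≤ Q.card.descFactorial (m - G.card) := by
    calc (X.image restr).card ≤ (univ : Finset ({i // i ∉ G} ↪ Q)).card := card_le_univ _
      _ = Q.card.descFactorial (m - G.card) := by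
          rw [card_univ, Fintype.card_embedding_eq, Fintype.card_coe]
          congr 1
          rw [Fintype.card_subtype_compl, Fintype.card_fin, Fintype.card_coe]
  refine le_trans (Finset.card_le_mul_card_image X (h * G.card.factorial) (f := restr) ?_)
    (Nat.mul_le_mul_left _ himg)
  intro y _
  -- the polynomial
  let α : S → ℤ := fun s => ∏ i : {i // i ∉ G}, ((y i : ℕ) : ℤ) ^ (c s i : ℕ)
  let F : Polynomial ℤ := ∑ s ∈ U, Polynomial.C (σ s * α s) * Polynomial.X ^ (τ s : ℕ)
  let Y : (Fin m ↪ Q) → ℤ := fun x => ∏ i ∈ G, ((x i : ℕ) : ℤ)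
  have hV : ∀ x : Fin m ↪ Q, restr x = y → ∀ s ∈ U, V (asg x) (c s) = α s * Y x ^ (τ s : ℕ) := by
    intro x hx s hs
    unfold V asg
    rw [← Finset.prod_mul_prod_compl G, mul_comm]
    congr 1
    · have h1 : ∀ i : {i // i ∉ G}, (y i : ℕ) = (x i : ℕ) := by
        intro i; rw [← hx]; rfl
      simp only [α]
      simp_rw [h1]
      rw [← Finset.prod_subtype (Gᶜ) (p := fun i => i ∉ G) (fun i => mem_compl)
        (fun i => ((x i : ℕ) : ℤ) ^ (c s i : ℕ))]
    · simp only [Y]
      rw [← Finset.prod_pow]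
      refine Finset.prod_congr rfl fun i hi => ?_
      rw [hG i hi s hs]
  have hsum : ∀ x : Fin m ↪ Q, restr x = y → ∀ W ⊆ U, ∑ s ∈ W, σ s * V (asg x) (c s) =
      ∑ s ∈ W, σ s * α s * Y x ^ (τ s : ℕ) := by
    intro x hx W hW
    refine Finset.sum_congr rfl fun s hs => ?_
    rw [hV x hx s (hW hs)]; ring
  set E := X.filter fun x => restr x = y with hE
  by_cases hne : E.Nonempty
  swap
  · rw [Finset.not_nonempty_iff_eq_empty.mp hne]; simp
  have hdeg : F.natDegree ≤ h := by
    refine Polynomial.natDegree_sum_le_of_forall_le _ _ fun s _ => ?_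
    exact (Polynomial.natDegree_C_mul_X_pow_le _ _).trans (Nat.le_of_lt_succ (τ s).2)
  have hF0 : F ≠ 0 := by
    obtain ⟨x, hx⟩ := hne
    have hx' := mem_filter.mp hx
    have hrel := (mem_filter.mp hx'.1).2
    have h1 := hrel.2 (U.filter fun s => τ s = τ s1) (filter_subset _ _)
      ⟨s1, mem_filter.mpr ⟨hs1, rfl⟩⟩ (by
        intro hc
        have := hs2
        rw [← hc, mem_filter] at this
        exact hτ this.2.symm)
    rw [hsum x hx'.2 _ (filter_subset _ _)] at h1
    intro hF
    apply h1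
    have h2 : F.coeff (τ s1 : ℕ) = 0 := by rw [hF]; simp
    have h3 : ∑ s ∈ U.filter (fun s => τ s = τ s1), σ s * α s * Y x ^ (τ s : ℕ) =
        (∑ s ∈ U.filter (fun s => τ s = τ s1), σ s * α s) * Y x ^ (τ s1 : ℕ) := by
      rw [Finset.sum_mul]
      refine Finset.sum_congr rfl fun s hs => ?_
      rw [(mem_filter.mp hs).2]
    rw [h3]
    have h4 : ∑ s ∈ U.filter (fun s => τ s = τ s1), σ s * α s = 0 := by
      rw [← h2]
      simp only [F, Polynomial.finsetSum_coeff, Polynomial.coeff_C_mul, Polynomial.coeff_X_pow]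
      rw [Finset.sum_filter]
      refine Finset.sum_congr rfl fun s _ => ?_
      by_cases hs : τ s = τ s1
      · simp [hs]
      · have : (τ s1 : ℕ) ≠ (τ s : ℕ) := fun h' => hs (Fin.ext h'.symm)
        simp [hs, this]
    rw [h4, zero_mul]
  have hroots : (E.image Y).card ≤ h := by
    calc (E.image Y).card ≤ F.roots.toFinset.card := by
          apply card_le_card
          intro z hz
          obtain ⟨x, hx, rfl⟩ := mem_image.mp hz
          have hx' := mem_filter.mp hx
          have hrel := (mem_filter.mp hx'.1).2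
          simp only [Multiset.mem_toFinset, Polynomial.mem_roots hF0, Polynomial.IsRoot]
          have h1 := hrel.1
          rw [hsum x hx'.2 U (Subset.refl _)] at h1
          simp only [F, Polynomial.eval_finsetSum, Polynomial.eval_mul, Polynomial.eval_C,
            Polynomial.eval_pow, Polynomial.eval_X]
          exact h1
      _ ≤ F.roots.card := Multiset.toFinset_card_le _
      _ ≤ F.natDegree := Polynomial.card_roots' F
      _ ≤ h := hdeg
  have hfib : ∀ z ∈ E.image Y, (E.filter fun x => Y x = z).card ≤ G.card.factorial := by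
    intro z hz
    obtain ⟨x0, hx0, hx0z⟩ := mem_image.mp hz
    set I : Finset Q := G.image fun i => x0 i with hI
    have hIcard : I.card = G.card := card_image_of_injective _ x0.injective
    have hmem : ∀ x ∈ E.filter (fun x => Y x = z), ∀ i ∈ G, x i ∈ I := by
      intro x hx i hi
      have hx' := mem_filter.mp hx
      have hp : Prime (((x i : ℕ)) : ℤ) := Nat.prime_iff_prime_int.mp (hQ _ (x i).2)
      have h1 : (((x i : ℕ)) : ℤ) ∣ Y x0 := by
        rw [hx0z, ← hx'.2]
        exact Finset.dvd_prod_of_mem (fun i => ((x i : ℕ) : ℤ)) hi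
      obtain ⟨i', hi', hd⟩ := (hp.dvd_finsetProd_iff (fun i => ((x0 i : ℕ) : ℤ))).mp h1
      have h2 : (x i : ℕ) ∣ (x0 i' : ℕ) := by exact_mod_cast hd
      have h3 : (x i : ℕ) = (x0 i' : ℕ) :=
        (Nat.prime_dvd_prime_iff_eq (hQ _ (x i).2) (hQ _ (x0 i').2)).mp h2
      rw [hI, mem_image]
      exact ⟨i', hi', (Subtype.ext h3).symm⟩
    have hcard : Fintype.card (G ↪ I) = G.card.factorial := by
      rw [Fintype.card_embedding_eq, Fintype.card_coe, Fintype.card_coe, hIcard,
        Nat.descFactorial_self]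
    rw [← hcard, ← card_univ]
    refine Finset.card_le_card_of_injOn (fun x => if hx : ∀ i ∈ G, x i ∈ I then
      (⟨fun i : G => (⟨x i, hx i i.2⟩ : I), fun i j hij => by
        have h1 := congrArg Subtype.val hij
        exact Subtype.ext (x.injective h1)⟩ : G ↪ I) else
      (⟨fun i : G => (⟨x0 i, mem_image_of_mem _ i.2⟩ : I), fun i j hij => by
        have h1 := congrArg Subtype.val hij
        exact Subtype.ext (x0.injective h1)⟩ : G ↪ I)) (fun _ _ => mem_coe.mpr (mem_univ _)) ?_
    intro x hx x' hx' heq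
    have hxm := hmem x (mem_coe.mp hx)
    have hxm' := hmem x' (mem_coe.mp hx')
    simp only [dif_pos hxm, dif_pos hxm'] at heq
    ext i
    by_cases hi : i ∈ G
    · have h1 := congrArg (fun f : G ↪ I => ((f ⟨i, hi⟩ : I) : Q)) heq
      exact congrArg Subtype.val h1
    · have h1 := (mem_filter.mp (mem_filter.mp (mem_coe.mp hx)).1).2
      have h2 := (mem_filter.mp (mem_filter.mp (mem_coe.mp hx')).1).2
      have h3 : restr x = restr x' := by rw [h1, h2]
      have h4 := congrArg (fun f : {i // i ∉ G} ↪ Q => ((f ⟨i, hi⟩ : Q) : ℕ)) h3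
      exact h4
  calc E.card ≤ G.card.factorial * (E.image Y).card :=
        Finset.card_le_mul_card_image E _ hfib
    _ ≤ G.card.factorial * h := Nat.mul_le_mul_left _ hroots
    _ = h * G.card.factorial := mul_comm _ _

lemma desc_ineq (N m g : ℕ) (hmN : m ≤ N) (hgm : g ≤ m) :
    g.factorial * N.descFactorial (m - g) * N ^ g ≤ m ^ g * N.descFactorial m := by
  have h1 : N.descFactorial m = N.descFactorial (m - g) * (N - (m - g)).descFactorial g := by
    have h2 := Nat.descFactorial_mul_descFactorial (n := N) (k := m - g) (m := m) (by omega)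
    have h3 : m - (m - g) = g := by omega
    rw [h3] at h2
    rw [← h2, mul_comm]
  rw [h1]
  have h2 : g.factorial * N ^ g ≤ m ^ g * (N - (m - g)).descFactorial g := by
    rw [← Nat.descFactorial_self g, Nat.descFactorial_eq_prod_range, Nat.descFactorial_eq_prod_range]
    have h3 : N ^ g = ∏ _i ∈ range g, N := by simp
    have h4 : m ^ g = ∏ _i ∈ range g, m := by simp
    rw [h3, h4, ← Finset.prod_mul_distrib, ← Finset.prod_mul_distrib]
    refine Finset.prod_le_prod' fun i hi => ?_
    have hi' := mem_range.mp hi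
    obtain ⟨t, ht⟩ : ∃ t, g = i + t := ⟨g - i, by omega⟩
    obtain ⟨u, hu⟩ : ∃ u, N = m + u := ⟨N - m, by omega⟩
    have e1 : g - i = t := by omega
    have e2 : N - (m - g) - i = u + t := by omega
    rw [e1, e2, hu]
    have : t ≤ m := by omega
    nlinarith [Nat.mul_le_mul_right u this]
  calc g.factorial * N.descFactorial (m - g) * N ^ g
      = N.descFactorial (m - g) * (g.factorial * N ^ g) := by ring
    _ ≤ N.descFactorial (m - g) * (m ^ g * (N - (m - g)).descFactorial g) :=
        Nat.mul_le_mul_left _ h2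
    _ = _ := by ring

open Classical in
/-- a relation with many nonconstant coordinates is unlikely -/
lemma rel_prob {Q : Finset ℕ} (hQ : ∀ p ∈ Q, p.Prime) (hmN : m ≤ Q.card) (σ : S → ℤ)
    (U : Finset S) (c : S → Fin m → Fin (h + 1)) (g0 : ℕ)
    (hbig : Fintype.card (S → Fin (h + 1)) * g0 ≤
      (univ.filter fun i : Fin m => ∃ s1 ∈ U, ∃ s2 ∈ U, c s1 i ≠ c s2 i).card) (hg0 : 1 ≤ g0) :
    ((univ.filter fun x : Fin m ↪ Q => NRel (asg x) σ U c).card : ℝ) ≤
      h * ((m : ℝ) / Q.card) ^ g0 * Fintype.card (Fin m ↪ Q) := by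
  classical
  set nc := univ.filter fun i : Fin m => ∃ s1 ∈ U, ∃ s2 ∈ U, c s1 i ≠ c s2 i with hnc
  -- popular pattern
  obtain ⟨τ, -, hτ⟩ : ∃ τ ∈ (univ : Finset (S → Fin (h + 1))),
      g0 ≤ (nc.filter fun i => (fun s => if s ∈ U then c s i else 0) = τ).card := by
    apply Finset.exists_le_card_fiber_of_mul_le_card_of_maps_to
    · intro i _; exact mem_univ _
    · exact univ_nonempty
    · rw [card_univ]; exact hbig
  set G := nc.filter fun i => (fun s => if s ∈ U then c s i else 0) = τ with hGdef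
  have hGτ : ∀ i ∈ G, ∀ s ∈ U, c s i = τ s := by
    intro i hi s hs
    rw [← (mem_filter.mp hi).2]
    simp [hs]
  obtain ⟨i0, hi0⟩ : G.Nonempty := card_pos.mp (by omega)
  obtain ⟨s1, hs1, s2, hs2, hne⟩ := (mem_filter.mp (mem_filter.mp hi0).1).2
  have hτne : τ s1 ≠ τ s2 := by
    rw [← hGτ i0 hi0 s1 hs1, ← hGτ i0 hi0 s2 hs2]; exact hne
  have h1 := class_count hQ σ U c G τ hGτ s1 s2 hs1 hs2 hτne
  have hGm : G.card ≤ m := by
    calc G.card ≤ (univ : Finset (Fin m)).card := card_le_univ _
      _ = m := by simp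
  have h2 := desc_ineq Q.card m G.card hmN hGm
  have hm0 : 0 < m := lt_of_lt_of_le (by omega : 0 < G.card) hGm
  have hN0 : (0 : ℝ) < Q.card := by exact_mod_cast lt_of_lt_of_le hm0 hmN
  have hcardemb : Fintype.card (Fin m ↪ Q) = Q.card.descFactorial m := by
    rw [Fintype.card_embedding_eq, Fintype.card_coe, Fintype.card_fin]
  rw [hcardemb]
  have h3 : (G.card.factorial * Q.card.descFactorial (m - G.card) : ℝ) ≤
      ((m : ℝ) / Q.card) ^ G.card * Q.card.descFactorial m := by
    rw [div_pow, div_mul_eq_mul_div, le_div_iff₀ (pow_pos hN0 _)]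
    exact_mod_cast h2
  have h4 : ((m : ℝ) / Q.card) ^ G.card ≤ ((m : ℝ) / Q.card) ^ g0 := by
    apply pow_le_pow_of_le_one (by positivity)
    · rw [div_le_one hN0]; exact_mod_cast hmN
    · exact hτ
  calc ((univ.filter fun x : Fin m ↪ Q => NRel (asg x) σ U c).card : ℝ)
      ≤ h * (G.card.factorial * Q.card.descFactorial (m - G.card)) := by
        have : ((univ.filter fun x : Fin m ↪ Q => NRel (asg x) σ U c).card : ℝ) ≤
          ((h * G.card.factorial) * (Q.card.descFactorial (m - G.card)) : ℕ) := by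
          exact_mod_cast h1
        refine this.trans (le_of_eq ?_)
        push_cast; ring
    _ ≤ h * (((m : ℝ) / Q.card) ^ g0 * Q.card.descFactorial m) := by
        refine mul_le_mul_of_nonneg_left ?_ (Nat.cast_nonneg _)
        exact h3.trans (mul_le_mul_of_nonneg_right h4 (Nat.cast_nonneg _))
    _ = _ := by ring

end Pool.Agent.TH715.SP
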