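import Pool.Agent.TH715.SP.Final1

/-!
Quadruples: almost Sidon sets.
-/

set_option autoImplicit false
set_option linter.unusedSectionVars false
open Finset

namespace Pool.Agent.TH715.SP

variable {ι : Type} [Fintype ι] [DecidableEq ι] {h : ℕ}

/-- the signs of `a + b - c - d` -/
def sg4 : Fin 4 → ℤ := ![1, 1, -1, -1]

open Classical in
/-- the nontrivial coincidences among the sums of two elements of `A` -/
noncomputable def quads (A : Finset ℤ) : Finset (Fin 4 → ℤ) :=
  (Fintype.piFinset fun _ : Fin 4 => A).filter fun x =>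
    x 0 + x 1 = x 2 + x 3 ∧ x 0 ≠ x 2 ∧ x 0 ≠ x 3 ∧ x 0 + x 1 ≠ 0

/-- exponent functions supported in `P` -/
def expo (h : ℕ) (P : Finset ι) : Finset (ι → Fin (h + 1)) :=
  univ.filter fun g => ∀ i, i ∉ P → g i = 0

lemma card_expo (P : Finset ι) : (expo h P).card ≤ (h + 1) ^ P.card := by
  have h1 : Fintype.card (P → Fin (h + 1)) = (h + 1) ^ P.card := by simp
  rw [← h1, ← card_univ]
  refine Finset.card_le_card_of_injOn (fun g => fun i : P => g i) (fun _ _ => mem_coe.mpr (mem_univ _)) ?_
  intro g1 h1 g2 h2 heq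
  have h1' := (mem_filter.mp (mem_coe.mp h1)).2
  have h2' := (mem_filter.mp (mem_coe.mp h2)).2
  funext i
  by_cases hi : i ∈ P
  · exact congrFun heq ⟨i, hi⟩
  · rw [h1' i hi, h2' i hi]

lemma gmin_lt (e : ι → Fin 4 → Fin (h + 1)) (i : ι) : gmin univ e i < h + 1 :=
  lt_of_le_of_lt (gmin_le (mem_univ (0 : Fin 4))) (e i 0).2

open Classical in
lemma quads_card_sign {q : ι → ℕ} (hq : ∀ i, (q i).Prime) (P : Finset ι) (A : Finset ℤ)
    (hA : ∀ a ∈ A, a ≠ 0 ∧ ∃ f : ι → Fin (h + 1), (∀ i, i ∉ P → f i = 0) ∧ V q f = |a|)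
    (σ : Fin 4 → ℤ) (hσ : ∀ s, σ s = 1 ∨ σ s = -1) :
    ((quads A).filter fun x => ∀ s, 0 < σ s * (sg4 s * x s)).card ≤
      (relSet h q σ univ P).card * (h + 1) ^ P.card := by
  classical
  choose! hA0 hA1 using hA
  choose! φ hφ using hA1
  refine le_trans ?_ (Nat.mul_le_mul_left _ (card_expo (h := h) P))
  rw [← card_product]
  have habs : ∀ x : Fin 4 → ℤ, (∀ s, 0 < σ s * (sg4 s * x s)) → ∀ s, |x s| = σ s * (sg4 s * x s) := by
    intro x hx s
    have h1 : |σ s * (sg4 s * x s)| = σ s * (sg4 s * x s) := abs_of_pos (hx s)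
    have h2 : |sg4 s| = 1 := by fin_cases s <;> simp [sg4]
    have h3 : |σ s| = 1 := by rcases hσ s with h' | h' <;> rw [h'] <;> simp
    rw [abs_mul, abs_mul, h2, h3, one_mul, one_mul] at h1
    exact h1
  refine Finset.card_le_card_of_injOn (fun x =>
    (primPart univ (fun i s => φ (x s) i),
      fun i => ⟨gmin univ (fun i s => φ (x s) i) i, gmin_lt _ i⟩)) ?_ ?_
  · intro x hx
    have hx' := mem_filter.mp (mem_coe.mp hx)
    have hxq := mem_filter.mp hx'.1
    rw [Fintype.mem_piFinset] at hxq
    obtain ⟨hxA, hsum, h02, h03, h0⟩ := hxq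
    have hval : ∀ s, val q (fun i s => φ (x s) i) s = |x s| := fun s => (hφ _ (hxA s)).2
    have hsv : ∀ s, σ s * val q (fun i s => φ (x s) i) s = sg4 s * x s := by
      intro s
      rw [hval s, habs x hx'.2 s]
      rcases hσ s with h' | h' <;> rw [h'] <;> ring
    have hx0 : ∀ s, x s ≠ 0 := fun s => hA0 _ (hxA s)
    rw [mem_coe, mem_product]
    constructor
    · unfold relSet
      rw [mem_filter]
      refine ⟨mem_univ _, isRel_primPart hq ⟨0, mem_univ _⟩ ?_ ?_, supp_primPart ?_⟩
      · simp_rw [hsv]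
        rw [Fin.sum_univ_four]
        simp [sg4]
        linarith
      · intro W hW hWn hWU hc
        simp_rw [hsv] at hc
        have hc' : ∑ s : Fin 4, (if s ∈ W then sg4 s * x s else 0) = 0 := by
          rw [Finset.sum_ite_mem, univ_inter]
          exact hc
        rw [Fin.sum_univ_four] at hc'
        have hx00 := hx0 0
        have hx01 := hx0 1
        have hx02 := hx0 2
        have hx03 := hx0 3
        simp only [sg4, Matrix.cons_val_zero, Matrix.cons_val_one, Matrix.cons_val, one_mul] at hc'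
        by_cases m0 : (0 : Fin 4) ∈ W <;> by_cases m1 : (1 : Fin 4) ∈ W <;>
          by_cases m2 : (2 : Fin 4) ∈ W <;> by_cases m3 : (3 : Fin 4) ∈ W <;>
          simp only [m0, m1, m2, m3, if_true, if_false] at hc' <;> try omega
        · apply hWU
          ext s
          fin_cases s <;> simp [m0, m1, m2, m3]
        · obtain ⟨s, hs⟩ := hWn
          fin_cases s
          · exact m0 hs
          · exact m1 hs
          · exact m2 hs
          · exact m3 hs
      · intro i hi
        by_contra hiP
        unfold supp at hi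
        rw [mem_filter] at hi
        apply hi.2
        funext s
        exact (hφ _ (hxA s)).1 i hiP
    · unfold expo
      rw [mem_filter]
      refine ⟨mem_univ _, fun i hi => ?_⟩
      apply Fin.ext
      simp only [Fin.val_zero]
      have h1 := gmin_le (U := univ) (e := fun i s => φ (x s) i) (i := i) (mem_univ (0 : Fin 4))
      have h2 : ((φ (x 0) i : Fin (h + 1)) : ℕ) = 0 := by
        rw [(hφ _ (hxA 0)).1 i hi]; rfl
      have h3 : gmin univ (fun i s => φ (x s) i) i ≤ ((φ (x 0) i : Fin (h + 1)) : ℕ) := h1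
      omega
  · intro x hx y hy heq
    have hx' := mem_filter.mp (mem_coe.mp hx)
    have hy' := mem_filter.mp (mem_coe.mp hy)
    have hxA := (Fintype.mem_piFinset.mp (mem_filter.mp hx'.1).1)
    have hyA := (Fintype.mem_piFinset.mp (mem_filter.mp hy'.1).1)
    have h1 : primPart univ (fun i s => φ (x s) i) = primPart univ (fun i s => φ (y s) i) :=
      congrArg Prod.fst heq
    have h2 := congrArg Prod.snd heq
    have h3 : ∀ i, gmin univ (fun i s => φ (x s) i) i = gmin univ (fun i s => φ (y s) i) i := by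
      intro i
      have := congrFun h2 i
      simp only [Fin.mk.injEq] at this
      exact this
    have h4 : ∀ s i, φ (x s) i = φ (y s) i := by
      intro s i
      have a1 : ((φ (x s) i : Fin (h + 1)) : ℕ) = _ :=
        primPart_val (e := fun i s => φ (x s) i) (i := i) (mem_univ s)
      have a2 : ((φ (y s) i : Fin (h + 1)) : ℕ) = _ :=
        primPart_val (e := fun i s => φ (y s) i) (i := i) (mem_univ s)
      rw [h1, h3 i] at a1
      apply Fin.ext
      omega
    funext s
    have h5 : |x s| = |y s| := by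
      rw [← (hφ _ (hxA s)).2, ← (hφ _ (hyA s)).2]
      congr 1
      funext i
      exact h4 s i
    have h6 := habs x hx'.2 s
    have h7 := habs y hy'.2 s
    rw [h6, h7] at h5
    have h8 : σ s ≠ 0 := by rcases hσ s with h' | h' <;> rw [h'] <;> norm_num
    have h9 : sg4 s ≠ 0 := by fin_cases s <;> simp [sg4]
    exact mul_left_cancel₀ h9 (mul_left_cancel₀ h8 h5)

/-- the sign patterns -/
def signs4 : Finset (Fin 4 → ℤ) := Fintype.piFinset fun _ => {1, -1}

lemma mem_signs4 (σ : Fin 4 → ℤ) : σ ∈ signs4 ↔ ∀ s, σ s = 1 ∨ σ s = -1 := by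
  unfold signs4
  rw [Fintype.mem_piFinset]
  simp

lemma card_signs4 : signs4.card = 16 := by
  unfold signs4
  rw [Fintype.card_piFinset_const]
  simp

open Classical in
lemma quads_card {q : ι → ℕ} (hq : ∀ i, (q i).Prime) (P : Finset ι) (A : Finset ℤ)
    (hA : ∀ a ∈ A, a ≠ 0 ∧ ∃ f : ι → Fin (h + 1), (∀ i, i ∉ P → f i = 0) ∧ V q f = |a|) :
    (quads A).card ≤ (∑ σ ∈ signs4, (relSet h q σ univ P).card) * (h + 1) ^ P.card := by
  classical
  have hcov : quads A ⊆ signs4.biUnion fun σ =>
      (quads A).filter fun x => ∀ s, 0 < σ s * (sg4 s * x s) := by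
    intro x hx
    rw [mem_biUnion]
    have hxA := (Fintype.mem_piFinset.mp (mem_filter.mp hx).1)
    refine ⟨fun s => if 0 < sg4 s * x s then 1 else -1, ?_, mem_filter.mpr ⟨hx, ?_⟩⟩
    · rw [mem_signs4]
      intro s
      by_cases hs : 0 < sg4 s * x s
      · left; simp [hs]
      · right; simp [hs]
    · intro s
      have hne : sg4 s * x s ≠ 0 := by
        apply mul_ne_zero
        · fin_cases s <;> simp [sg4]
        · exact (hA _ (hxA s)).1
      by_cases hs : 0 < sg4 s * x s
      · simp [hs]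
      · simp only [hs, if_false]
        omega
  calc (quads A).card ≤ _ := card_le_card hcov
    _ ≤ ∑ σ ∈ signs4, ((quads A).filter fun x => ∀ s, 0 < σ s * (sg4 s * x s)).card :=
        card_biUnion_le
    _ ≤ ∑ σ ∈ signs4, (relSet h q σ univ P).card * (h + 1) ^ P.card :=
        Finset.sum_le_sum fun σ hσ => quads_card_sign hq P A hA σ ((mem_signs4 σ).mp hσ)
    _ = _ := by rw [Finset.sum_mul]

open scoped Pointwise in
open Classical in
/-- Cauchy-Schwarz away from the sum zero -/
lemma sumset_quads (A : Finset ℤ) :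
    ((A.card : ℝ) ^ 2 - A.card) ^ 2 ≤ ((A + A).card : ℝ) * (2 * (A.card : ℝ) ^ 2 + (quads A).card) := by
  classical
  set D := (A ×ˢ A).filter fun p : ℤ × ℤ => p.1 + p.2 ≠ 0 with hD
  set r : ℤ → ℕ := fun n => (D.filter fun p => p.1 + p.2 = n).card with hr
  -- number of pairs with nonzero sum
  have h1 : A.card ^ 2 - A.card ≤ D.card := by
    have h2 : ((A ×ˢ A).filter fun p : ℤ × ℤ => ¬ (p.1 + p.2 ≠ 0)).card ≤ A.card := by
      refine Finset.card_le_card_of_injOn (fun p => p.1) ?_ ?_
      · intro p hp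
        exact mem_coe.mpr (mem_product.mp (mem_filter.mp (mem_coe.mp hp)).1).1
      · intro p hp p' hp' heq
        have a1 := (mem_filter.mp (mem_coe.mp hp)).2
        have a2 := (mem_filter.mp (mem_coe.mp hp')).2
        have a3 : p.1 = p'.1 := heq
        push Not at a1 a2
        ext
        · exact a3
        · omega
    have h3 := Finset.card_filter_add_card_filter_not (s := A ×ˢ A)
      (fun p : ℤ × ℤ => p.1 + p.2 ≠ 0)
    rw [card_product] at h3
    rw [← hD] at h3
    have : A.card ^ 2 = A.card * A.card := sq _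
    omega
  have h2 : D.card = ∑ n ∈ A + A, r n := by
    apply Finset.card_eq_sum_card_fiberwise
    intro p hp
    have hp' := mem_product.mp (mem_filter.mp (mem_coe.mp hp)).1
    exact mem_coe.mpr (add_mem_add hp'.1 hp'.2)
  -- second moment
  have h3 : ∑ n ∈ A + A, r n ^ 2 ≤ 2 * A.card ^ 2 + (quads A).card := by
    have h4 : ∑ n ∈ A + A, r n ^ 2 =
        ((D ×ˢ D).filter fun z => z.1.1 + z.1.2 = z.2.1 + z.2.2).card := by
      rw [Finset.card_eq_sum_card_fiberwise (f := fun z : (ℤ × ℤ) × (ℤ × ℤ) => z.1.1 + z.1.2)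
        (t := A + A)]
      · refine Finset.sum_congr rfl fun n _ => ?_
        rw [sq, hr, ← card_product]
        congr 1
        ext z
        simp only [mem_product, mem_filter]
        constructor
        · rintro ⟨⟨a1, a2⟩, a3, a4⟩
          exact ⟨⟨⟨a1, a3⟩, by rw [a2, a4]⟩, a2⟩
        · rintro ⟨⟨⟨a1, a3⟩, a4⟩, a2⟩
          exact ⟨⟨a1, a2⟩, a3, by rw [← a4, a2]⟩
      · intro z hz
        have hz' := (mem_product.mp (mem_filter.mp (mem_coe.mp hz)).1).1
        have hp' := mem_product.mp (mem_filter.mp hz').1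
        exact mem_coe.mpr (add_mem_add hp'.1 hp'.2)
    rw [h4]
    set Z := (D ×ˢ D).filter fun z => z.1.1 + z.1.2 = z.2.1 + z.2.2 with hZ
    have h5 : Z ⊆ (Z.filter fun z => z.1.1 = z.2.1) ∪ ((Z.filter fun z => z.1.1 = z.2.2) ∪
        (Z.filter fun z => z.1.1 ≠ z.2.1 ∧ z.1.1 ≠ z.2.2)) := by
      intro z hz
      simp only [mem_union, mem_filter]
      tauto
    have h6 : (Z.filter fun z => z.1.1 = z.2.1).card ≤ A.card ^ 2 := by
      rw [sq, ← card_product]
      refine Finset.card_le_card_of_injOn (fun z => z.1) ?_ ?_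
      · intro z hz
        have hz' := (mem_product.mp (mem_filter.mp (mem_filter.mp (mem_coe.mp hz)).1).1).1
        exact mem_coe.mpr (mem_filter.mp hz').1
      · intro z hz z' hz' heq
        have a1 := mem_filter.mp (mem_coe.mp hz)
        have a2 := mem_filter.mp (mem_coe.mp hz')
        have b1 := (mem_filter.mp a1.1).2
        have b2 := (mem_filter.mp a2.1).2
        have c1 : z.1.1 = z'.1.1 := congrArg Prod.fst heq
        have c2 : z.1.2 = z'.1.2 := congrArg Prod.snd heq
        have a1' := a1.2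
        have a2' := a2.2
        ext <;> omega
    have h7 : (Z.filter fun z => z.1.1 = z.2.2).card ≤ A.card ^ 2 := by
      rw [sq, ← card_product]
      refine Finset.card_le_card_of_injOn (fun z => z.1) ?_ ?_
      · intro z hz
        have hz' := (mem_product.mp (mem_filter.mp (mem_filter.mp (mem_coe.mp hz)).1).1).1
        exact mem_coe.mpr (mem_filter.mp hz').1
      · intro z hz z' hz' heq
        have a1 := mem_filter.mp (mem_coe.mp hz)
        have a2 := mem_filter.mp (mem_coe.mp hz')
        have b1 := (mem_filter.mp a1.1).2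
        have b2 := (mem_filter.mp a2.1).2
        have c1 : z.1.1 = z'.1.1 := congrArg Prod.fst heq
        have c2 : z.1.2 = z'.1.2 := congrArg Prod.snd heq
        have a1' := a1.2
        have a2' := a2.2
        ext <;> omega
    have h8 : (Z.filter fun z => z.1.1 ≠ z.2.1 ∧ z.1.1 ≠ z.2.2).card ≤ (quads A).card := by
      refine Finset.card_le_card_of_injOn
        (fun z : (ℤ × ℤ) × (ℤ × ℤ) => (![z.1.1, z.1.2, z.2.1, z.2.2] : Fin 4 → ℤ)) ?_ ?_
      · intro z hz
        have a1 := mem_filter.mp (mem_coe.mp hz)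
        have a2 := mem_filter.mp a1.1
        have a3 := mem_product.mp a2.1
        have a4 := mem_filter.mp a3.1
        have a5 := mem_filter.mp a3.2
        have a6 := mem_product.mp a4.1
        have a7 := mem_product.mp a5.1
        rw [mem_coe]
        unfold quads
        rw [mem_filter, Fintype.mem_piFinset]
        refine ⟨?_, ?_, ?_, ?_, ?_⟩
        · intro s
          fin_cases s
          · exact a6.1
          · exact a6.2
          · exact a7.1
          · exact a7.2
        · exact a2.2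
        · exact a1.2.1
        · exact a1.2.2
        · exact a4.2
      · intro z _ z' _ heq
        have b0 : z.1.1 = z'.1.1 := congrFun heq 0
        have b1 : z.1.2 = z'.1.2 := congrFun heq 1
        have b2 : z.2.1 = z'.2.1 := congrFun heq 2
        have b3 : z.2.2 = z'.2.2 := congrFun heq 3
        ext <;> assumption
    calc Z.card ≤ _ := card_le_card h5
      _ ≤ _ := card_union_le _ _
      _ ≤ (Z.filter fun z => z.1.1 = z.2.1).card + ((Z.filter fun z => z.1.1 = z.2.2).card +
        (Z.filter fun z => z.1.1 ≠ z.2.1 ∧ z.1.1 ≠ z.2.2).card) :=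
          Nat.add_le_add_left (card_union_le _ _) _
      _ ≤ 2 * A.card ^ 2 + (quads A).card := by omega
  -- conclusion
  have h4 : (∑ n ∈ A + A, (r n : ℝ)) ^ 2 ≤ ((A + A).card : ℝ) * ∑ n ∈ A + A, (r n : ℝ) ^ 2 :=
    sq_sum_le_card_mul_sum_sq
  have h5 : (A.card : ℝ) ^ 2 - A.card ≤ ∑ n ∈ A + A, (r n : ℝ) := by
    have : (A.card : ℝ) ^ 2 ≤ D.card + A.card := by
      have h6 : A.card ^ 2 ≤ D.card + A.card := by omega
      exact_mod_cast h6
    have h7 : (D.card : ℝ) = ∑ n ∈ A + A, (r n : ℝ) := by
      rw [h2]; push_cast; rfl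
    linarith
  have h6 : 0 ≤ (A.card : ℝ) ^ 2 - A.card := by
    have : A.card ≤ A.card ^ 2 := by
      rcases Nat.eq_zero_or_pos A.card with h' | h'
      · rw [h']; simp
      · nlinarith
    have : (A.card : ℝ) ≤ (A.card : ℝ) ^ 2 := by exact_mod_cast this
    linarith
  calc ((A.card : ℝ) ^ 2 - A.card) ^ 2 ≤ (∑ n ∈ A + A, (r n : ℝ)) ^ 2 :=
        pow_le_pow_left₀ h6 h5 2
    _ ≤ _ := h4
    _ ≤ _ := by
        refine mul_le_mul_of_nonneg_left ?_ (Nat.cast_nonneg _)
        exact_mod_cast h3

end Pool.Agent.TH715.SP
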