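import Mathlib

/-!
Primitive nondegenerate vanishing sums of products of powers of given primes, and a weighted count
of them: choosing the most popular exponent pattern, the product of the primes with this pattern is
determined by the remaining ones up to `h` possibilities.
-/

set_option autoImplicit false
set_option linter.unusedSectionVars false
open Finset

namespace Pool.Agent.TH715.SP

variable {ι S : Type} [Fintype ι] [DecidableEq ι] [Fintype S] [DecidableEq S] {h : ℕ}

/-- the value of the `s`-th term -/
def val (q : ι → ℕ) (e : ι → S → Fin (h + 1)) (s : S) : ℤ := ∏ i, (q i : ℤ) ^ (e i s : ℕ)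

structure IsRel (q : ι → ℕ) (σ : S → ℤ) (U : Finset S) (e : ι → S → Fin (h + 1)) : Prop where
  sum0 : ∑ s ∈ U, σ s * val q e s = 0
  nondeg : ∀ V ⊆ U, V.Nonempty → V ≠ U → ∑ s ∈ V, σ s * val q e s ≠ 0
  prim : ∀ i, ∃ s ∈ U, e i s = 0
  off : ∀ i, ∀ s ∉ U, e i s = 0

/-- replace the pattern `τ` by zero -/
def zeroOut (τ : S → Fin (h + 1)) (e : ι → S → Fin (h + 1)) : ι → S → Fin (h + 1) :=
  fun i => if e i = τ then 0 else e i

/-- admissible patterns: not constant on `U` -/
def Adm (U : Finset S) (τ : S → Fin (h + 1)) : Prop :=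
  (∃ s ∈ U, τ s = 0) ∧ (∃ s ∈ U, τ s ≠ 0)

/-- the product of the primes with pattern `τ` -/
def classProd (q : ι → ℕ) (τ : S → Fin (h + 1)) (e : ι → S → Fin (h + 1)) : ℤ :=
  ∏ i, if e i = τ then (q i : ℤ) else 1

lemma val_eq (q : ι → ℕ) (τ : S → Fin (h + 1)) (e : ι → S → Fin (h + 1)) (s : S) :
    val q e s = val q (zeroOut τ e) s * classProd q τ e ^ (τ s : ℕ) := by
  unfold val classProd zeroOut
  rw [← Finset.prod_pow, ← Finset.prod_mul_distrib]
  refine Finset.prod_congr rfl fun i _ => ?_
  by_cases hi : e i = τ
  · simp [hi]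
  · simp [hi]

lemma dvd_classProd {q : ι → ℕ} (hq : ∀ i, (q i).Prime) (hinj : Function.Injective q)
    (τ : S → Fin (h + 1)) (e : ι → S → Fin (h + 1)) (i : ι) :
    (q i : ℤ) ∣ classProd q τ e ↔ e i = τ := by
  have hp : Prime (q i : ℤ) := Nat.prime_iff_prime_int.mp (hq i)
  unfold classProd
  rw [hp.dvd_finsetProd_iff]
  constructor
  · rintro ⟨i', -, hd⟩
    by_cases hi : e i' = τ
    · rw [if_pos hi] at hd
      have : q i ∣ q i' := by exact_mod_cast hd
      have : q i = q i' := (Nat.prime_dvd_prime_iff_eq (hq i) (hq i')).mp this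
      rw [hinj this]; exact hi
    · rw [if_neg hi] at hd
      exact absurd (isUnit_of_dvd_one hd) hp.not_isUnit
  · intro hi
    exact ⟨i, mem_univ _, by rw [if_pos hi]⟩

open Classical in
lemma fiber_card {q : ι → ℕ} (hq : ∀ i, (q i).Prime) (hinj : Function.Injective q)
    (σ : S → ℤ) (U : Finset S) (τ : S → Fin (h + 1)) (hτ : Adm U τ)
    (e' : ι → S → Fin (h + 1)) :
    (univ.filter fun e : ι → S → Fin (h + 1) => IsRel q σ U e ∧ zeroOut τ e = e').card ≤ h := by
  classical
  set E := univ.filter fun e : ι → S → Fin (h + 1) => IsRel q σ U e ∧ zeroOut τ e = e' with hE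
  by_cases hne : E.Nonempty
  swap
  · rw [Finset.not_nonempty_iff_eq_empty.mp hne]; simp
  let F : Polynomial ℤ := ∑ s ∈ U, Polynomial.C (σ s * val q e' s) * Polynomial.X ^ (τ s : ℕ)
  have hev : ∀ e ∈ E, ∀ V : Finset S, ∑ s ∈ V, σ s * val q e s =
      ∑ s ∈ V, σ s * val q e' s * classProd q τ e ^ (τ s : ℕ) := by
    intro e he V
    rw [hE, mem_filter] at he
    refine Finset.sum_congr rfl fun s _ => ?_
    rw [val_eq q τ e s, he.2.2]; ring
  have hdeg : F.natDegree ≤ h := by
    refine Polynomial.natDegree_sum_le_of_forall_le _ _ fun s _ => ?_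
    exact (Polynomial.natDegree_C_mul_X_pow_le _ _).trans (Nat.le_of_lt_succ (τ s).2)
  have hF0 : F ≠ 0 := by
    obtain ⟨e, he⟩ := hne
    have hrel : IsRel q σ U e := (mem_filter.mp he).2.1
    obtain ⟨⟨s0, hs0, hs0'⟩, ⟨s1, hs1, hs1'⟩⟩ := hτ
    have h1 := hrel.nondeg (U.filter fun s => τ s = 0) (filter_subset _ _)
      ⟨s0, mem_filter.mpr ⟨hs0, hs0'⟩⟩ (by
        intro hc
        rw [← hc, mem_filter] at hs1
        exact hs1' hs1.2)
    rw [hev e he] at h1
    intro hF
    apply h1
    have h2 : F.coeff 0 = 0 := by rw [hF]; simp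
    rw [← h2]
    simp only [F, Polynomial.finsetSum_coeff, Polynomial.coeff_C_mul, Polynomial.coeff_X_pow]
    rw [Finset.sum_filter]
    refine Finset.sum_congr rfl fun s _ => ?_
    by_cases hs : τ s = 0
    · simp [hs]
    · have : (0:ℕ) ≠ (τ s : ℕ) := fun h' => hs (Fin.ext h'.symm)
      simp [hs, this]
  calc E.card ≤ F.roots.toFinset.card := by
        refine Finset.card_le_card_of_injOn (fun e => classProd q τ e) ?_ ?_
        · intro e he
          have he' : e ∈ E := he
          simp only [Finset.mem_coe, Multiset.mem_toFinset, Polynomial.mem_roots hF0,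
            Polynomial.IsRoot]
          have h1 := (mem_filter.mp he').2.1.sum0
          rw [hev e he'] at h1
          simp only [F, Polynomial.eval_finsetSum, Polynomial.eval_mul, Polynomial.eval_C,
            Polynomial.eval_pow, Polynomial.eval_X]
          exact h1
        · intro e1 he1 e2 he2 heq
          have heq' : classProd q τ e1 = classProd q τ e2 := heq
          have h1 : zeroOut τ e1 = e' := (mem_filter.mp he1).2.2
          have h2 : zeroOut τ e2 = e' := (mem_filter.mp he2).2.2
          funext i
          have hiff : e1 i = τ ↔ e2 i = τ := by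
            rw [← dvd_classProd hq hinj τ e1 i, ← dvd_classProd hq hinj τ e2 i, heq']
          by_cases hi : e1 i = τ
          · rw [hi, hiff.mp hi]
          · have hi2 : e2 i ≠ τ := fun h' => hi (hiff.mpr h')
            have h3 := congrFun h1 i
            have h4 := congrFun h2 i
            unfold zeroOut at h3 h4
            rw [if_neg hi] at h3
            rw [if_neg hi2] at h4
            rw [h3, h4]
    _ ≤ F.roots.card := Multiset.toFinset_card_le _
    _ ≤ F.natDegree := Polynomial.card_roots' F
    _ ≤ h := hdeg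

/-- the number of indices with nonzero pattern -/
def supp (e : ι → S → Fin (h + 1)) : Finset ι := univ.filter fun i => e i ≠ 0

lemma adm_of_rel {q : ι → ℕ} {σ : S → ℤ} {U : Finset S} {e : ι → S → Fin (h + 1)}
    (hr : IsRel q σ U e) {i : ι} (hi : e i ≠ 0) : Adm U (e i) := by
  refine ⟨hr.prim i, ?_⟩
  by_contra hc
  push Not at hc
  apply hi
  funext s
  by_cases hs : s ∈ U
  · exact hc s hs
  · exact hr.off i s hs

lemma exists_popular {q : ι → ℕ} {σ : S → ℤ} {U : Finset S} {e : ι → S → Fin (h + 1)}
    (hr : IsRel q σ U e) (hne : (supp e).Nonempty) :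
    ∃ τ : S → Fin (h + 1), Adm U τ ∧
      (supp e).card ≤ Fintype.card (S → Fin (h + 1)) * (univ.filter fun i => e i = τ).card := by
  classical
  set T := Fintype.card (S → Fin (h + 1)) with hT
  by_contra hc
  push Not at hc
  have h1 : (supp e).card = ∑ τ : S → Fin (h + 1), ((supp e).filter fun i => e i = τ).card :=
    Finset.card_eq_sum_card_fiberwise (fun i _ => mem_coe.mpr (mem_univ _))
  have h2 : ∀ τ : S → Fin (h + 1), T * ((supp e).filter fun i => e i = τ).card ≤
      (supp e).card - 1 := by
    intro τ
    by_cases hτ : Adm U τ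
    · have h3 := hc τ hτ
      have h4 : ((supp e).filter fun i => e i = τ).card ≤ (univ.filter fun i => e i = τ).card :=
        card_le_card (filter_subset_filter _ (subset_univ _))
      have h5 := Nat.mul_le_mul_left T h4
      omega
    · have : ((supp e).filter fun i => e i = τ) = ∅ := by
        rw [Finset.filter_eq_empty_iff]
        intro i hi hiτ
        apply hτ
        rw [← hiτ]
        exact adm_of_rel hr (mem_filter.mp hi).2
      rw [this]; simp
  have hpos : 0 < (supp e).card := hne.card_pos
  have hTpos : 0 < T := Fintype.card_pos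
  have h3 : T * (supp e).card ≤ T * ((supp e).card - 1) := by
    calc T * (supp e).card = ∑ τ : S → Fin (h + 1), T * ((supp e).filter fun i => e i = τ).card := by
          rw [← Finset.mul_sum, ← h1]
      _ ≤ ∑ τ : S → Fin (h + 1), ((supp e).card - 1) := Finset.sum_le_sum fun τ _ => h2 τ
      _ = T * ((supp e).card - 1) := by
          rw [Finset.sum_const, smul_eq_mul, Finset.card_univ]
  have := Nat.le_of_mul_le_mul_left h3 hTpos
  omega

lemma supp_zeroOut (τ : S → Fin (h + 1)) (hτ : τ ≠ 0) (e : ι → S → Fin (h + 1)) :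
    (supp (zeroOut τ e)).card + (univ.filter fun i => e i = τ).card = (supp e).card := by
  classical
  rw [← Finset.card_union_of_disjoint]
  · congr 1
    ext i
    simp only [supp, zeroOut, mem_union, mem_filter, mem_univ, true_and]
    by_cases hi : e i = τ
    · simp [hi, hτ]
    · simp [hi]
  · rw [Finset.disjoint_left]
    intro i hi hi2
    have h1 : zeroOut τ e i ≠ 0 := (mem_filter.mp hi).2
    have h2 : e i = τ := (mem_filter.mp hi2).2
    apply h1
    unfold zeroOut
    rw [if_pos h2]

lemma sum_pow_supp (w : ℝ) :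
    ∑ e : ι → S → Fin (h + 1), w ^ (supp e).card =
      (1 + ((Fintype.card (S → Fin (h + 1)) : ℝ) - 1) * w) ^ Fintype.card ι := by
  classical
  have h1 : ∀ e : ι → S → Fin (h + 1), w ^ (supp e).card =
      ∏ i, (fun x : S → Fin (h + 1) => if x ≠ 0 then w else 1) (e i) := by
    intro e
    unfold supp
    rw [Finset.prod_ite]
    simp
  simp_rw [h1]
  have h2 := Finset.prod_univ_sum (fun _ : ι => (univ : Finset (S → Fin (h + 1))))
    (fun _ x => if x ≠ 0 then w else 1)
  rw [Fintype.piFinset_univ] at h2
  rw [← h2]
  rw [Finset.prod_const, Finset.card_univ]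
  congr 1
  rw [Finset.sum_ite]
  have h3 : (univ.filter fun x : S → Fin (h + 1) => ¬ x ≠ 0) = {0} := by
    ext x; simp
  have h4 : (univ.filter fun x : S → Fin (h + 1) => x ≠ 0) = univ.erase 0 := by
    ext x; simp
  rw [h3, h4]
  simp only [sum_const, card_singleton, nsmul_eq_mul, Nat.cast_one, one_mul, mul_one]
  rw [Finset.card_erase_of_mem (mem_univ _), Finset.card_univ]
  have : 1 ≤ Fintype.card (S → Fin (h + 1)) := Fintype.card_pos
  push_cast [Nat.cast_sub this]
  ring

open Classical in
/-- the weighted count of the relations -/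
lemma weighted {q : ι → ℕ} (hq : ∀ i, (q i).Prime) (hinj : Function.Injective q)
    (σ : S → ℤ) (U : Finset S) (z lam : ℝ) (hz : 0 ≤ z) (hl0 : 0 ≤ lam) (hl1 : lam ≤ 1)
    (hzl : z ≤ lam ^ Fintype.card (S → Fin (h + 1))) :
    ∑ e ∈ univ.filter (fun e : ι → S → Fin (h + 1) => IsRel q σ U e), z ^ (supp e).card ≤
      1 + Fintype.card (S → Fin (h + 1)) * (h * (1 + Fintype.card (S → Fin (h + 1)) *
        (z * lam)) ^ Fintype.card ι) := by
  classical
  set T := Fintype.card (S → Fin (h + 1)) with hT
  set R := univ.filter (fun e : ι → S → Fin (h + 1) => IsRel q σ U e) with hR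
  set w := z * lam with hw
  have hw0 : 0 ≤ w := mul_nonneg hz hl0
  -- the key pointwise estimate
  have key : ∀ e ∈ R, (supp e).Nonempty → z ^ (supp e).card ≤
      ∑ τ ∈ univ.filter (fun τ : S → Fin (h + 1) => Adm U τ), w ^ (supp (zeroOut τ e)).card := by
    intro e he hne
    have hr : IsRel q σ U e := (mem_filter.mp he).2
    obtain ⟨τ, hτ, hcard⟩ := exists_popular hr hne
    have hτ0 : τ ≠ 0 := by
      obtain ⟨-, s, -, hs⟩ := hτ
      intro h'; rw [h'] at hs; exact hs rfl
    have h1 := supp_zeroOut τ hτ0 e
    set m := (univ.filter fun i => e i = τ).card with hm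
    have h2 : z ^ (supp e).card ≤ w ^ (supp (zeroOut τ e)).card := by
      rw [← h1, pow_add, hw, mul_pow]
      refine mul_le_mul_of_nonneg_left ?_ (pow_nonneg hz _)
      calc z ^ m ≤ (lam ^ T) ^ m := pow_le_pow_left₀ hz hzl m
        _ = lam ^ (T * m) := by rw [← pow_mul]
        _ ≤ lam ^ (supp (zeroOut τ e)).card := by
            apply pow_le_pow_of_le_one hl0 hl1
            have h8 : (supp (zeroOut τ e)).card ≤ (supp e).card := by omega
            exact h8.trans hcard
    refine h2.trans ?_
    exact Finset.single_le_sum (f := fun τ => w ^ (supp (zeroOut τ e)).card)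
      (fun τ _ => pow_nonneg hw0 _) (mem_filter.mpr ⟨mem_univ _, hτ⟩)
  -- relations with empty support
  have hempty : ∀ e : ι → S → Fin (h + 1), ¬ (supp e).Nonempty → e = 0 := by
    intro e he
    rw [Finset.not_nonempty_iff_eq_empty] at he
    funext i
    by_contra hi
    have : i ∈ supp e := mem_filter.mpr ⟨mem_univ _, hi⟩
    rw [he] at this
    simp at this
  have h3 : ∑ e ∈ R.filter (fun e => ¬ (supp e).Nonempty), z ^ (supp e).card ≤ 1 := by
    have hsub : R.filter (fun e => ¬ (supp e).Nonempty) ⊆ {0} := by
      intro e he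
      rw [mem_singleton]
      exact hempty e (mem_filter.mp he).2
    calc ∑ e ∈ R.filter (fun e => ¬ (supp e).Nonempty), z ^ (supp e).card
        ≤ ∑ e ∈ ({0} : Finset (ι → S → Fin (h + 1))), z ^ (supp e).card :=
          Finset.sum_le_sum_of_subset_of_nonneg hsub fun _ _ _ => pow_nonneg hz _
      _ = 1 := by
          rw [sum_singleton]
          have : supp (0 : ι → S → Fin (h + 1)) = ∅ := by
            unfold supp; ext i; simp
          rw [this]; simp
  have h4 : ∑ e ∈ R.filter (fun e => (supp e).Nonempty), z ^ (supp e).card ≤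
      T * (h * (1 + T * w) ^ Fintype.card ι) := by
    calc ∑ e ∈ R.filter (fun e => (supp e).Nonempty), z ^ (supp e).card
        ≤ ∑ e ∈ R.filter (fun e => (supp e).Nonempty),
            ∑ τ ∈ univ.filter (fun τ : S → Fin (h + 1) => Adm U τ),
              w ^ (supp (zeroOut τ e)).card :=
          Finset.sum_le_sum fun e he => key e (mem_filter.mp he).1 (mem_filter.mp he).2
      _ ≤ ∑ e ∈ R, ∑ τ ∈ univ.filter (fun τ : S → Fin (h + 1) => Adm U τ),
              w ^ (supp (zeroOut τ e)).card :=
          Finset.sum_le_sum_of_subset_of_nonneg (filter_subset _ _) fun _ _ _ =>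
            Finset.sum_nonneg fun _ _ => pow_nonneg hw0 _
      _ = ∑ τ ∈ univ.filter (fun τ : S → Fin (h + 1) => Adm U τ), ∑ e ∈ R,
              w ^ (supp (zeroOut τ e)).card := Finset.sum_comm
      _ ≤ ∑ τ ∈ univ.filter (fun τ : S → Fin (h + 1) => Adm U τ),
            (h * (1 + T * w) ^ Fintype.card ι) := by
          refine Finset.sum_le_sum fun τ hτ => ?_
          have hτ' : Adm U τ := (mem_filter.mp hτ).2
          rw [← Finset.sum_fiberwise_of_maps_to (s := R) (t := univ) (g := fun e => zeroOut τ e)
            (fun _ _ => mem_univ _)]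
          calc ∑ e' : ι → S → Fin (h + 1), ∑ e ∈ R.filter (fun e => zeroOut τ e = e'),
                w ^ (supp (zeroOut τ e)).card
              ≤ ∑ e' : ι → S → Fin (h + 1), h * w ^ (supp e').card := by
                refine Finset.sum_le_sum fun e' _ => ?_
                have h5 : ∑ e ∈ R.filter (fun e => zeroOut τ e = e'),
                    w ^ (supp (zeroOut τ e)).card =
                    (R.filter (fun e => zeroOut τ e = e')).card * w ^ (supp e').card := by
                  rw [← nsmul_eq_mul, ← Finset.sum_const]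
                  refine Finset.sum_congr rfl fun e he => ?_
                  rw [(mem_filter.mp he).2]
                rw [h5]
                refine mul_le_mul_of_nonneg_right ?_ (pow_nonneg hw0 _)
                have h6 := fiber_card hq hinj σ U τ hτ' e'
                have h7 : R.filter (fun e => zeroOut τ e = e') =
                    univ.filter fun e : ι → S → Fin (h + 1) =>
                      IsRel q σ U e ∧ zeroOut τ e = e' := by
                  rw [hR, Finset.filter_filter]
                rw [h7]
                exact_mod_cast h6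
            _ = h * (1 + ((T : ℝ) - 1) * w) ^ Fintype.card ι := by
                rw [← Finset.mul_sum, sum_pow_supp]
            _ ≤ h * (1 + T * w) ^ Fintype.card ι := by
                refine mul_le_mul_of_nonneg_left ?_ (Nat.cast_nonneg _)
                have hT1 : (1 : ℝ) ≤ T := by
                  have : 1 ≤ T := Fintype.card_pos
                  exact_mod_cast this
                apply pow_le_pow_left₀
                · have : 0 ≤ ((T : ℝ) - 1) * w := mul_nonneg (by linarith) hw0
                  linarith
                · nlinarith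
      _ ≤ T * (h * (1 + T * w) ^ Fintype.card ι) := by
          rw [Finset.sum_const, nsmul_eq_mul]
          refine mul_le_mul_of_nonneg_right ?_ (by positivity)
          have : (univ.filter (fun τ : S → Fin (h + 1) => Adm U τ)).card ≤ T := by
            rw [hT, ← Finset.card_univ]; exact card_le_card (filter_subset _ _)
          exact_mod_cast this
  rw [← Finset.sum_filter_add_sum_filter_not R (fun e => (supp e).Nonempty)]
  linarith

end Pool.Agent.TH715.SP
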