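import Pool.Agent.TH715.SP.Samp

/-!
If few primitive nondegenerate relations are supported in `P`, then every integer has few
representations as a sum of `j` products of powers of the primes of `P`.
-/

set_option autoImplicit false
set_option linter.unusedSectionVars false
open Finset

namespace Pool.Agent.TH715.SP

variable {ι S : Type} [Fintype ι] [DecidableEq ι] [Fintype S] [DecidableEq S] {h : ℕ}

/-- the least exponent on `U` -/
noncomputable def gmin (U : Finset S) (e : ι → S → Fin (h + 1)) (i : ι) : ℕ :=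
  sInf {n | ∃ s ∈ U, (e i s : ℕ) = n}

lemma gmin_le {U : Finset S} {e : ι → S → Fin (h + 1)} {i : ι} {s : S} (hs : s ∈ U) :
    gmin U e i ≤ (e i s : ℕ) := Nat.sInf_le ⟨s, hs, rfl⟩

lemma gmin_mem {U : Finset S} (hU : U.Nonempty) (e : ι → S → Fin (h + 1)) (i : ι) :
    ∃ s ∈ U, (e i s : ℕ) = gmin U e i := by
  have : {n | ∃ s ∈ U, (e i s : ℕ) = n}.Nonempty := by
    obtain ⟨s, hs⟩ := hU
    exact ⟨_, s, hs, rfl⟩
  exact Nat.sInf_mem this

/-- divide by the common factor -/
noncomputable def primPart (U : Finset S) (e : ι → S → Fin (h + 1)) : ι → S → Fin (h + 1) :=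
  fun i s => if s ∈ U then ⟨(e i s : ℕ) - gmin U e i, by have := (e i s).2; omega⟩ else 0

lemma primPart_val {U : Finset S} {e : ι → S → Fin (h + 1)} {i : ι} {s : S} (hs : s ∈ U) :
    (e i s : ℕ) = (primPart U e i s : ℕ) + gmin U e i := by
  unfold primPart
  rw [if_pos hs]
  have := gmin_le (e := e) (i := i) hs
  simp only
  omega

lemma val_primPart (q : ι → ℕ) {U : Finset S} (e : ι → S → Fin (h + 1)) {s : S} (hs : s ∈ U) :
    val q e s = (∏ i, (q i : ℤ) ^ gmin U e i) * val q (primPart U e) s := by
  unfold val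
  rw [← Finset.prod_mul_distrib]
  refine Finset.prod_congr rfl fun i _ => ?_
  rw [primPart_val (i := i) hs, pow_add, mul_comm]

lemma isRel_primPart {q : ι → ℕ} (hq : ∀ i, (q i).Prime) {σ : S → ℤ} {U : Finset S}
    (hU : U.Nonempty) {e : ι → S → Fin (h + 1)} (h0 : ∑ s ∈ U, σ s * val q e s = 0)
    (hnd : ∀ V ⊆ U, V.Nonempty → V ≠ U → ∑ s ∈ V, σ s * val q e s ≠ 0) :
    IsRel q σ U (primPart U e) := by
  have hG : (∏ i, (q i : ℤ) ^ gmin U e i) ≠ 0 := by
    apply Finset.prod_ne_zero_iff.mpr
    intro i _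
    have : (q i : ℤ) ≠ 0 := by exact_mod_cast (hq i).ne_zero
    exact pow_ne_zero _ this
  have hfac : ∀ V ⊆ U, ∑ s ∈ V, σ s * val q e s =
      (∏ i, (q i : ℤ) ^ gmin U e i) * ∑ s ∈ V, σ s * val q (primPart U e) s := by
    intro V hV
    rw [Finset.mul_sum]
    refine Finset.sum_congr rfl fun s hs => ?_
    rw [val_primPart q e (hV hs)]; ring
  refine ⟨?_, ?_, ?_, ?_⟩
  · have := hfac U (Subset.refl _)
    rw [h0] at this
    rcases mul_eq_zero.mp this.symm with h' | h'
    · exact absurd h' hG
    · exact h'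
  · intro V hV hVn hVU hc
    apply hnd V hV hVn hVU
    rw [hfac V hV, hc, mul_zero]
  · intro i
    obtain ⟨s, hs, hs'⟩ := gmin_mem hU e i
    refine ⟨s, hs, ?_⟩
    have := primPart_val (e := e) (i := i) hs
    apply Fin.ext
    simp only [Fin.val_zero]
    omega
  · intro i s hs
    unfold primPart
    rw [if_neg hs]

lemma supp_primPart {U : Finset S} {e : ι → S → Fin (h + 1)} {P : Finset ι}
    (hP : supp e ⊆ P) : supp (primPart U e) ⊆ P := by
  intro i hi
  apply hP
  unfold supp at hi ⊢
  rw [mem_filter] at hi ⊢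
  refine ⟨mem_univ _, ?_⟩
  intro hc
  apply hi.2
  funext s
  unfold primPart
  by_cases hs : s ∈ U
  · rw [if_pos hs]
    apply Fin.ext
    have : (e i s : ℕ) = 0 := by rw [hc]; rfl
    simp [this]
  · rw [if_neg hs]; rfl

section jfold

variable {j : ℕ}

/-- signs: `+` on the left, `-` on the right -/
def sg (j : ℕ) : Fin j ⊕ Fin j → ℤ := Sum.elim (fun _ => 1) (fun _ => -1)

open Classical in
/-- the solutions with prescribed right hand side `b`, on the index set `W` -/
noncomputable def sols (h : ℕ) (q : ι → ℕ) (P : Finset ι) (b : Fin j → ι → Fin (h + 1))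
    (W : Finset (Fin j ⊕ Fin j)) : Finset (ι → (Fin j ⊕ Fin j) → Fin (h + 1)) :=
  univ.filter fun e => supp e ⊆ P ∧ (∀ i, ∀ t, Sum.inr t ∈ W → e i (Sum.inr t) = b t i) ∧
    (∀ i, ∀ s, s ∉ W → e i s = 0) ∧ ∑ s ∈ W, sg j s * val q e s = 0

lemma val_pos {q : ι → ℕ} (hq : ∀ i, (q i).Prime) (e : ι → S → Fin (h + 1)) (s : S) :
    0 < val q e s := by
  unfold val
  apply Finset.prod_pos
  intro i _
  have : (0 : ℤ) < (q i : ℤ) := by exact_mod_cast (hq i).pos
  exact pow_pos this _

lemma sols_card {q : ι → ℕ} (hq : ∀ i, (q i).Prime) (P : Finset ι)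
    (b : Fin j → ι → Fin (h + 1)) (K : ℕ) (hK1 : 1 ≤ K)
    (hK : ∀ U : Finset (Fin j ⊕ Fin j), (relSet h q (sg j) U P).card ≤ K) :
    ∀ n : ℕ, ∀ W : Finset (Fin j ⊕ Fin j), W.card = n →
      (sols h q P b W).card ≤ (4 ^ j * K) ^ W.card := by
  classical
  intro n
  induction n using Nat.strong_induction_on with
  | _ n ih =>
  intro W hWn
  have hc1 : 1 ≤ 4 ^ j * K := Nat.one_le_iff_ne_zero.mpr (by positivity)
  by_cases hleft : ∃ i0 : Fin j, Sum.inl i0 ∈ W
  swap
  · -- no left elements: at most one solution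
    push Not at hleft
    have h1 : (sols h q P b W).card ≤ 1 := by
      rw [Finset.card_le_one]
      intro e1 h1 e2 h2
      simp only [sols, mem_filter, mem_univ, true_and] at h1 h2
      funext i s
      rcases s with s | t
      · rw [h1.2.2.1 i _ (hleft s), h2.2.2.1 i _ (hleft s)]
      · by_cases ht : Sum.inr t ∈ W
        · rw [h1.2.1 i t ht, h2.2.1 i t ht]
        · rw [h1.2.2.1 i _ ht, h2.2.2.1 i _ ht]
    exact h1.trans (Nat.one_le_pow _ _ hc1)
  obtain ⟨i0, hi0⟩ := hleft
  set s0 : Fin j ⊕ Fin j := Sum.inl i0 with hs0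
  -- the pieces
  let rest : Finset (Fin j ⊕ Fin j) → (ι → (Fin j ⊕ Fin j) → Fin (h + 1)) →
      (ι → (Fin j ⊕ Fin j) → Fin (h + 1)) := fun U e i s => if s ∈ U then 0 else e i s
  let B : Finset (Fin j ⊕ Fin j) → Finset (ι → (Fin j ⊕ Fin j) → Fin (h + 1)) := fun U =>
    (sols h q P b W).filter fun e => primPart U e ∈ relSet h q (sg j) U P ∧
      rest U e ∈ sols h q P b (W \ U)
  let 𝒰 := W.powerset.filter fun U => s0 ∈ U ∧ ∃ t, Sum.inr t ∈ U
  have hcover : sols h q P b W ⊆ 𝒰.biUnion B := by
    intro e he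
    have he' := he
    simp only [sols, mem_filter, mem_univ, true_and] at he'
    obtain ⟨hsup, hb, hoff, hsum⟩ := he'
    let 𝒱 := W.powerset.filter fun U => s0 ∈ U ∧ ∑ s ∈ U, sg j s * val q e s = 0
    have hne : 𝒱.Nonempty := ⟨W, mem_filter.mpr ⟨mem_powerset.mpr (Subset.refl _), hi0, hsum⟩⟩
    obtain ⟨U, hU, hmin⟩ := Finset.exists_min_image 𝒱 Finset.card hne
    have hU' := mem_filter.mp hU
    have hUW : U ⊆ W := mem_powerset.mp hU'.1
    have hnd : ∀ V ⊆ U, V.Nonempty → V ≠ U → ∑ s ∈ V, sg j s * val q e s ≠ 0 := by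
      intro V hV hVn hVU hc
      by_cases hsV : s0 ∈ V
      · have : U.card ≤ V.card :=
          hmin V (mem_filter.mpr ⟨mem_powerset.mpr (hV.trans hUW), hsV, hc⟩)
        exact hVU (Finset.eq_of_subset_of_card_le hV this)
      · have h1 : ∑ s ∈ U \ V, sg j s * val q e s = 0 := by
          have := Finset.sum_sdiff (f := fun s => sg j s * val q e s) hV
          rw [hc, hU'.2.2, add_zero] at this
          exact this
        have h2 : U.card ≤ (U \ V).card :=
          hmin (U \ V) (mem_filter.mpr ⟨mem_powerset.mpr (sdiff_subset.trans hUW),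
            mem_sdiff.mpr ⟨hU'.2.1, hsV⟩, h1⟩)
        rw [card_sdiff_of_subset hV] at h2
        have h3 := hVn.card_pos
        have h4 := card_le_card hV
        omega
    have hr : ∃ t, Sum.inr t ∈ U := by
      by_contra hc
      push Not at hc
      have : 0 < ∑ s ∈ U, sg j s * val q e s := by
        apply Finset.sum_pos
        · intro s hs
          rcases s with s | t
          · simp only [sg, Sum.elim_inl, one_mul]
            exact val_pos hq e _
          · exact absurd hs (hc t)
        · exact ⟨s0, hU'.2.1⟩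
      rw [hU'.2.2] at this
      exact lt_irrefl _ this
    rw [mem_biUnion]
    refine ⟨U, mem_filter.mpr ⟨mem_powerset.mpr hUW, hU'.2.1, hr⟩, mem_filter.mpr ⟨he, ?_, ?_⟩⟩
    · unfold relSet
      rw [mem_filter]
      exact ⟨mem_univ _, isRel_primPart hq ⟨s0, hU'.2.1⟩ hU'.2.2 hnd, supp_primPart hsup⟩
    · unfold sols
      rw [mem_filter]
      refine ⟨mem_univ _, ?_, ?_, ?_, ?_⟩
      · intro i hi
        apply hsup
        unfold supp at hi ⊢
        rw [mem_filter] at hi ⊢
        refine ⟨mem_univ _, ?_⟩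
        intro hc
        apply hi.2
        funext s
        simp only [rest]
        rw [hc]
        simp
      · intro i t ht
        rw [mem_sdiff] at ht
        simp only [rest]
        rw [if_neg ht.2, hb i t ht.1]
      · intro i s hs
        simp only [rest]
        by_cases hsU : s ∈ U
        · rw [if_pos hsU]
        · rw [if_neg hsU]
          apply hoff
          intro hsW
          exact hs (mem_sdiff.mpr ⟨hsW, hsU⟩)
      · have h1 : ∑ s ∈ W \ U, sg j s * val q e s = 0 := by
          have := Finset.sum_sdiff (f := fun s => sg j s * val q e s) hUW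
          rw [hU'.2.2, hsum, add_zero] at this
          exact this
        rw [← h1]
        refine Finset.sum_congr rfl fun s hs => ?_
        congr 1
        unfold val
        refine Finset.prod_congr rfl fun i _ => ?_
        simp only [rest]
        rw [if_neg (mem_sdiff.mp hs).2]
  have hB : ∀ U ∈ 𝒰, (B U).card ≤ K * (4 ^ j * K) ^ (W.card - 1) := by
    intro U hU
    have hU' := mem_filter.mp hU
    have hUW : U ⊆ W := mem_powerset.mp hU'.1
    obtain ⟨hs0U, t, ht⟩ := hU'.2
    have hcard : (W \ U).card < W.card := by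
      rw [card_sdiff_of_subset hUW]
      have : 0 < U.card := card_pos.mpr ⟨s0, hs0U⟩
      have := card_le_card hUW
      omega
    have h1 : (B U).card ≤ ((relSet h q (sg j) U P) ×ˢ (sols h q P b (W \ U))).card := by
      refine Finset.card_le_card_of_injOn (fun e => (primPart U e, rest U e)) ?_ ?_
      · intro e he
        have := (mem_filter.mp (mem_coe.mp he)).2
        exact mem_coe.mpr (mem_product.mpr this)
      · intro e1 he1 e2 he2 heq
        have hh1 := mem_filter.mp (mem_coe.mp he1)
        have hh2 := mem_filter.mp (mem_coe.mp he2)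
        have hs1 := hh1.1
        have hs2 := hh2.1
        simp only [sols, mem_filter, mem_univ, true_and] at hs1 hs2
        have hp : primPart U e1 = primPart U e2 := congrArg Prod.fst heq
        have hr : rest U e1 = rest U e2 := congrArg Prod.snd heq
        funext i s
        by_cases hsU : s ∈ U
        · have hg : gmin U e1 i = gmin U e2 i := by
            have a1 := primPart_val (e := e1) (i := i) ht
            have a2 := primPart_val (e := e2) (i := i) ht
            rw [hs1.2.1 i t (hUW ht), hp] at a1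
            rw [hs2.2.1 i t (hUW ht)] at a2
            omega
          have a1 := primPart_val (e := e1) (i := i) hsU
          have a2 := primPart_val (e := e2) (i := i) hsU
          rw [hp] at a1
          apply Fin.ext
          omega
        · have := congrFun (congrFun hr i) s
          simp only [rest] at this
          rw [if_neg hsU, if_neg hsU] at this
          exact this
    rw [card_product] at h1
    refine h1.trans (Nat.mul_le_mul (hK U) ?_)
    refine (ih (W \ U).card (by omega) (W \ U) rfl).trans ?_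
    exact Nat.pow_le_pow_right hc1 (by omega)
  calc (sols h q P b W).card ≤ (𝒰.biUnion B).card := card_le_card hcover
    _ ≤ ∑ U ∈ 𝒰, (B U).card := card_biUnion_le
    _ ≤ ∑ U ∈ 𝒰, K * (4 ^ j * K) ^ (W.card - 1) := Finset.sum_le_sum hB
    _ = 𝒰.card * (K * (4 ^ j * K) ^ (W.card - 1)) := by rw [sum_const, smul_eq_mul]
    _ ≤ 4 ^ j * (K * (4 ^ j * K) ^ (W.card - 1)) := by
        refine Nat.mul_le_mul_right _ ?_
        calc 𝒰.card ≤ (univ : Finset (Finset (Fin j ⊕ Fin j))).card := card_le_card (subset_univ _)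
          _ = 2 ^ (j + j) := by simp
          _ = 4 ^ j := by rw [← two_mul, pow_mul]; norm_num
    _ = (4 ^ j * K) ^ (W.card - 1 + 1) := by rw [pow_succ]; ring
    _ = (4 ^ j * K) ^ W.card := by
        have : 0 < W.card := card_pos.mpr ⟨s0, hi0⟩
        rw [Nat.sub_add_cancel this]

/-- the product of prime powers -/
def V (q : ι → ℕ) (f : ι → Fin (h + 1)) : ℤ := ∏ i, (q i : ℤ) ^ (f i : ℕ)

open Classical in
/-- number of representations as a sum of `j` terms -/
lemma repr_card {q : ι → ℕ} (hq : ∀ i, (q i).Prime) (P : Finset ι) (K : ℕ) (hK1 : 1 ≤ K)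
    (hK : ∀ U : Finset (Fin j ⊕ Fin j), (relSet h q (sg j) U P).card ≤ K) (n : ℤ) :
    (univ.filter fun a : Fin j → ι → Fin (h + 1) =>
      (∀ t, ∀ i, i ∉ P → a t i = 0) ∧ ∑ t, V q (a t) = n).card ≤ (4 ^ j * K) ^ (2 * j) := by
  classical
  set E := univ.filter fun a : Fin j → ι → Fin (h + 1) =>
      (∀ t, ∀ i, i ∉ P → a t i = 0) ∧ ∑ t, V q (a t) = n with hE
  by_cases hne : E.Nonempty
  swap
  · rw [Finset.not_nonempty_iff_eq_empty.mp hne]; simp
  obtain ⟨b, hb⟩ := hne
  have hb' := (mem_filter.mp hb).2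
  have h1 : E.card ≤ (sols h q P b univ).card := by
    refine Finset.card_le_card_of_injOn
      (fun a => fun i s => Sum.elim (fun t => a t i) (fun t => b t i) s) ?_ ?_
    · intro a ha
      have ha' := (mem_filter.mp (mem_coe.mp ha)).2
      simp only [mem_coe, sols, mem_filter, mem_univ, true_and]
      refine ⟨?_, ?_, ?_, ?_⟩
      · intro i hi
        by_contra hiP
        unfold supp at hi
        rw [mem_filter] at hi
        apply hi.2
        funext s
        rcases s with t | t
        · simp only [Sum.elim_inl]; rw [ha'.1 t i hiP]; rfl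
        · simp only [Sum.elim_inr]; rw [hb'.1 t i hiP]; rfl
      · intro i t _; rfl
      · intro i s hs; exact absurd trivial hs
      · rw [Fintype.sum_sum_type]
        have h2 : ∑ t : Fin j, sg j (Sum.inl t) * val q (fun i s =>
            Sum.elim (fun t => a t i) (fun t => b t i) s) (Sum.inl t) = n := by
          rw [← ha'.2]
          refine Finset.sum_congr rfl fun t _ => ?_
          simp [sg, val, V]
        have h3 : ∑ t : Fin j, sg j (Sum.inr t) * val q (fun i s =>
            Sum.elim (fun t => a t i) (fun t => b t i) s) (Sum.inr t) = -n := by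
          rw [← hb'.2, ← Finset.sum_neg_distrib]
          refine Finset.sum_congr rfl fun t _ => ?_
          simp [sg, val, V]
        rw [h2, h3]; ring
    · intro a1 _ a2 _ heq
      funext t i
      exact congrFun (congrFun heq i) (Sum.inl t)
  have h2 := sols_card hq P b K hK1 hK _ univ rfl
  have h3 : (univ : Finset (Fin j ⊕ Fin j)).card = 2 * j := by simp; ring
  rw [h3] at h2
  exact h1.trans h2

/-- the `j`-fold sumset -/
def SS (j : ℕ) (A : Finset ℤ) : Finset ℤ :=
  (Fintype.piFinset fun _ : Fin j => A).image fun f => ∑ i, f i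

lemma sumset_card {q : ι → ℕ} (hq : ∀ i, (q i).Prime) (P : Finset ι) (K : ℕ) (hK1 : 1 ≤ K)
    (hK : ∀ U : Finset (Fin j ⊕ Fin j), (relSet h q (sg j) U P).card ≤ K) (A : Finset ℤ)
    (hA : ∀ a ∈ A, ∃ f : ι → Fin (h + 1), (∀ i, i ∉ P → f i = 0) ∧ V q f = a) :
    A.card ^ j ≤ (4 ^ j * K) ^ (2 * j) * (SS j A).card := by
  classical
  choose! φ hφ using hA
  have h1 : (Fintype.piFinset fun _ : Fin j => A).card = A.card ^ j := by
    rw [Fintype.card_piFinset_const]
  rw [← h1]
  have h2 : ∀ n ∈ SS j A, ((Fintype.piFinset fun _ : Fin j => A).filter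
      fun f => ∑ i, f i = n).card ≤ (4 ^ j * K) ^ (2 * j) := by
    intro n _
    refine le_trans ?_ (repr_card hq P K hK1 hK n)
    refine Finset.card_le_card_of_injOn (fun f => fun t => φ (f t)) ?_ ?_
    · intro f hf
      have hf' := mem_filter.mp (mem_coe.mp hf)
      rw [Fintype.mem_piFinset] at hf'
      simp only [mem_coe, mem_filter, mem_univ, true_and]
      refine ⟨fun t => (hφ _ (hf'.1 t)).1, ?_⟩
      rw [← hf'.2]
      exact Finset.sum_congr rfl fun t _ => (hφ _ (hf'.1 t)).2
    · intro f1 hf1 f2 hf2 heq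
      have hf1' := mem_filter.mp (mem_coe.mp hf1)
      have hf2' := mem_filter.mp (mem_coe.mp hf2)
      rw [Fintype.mem_piFinset] at hf1' hf2'
      funext t
      have h3 : φ (f1 t) = φ (f2 t) := congrFun heq t
      rw [← (hφ _ (hf1'.1 t)).2, ← (hφ _ (hf2'.1 t)).2, h3]
  have h3 := Finset.card_le_mul_card_image_of_maps_to
    (s := Fintype.piFinset fun _ : Fin j => A) (t := SS j A) (f := fun f => ∑ i, f i)
    (fun f hf => by
      unfold SS
      exact mem_image_of_mem (fun f : Fin j → ℤ => ∑ i, f i) hf) ((4 ^ j * K) ^ (2 * j)) h2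
  exact h3

end jfold

end Pool.Agent.TH715.SP
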