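import Pool.Agent.TH715.SP.Rel

/-!
The number of relations supported in a random `k`-subset.
-/

set_option autoImplicit false
set_option linter.unusedSectionVars false
open Finset

namespace Pool.Agent.TH715.SP

lemma choose_step (N k m : ℕ) (hk : k ≤ N) (hm : m ≤ k) :
    (N - m).choose (k - m) * N ^ m ≤ k ^ m * N.choose k := by
  induction m with
  | zero => simp
  | succ m ih =>
    have ih' := ih (by omega)
    obtain ⟨n, hn⟩ : ∃ n, N - m = n + 1 := ⟨N - m - 1, by omega⟩
    obtain ⟨κ, hκ⟩ : ∃ κ, k - m = κ + 1 := ⟨k - m - 1, by omega⟩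
    have h1 : N - (m + 1) = n := by omega
    have h2 : k - (m + 1) = κ := by omega
    rw [hn, hκ] at ih'
    rw [h1, h2]
    have h3 : (n + 1) * n.choose κ = (n + 1).choose (κ + 1) * (κ + 1) := Nat.add_one_mul_choose_eq n κ
    have h4 : (κ + 1) * N ≤ k * (n + 1) := by
      have h5 : κ + 1 + m = k := by omega
      have h6 : n + 1 + m = N := by omega
      rw [← h5, ← h6]
      have h7 : κ + 1 ≤ n + 1 := by omega
      nlinarith [Nat.mul_le_mul_right m h7]
    have h5 : n.choose κ * N ≤ k * (n + 1).choose (κ + 1) := by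
      have h6 : (n + 1) * (n.choose κ * N) ≤ (n + 1) * (k * (n + 1).choose (κ + 1)) := by
        calc (n + 1) * (n.choose κ * N) = ((n + 1) * n.choose κ) * N := by ring
          _ = (n + 1).choose (κ + 1) * ((κ + 1) * N) := by rw [h3]; ring
          _ ≤ (n + 1).choose (κ + 1) * (k * (n + 1)) := Nat.mul_le_mul_left _ h4
          _ = (n + 1) * (k * (n + 1).choose (κ + 1)) := by ring
      exact Nat.le_of_mul_le_mul_left h6 (by omega)
    calc n.choose κ * N ^ (m + 1) = (n.choose κ * N) * N ^ m := by ring
      _ ≤ (k * (n + 1).choose (κ + 1)) * N ^ m := Nat.mul_le_mul_right _ h5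
      _ = k * ((n + 1).choose (κ + 1) * N ^ m) := by ring
      _ ≤ k * (k ^ m * N.choose k) := Nat.mul_le_mul_left _ ih'
      _ = k ^ (m + 1) * N.choose k := by ring

variable {ι : Type} [Fintype ι] [DecidableEq ι]

lemma card_supersets (k : ℕ) (A : Finset ι) :
    ((powersetCard k (univ : Finset ι)).filter fun P => A ⊆ P).card ≤
      if A.card ≤ k then (Fintype.card ι - A.card).choose (k - A.card) else 0 := by
  split_ifs with hA
  · calc ((powersetCard k (univ : Finset ι)).filter fun P => A ⊆ P).card
        ≤ (powersetCard (k - A.card) (univ \ A)).card := by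
          refine Finset.card_le_card_of_injOn (fun P => P \ A) ?_ ?_
          · intro P hP
            have hP' := mem_filter.mp (mem_coe.mp hP)
            rw [mem_powersetCard] at hP'
            rw [mem_coe, mem_powersetCard]
            refine ⟨sdiff_subset_sdiff (subset_univ _) (Subset.refl _), ?_⟩
            rw [card_sdiff_of_subset hP'.2, hP'.1.2]
          · intro P1 h1 P2 h2 heq
            have h1' := (mem_filter.mp (mem_coe.mp h1)).2
            have h2' := (mem_filter.mp (mem_coe.mp h2)).2
            have heq' : P1 \ A = P2 \ A := heq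
            rw [← sdiff_union_of_subset h1', ← sdiff_union_of_subset h2', heq']
      _ = (Fintype.card ι - A.card).choose (k - A.card) := by
          rw [card_powersetCard, card_sdiff_of_subset (subset_univ _), card_univ]
  · rw [Nat.le_zero, card_eq_zero, filter_eq_empty_iff]
    intro P hP hAP
    rw [mem_powersetCard] at hP
    have := card_le_card hAP
    omega

lemma card_supersets_real (k : ℕ) (hk : k ≤ Fintype.card ι) (A : Finset ι) :
    (((powersetCard k (univ : Finset ι)).filter fun P => A ⊆ P).card : ℝ) ≤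
      ((k : ℝ) / Fintype.card ι) ^ A.card * (Fintype.card ι).choose k := by
  have h1 := card_supersets k A
  split_ifs at h1 with hA
  · have h2 := choose_step (Fintype.card ι) k A.card hk hA
    by_cases hN : Fintype.card ι = 0
    · have h3 : A.card = 0 := by
        have := card_le_univ A; omega
      rw [h3, pow_zero, one_mul]
      rw [h3] at h1
      simp only [Nat.sub_zero] at h1
      exact_mod_cast h1
    · have hN' : (0 : ℝ) < (Fintype.card ι : ℝ) := by
        exact_mod_cast Nat.pos_of_ne_zero hN
      rw [div_pow, div_mul_eq_mul_div, le_div_iff₀ (pow_pos hN' _)]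
      calc (((powersetCard k (univ : Finset ι)).filter fun P => A ⊆ P).card : ℝ) *
            (Fintype.card ι : ℝ) ^ A.card
          ≤ ((Fintype.card ι - A.card).choose (k - A.card) : ℕ) *
            (Fintype.card ι : ℝ) ^ A.card := by
            refine mul_le_mul_of_nonneg_right ?_ (pow_nonneg hN'.le _)
            exact_mod_cast h1
        _ ≤ (k : ℝ) ^ A.card * (Fintype.card ι).choose k := by exact_mod_cast h2
  · rw [Nat.le_zero] at h1
    rw [h1]
    simp only [Nat.cast_zero]
    positivity

variable {S : Type} [Fintype S] [DecidableEq S] {h : ℕ}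

open Classical in
/-- relations with signs `σ` on `U`, supported in `P` -/
noncomputable def relSet (h : ℕ) (q : ι → ℕ) (σ : S → ℤ) (U : Finset S) (P : Finset ι) :
    Finset (ι → S → Fin (h + 1)) :=
  univ.filter fun e => IsRel q σ U e ∧ supp e ⊆ P

open Classical in
lemma sum_relSet {q : ι → ℕ} (hq : ∀ i, (q i).Prime) (hinj : Function.Injective q)
    (σ : S → ℤ) (U : Finset S) (k : ℕ) (hk : k ≤ Fintype.card ι) (lam : ℝ) (hl0 : 0 ≤ lam)
    (hl1 : lam ≤ 1)
    (hkl : (k : ℝ) / Fintype.card ι ≤ lam ^ Fintype.card (S → Fin (h + 1))) :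
    ∑ P ∈ powersetCard k (univ : Finset ι), ((relSet h q σ U P).card : ℝ) ≤
      (1 + Fintype.card (S → Fin (h + 1)) * (h * Real.exp (Fintype.card (S → Fin (h + 1)) *
        (lam * k)))) * (Fintype.card ι).choose k := by
  set N := Fintype.card ι with hN
  set T := Fintype.card (S → Fin (h + 1)) with hT
  have h1 : ∑ P ∈ powersetCard k (univ : Finset ι), ((relSet h q σ U P).card : ℝ) =
      ∑ e ∈ univ.filter (fun e : ι → S → Fin (h + 1) => IsRel q σ U e),
        (((powersetCard k (univ : Finset ι)).filter fun P => supp e ⊆ P).card : ℝ) := by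
    have h2 : ∀ P : Finset ι, ((relSet h q σ U P).card : ℝ) =
        ∑ e ∈ univ.filter (fun e : ι → S → Fin (h + 1) => IsRel q σ U e),
          if supp e ⊆ P then (1 : ℝ) else 0 := by
      intro P
      rw [← Finset.sum_filter, Finset.filter_filter, Finset.sum_const, nsmul_eq_mul, mul_one]
      rfl
    simp_rw [h2]
    rw [Finset.sum_comm]
    refine Finset.sum_congr rfl fun e _ => ?_
    rw [← Finset.sum_filter, Finset.sum_const, nsmul_eq_mul, mul_one]
  rw [h1]
  have hz : (0 : ℝ) ≤ (k : ℝ) / N := by positivity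
  calc ∑ e ∈ univ.filter (fun e : ι → S → Fin (h + 1) => IsRel q σ U e),
        (((powersetCard k (univ : Finset ι)).filter fun P => supp e ⊆ P).card : ℝ)
      ≤ ∑ e ∈ univ.filter (fun e : ι → S → Fin (h + 1) => IsRel q σ U e),
        ((k : ℝ) / N) ^ (supp e).card * N.choose k :=
        Finset.sum_le_sum fun e _ => card_supersets_real k hk (supp e)
    _ = (∑ e ∈ univ.filter (fun e : ι → S → Fin (h + 1) => IsRel q σ U e),
        ((k : ℝ) / N) ^ (supp e).card) * N.choose k := by rw [Finset.sum_mul]
    _ ≤ (1 + T * (h * (1 + T * ((k : ℝ) / N * lam)) ^ N)) * N.choose k := by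
        refine mul_le_mul_of_nonneg_right ?_ (Nat.cast_nonneg _)
        exact weighted hq hinj σ U ((k : ℝ) / N) lam hz hl0 hl1 hkl
    _ ≤ (1 + T * (h * Real.exp (T * (lam * k)))) * N.choose k := by
        refine mul_le_mul_of_nonneg_right ?_ (Nat.cast_nonneg _)
        have h3 : (1 + T * ((k : ℝ) / N * lam)) ^ N ≤ Real.exp (T * (lam * k)) := by
          have h4 : 1 + T * ((k : ℝ) / N * lam) ≤ Real.exp (T * ((k : ℝ) / N * lam)) := by
            have := Real.add_one_le_exp (T * ((k : ℝ) / N * lam))
            linarith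
          calc (1 + T * ((k : ℝ) / N * lam)) ^ N ≤ Real.exp (T * ((k : ℝ) / N * lam)) ^ N :=
                pow_le_pow_left₀ (by positivity) h4 N
            _ = Real.exp (N * (T * ((k : ℝ) / N * lam))) := by rw [← Real.exp_nat_mul]
            _ ≤ Real.exp (T * (lam * k)) := by
                apply Real.exp_le_exp.mpr
                by_cases hN0 : (N : ℝ) = 0
                · rw [hN0]; simp only [zero_mul]; positivity
                · have : (N : ℝ) * (T * ((k : ℝ) / N * lam)) = T * (lam * k) := by
                    field_simp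
                  rw [this]
        gcongr

/-- Markov's inequality for the total number of relations -/
lemma markov {q : ι → ℕ} (hq : ∀ i, (q i).Prime) (hinj : Function.Injective q)
    (Λ : Finset ((S → ℤ) × Finset S)) (k : ℕ) (hk : k ≤ Fintype.card ι) (lam : ℝ) (hl0 : 0 ≤ lam)
    (hl1 : lam ≤ 1)
    (hkl : (k : ℝ) / Fintype.card ι ≤ lam ^ Fintype.card (S → Fin (h + 1)))
    (K : ℝ) (hK : 0 < K) :
    (((powersetCard k (univ : Finset ι)).filter fun P =>
        K < ∑ x ∈ Λ, ((relSet h q x.1 x.2 P).card : ℝ)).card : ℝ) ≤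
      K⁻¹ * (Λ.card * (1 + Fintype.card (S → Fin (h + 1)) * (h * Real.exp
        (Fintype.card (S → Fin (h + 1)) * (lam * k))))) * (Fintype.card ι).choose k := by
  set W := (powersetCard k (univ : Finset ι)).filter fun P =>
        K < ∑ x ∈ Λ, ((relSet h q x.1 x.2 P).card : ℝ) with hW
  have h1 : (W.card : ℝ) * K ≤ ∑ P ∈ powersetCard k (univ : Finset ι),
      ∑ x ∈ Λ, ((relSet h q x.1 x.2 P).card : ℝ) := by
    calc (W.card : ℝ) * K = ∑ P ∈ W, K := by rw [Finset.sum_const, nsmul_eq_mul]
      _ ≤ ∑ P ∈ W, ∑ x ∈ Λ, ((relSet h q x.1 x.2 P).card : ℝ) :=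
          Finset.sum_le_sum fun P hP => (mem_filter.mp hP).2.le
      _ ≤ _ := Finset.sum_le_sum_of_subset_of_nonneg (filter_subset _ _) fun _ _ _ =>
          Finset.sum_nonneg fun _ _ => Nat.cast_nonneg _
  have h2 : ∑ P ∈ powersetCard k (univ : Finset ι),
      ∑ x ∈ Λ, ((relSet h q x.1 x.2 P).card : ℝ) ≤
      Λ.card * ((1 + Fintype.card (S → Fin (h + 1)) * (h * Real.exp
        (Fintype.card (S → Fin (h + 1)) * (lam * k)))) * (Fintype.card ι).choose k) := by
    rw [Finset.sum_comm, ← nsmul_eq_mul, ← Finset.sum_const]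
    exact Finset.sum_le_sum fun x _ => sum_relSet hq hinj x.1 x.2 k hk lam hl0 hl1 hkl
  have h3 := h1.trans h2
  rw [← le_div_iff₀ hK] at h3
  refine h3.trans (le_of_eq ?_)
  field_simp

end Pool.Agent.TH715.SP
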